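import Pool.Agent.Lib.Primc.Final

/-! # The case q = 0 and the final theorem -/

namespace Pool.Agent.Lib.Primc

open Finset Filter Topology

theorem sum_even (n : ℕ) (k : ℕ → ℕ) :
    ∑ c ∈ Finset.Icc 1 (2*n-1), (if Even c ∧ 2 ≤ c ∧ c ≤ 2*n-2 then k (c/2) else 0)
      = ∑ t ∈ Finset.Ico 1 n, k t := by
  rw [← Finset.sum_filter]
  symm
  apply Finset.sum_bij (fun t _ => 2 * t)
  · intro t ht
    rw [Finset.mem_Ico] at ht
    rw [Finset.mem_filter, Finset.mem_Icc]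
    exact ⟨⟨by omega, by omega⟩, even_two_mul t, by omega, by omega⟩
  · intro a _ b _ h
    omega
  · intro c hc
    rw [Finset.mem_filter, Finset.mem_Icc] at hc
    obtain ⟨⟨_, _⟩, hev, h2, h3⟩ := hc
    obtain ⟨r, hr⟩ := hev
    refine ⟨r, ?_, by omega⟩
    rw [Finset.mem_Ico]; omega
  · intro t _
    congr 1; omega

theorem sum_marks (n : ℕ) (hn : 1 ≤ n) (k : ℕ → ℕ) :
    ∑ c ∈ Finset.Icc 1 (2*n-1), ((if c = 1 then k 0 else 0) + (if c = 2*n-1 then k n else 0)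
      + (if Even c ∧ 2 ≤ c ∧ c ≤ 2*n-2 then k (c/2) else 0)) = ∑ t ∈ Finset.range (n+1), k t := by
  rw [Finset.sum_add_distrib, Finset.sum_add_distrib, sum_even]
  rw [Finset.sum_ite_eq' (Finset.Icc 1 (2*n-1)) 1 (fun _ => k 0),
    Finset.sum_ite_eq' (Finset.Icc 1 (2*n-1)) (2*n-1) (fun _ => k n)]
  rw [if_pos (by rw [Finset.mem_Icc]; omega), if_pos (by rw [Finset.mem_Icc]; omega)]
  have h1 : ∑ t ∈ Finset.range n, k t = k 0 + ∑ t ∈ Finset.Ico 1 n, k t := by
    rw [Finset.range_eq_Ico]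
    exact Finset.sum_eq_sum_Ico_succ_bot (by omega) k
  rw [Finset.sum_range_succ, h1]
  ring

theorem arrays_zero (n : ℕ) (hn : 1 ≤ n) (k : ℕ → ℕ) : arrays n k 0 = {fun _ _ => 0} := by
  ext g
  simp only [Set.mem_singleton_iff]
  constructor
  · rintro ⟨h1, _, _⟩
    funext i c
    by_contra hne
    have := h1 i c hne
    omega
  · intro hg
    rw [hg]
    refine ⟨?_, ?_, ?_⟩
    · intro i c h
      exact absurd rfl h
    · simp
    · intro p _ _
      rw [← sum_marks n hn k]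
      apply Finset.sum_le_sum
      intro c _
      simp only []
      split_ifs <;> simp

theorem qinf_zero : qinf 0 = 1 := by
  unfold qinf
  have : (fun j : ℕ => (1 : ℂ) - 0 ^ (j + 1)) = fun _ => 1 := by
    funext j; simp
  rw [this, tprod_one]

theorem thh_zero (M x : ℕ) (h0 : 0 < x) (h1 : x < M) : thh M 0 x = 1 := by
  unfold thh
  have : (fun s : ℕ => ((1 : ℂ) - 0 ^ (x + M * s)) * (1 - 0 ^ (M - x + M * s))) = fun _ => 1 := by
    funext s
    rw [zero_pow (by omega), zero_pow (by omega)]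
    simp
  rw [this, tprod_one]

theorem final_zero (n : ℕ) (hn : 1 ≤ n) (k : ℕ → ℕ) :
    HasSum (fun N : ℕ => (((arrays n k N).ncard : ℕ) : ℂ) * (0 : ℂ) ^ N)
      ((qinf ((0 : ℂ) ^ (2 * (n + Sk k (n + 1))))) ^ n /
        (qinf ((0 : ℂ) ^ 2) * (qinf 0) ^ (n - 1)) *
        ∏ i, ∏ j ∈ Finset.Ioi i, (thh (2 * (n + Sk k (n + 1))) 0 (eN n k j - eN n k i) *
          thh (2 * (n + Sk k (n + 1))) 0 (eN n k i + eN n k j + 1))) := by
  have h1 : (0 : ℂ) ^ (2 * (n + Sk k (n + 1))) = 0 := zero_pow (by omega)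
  have h2 : (0 : ℂ) ^ 2 = 0 := zero_pow (by omega)
  rw [h1, h2, qinf_zero]
  have h3 : (∏ i, ∏ j ∈ Finset.Ioi i, (thh (2 * (n + Sk k (n + 1))) 0 (eN n k j - eN n k i) *
          thh (2 * (n + Sk k (n + 1))) 0 (eN n k i + eN n k j + 1))) = 1 := by
    apply Finset.prod_eq_one
    intro i _
    apply Finset.prod_eq_one
    intro j hj
    have hij : eN n k i < eN n k j := eN_strictMono n k (Finset.mem_Ioi.mp hj)
    have hi := eN_lt n k i
    have hj := eN_lt n k j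
    rw [thh_zero _ _ (by omega) (by omega), thh_zero _ _ (by omega) (by omega), one_mul]
  rw [h3]
  simp only [one_pow, mul_one, div_one]
  have h4 := hasSum_single (f := fun N : ℕ => (((arrays n k N).ncard : ℕ) : ℂ) * (0 : ℂ) ^ N) 0
    (by
      intro N hN
      rw [zero_pow hN, mul_zero])
  have h5 : (((arrays n k 0).ncard : ℕ) : ℂ) * (0 : ℂ) ^ 0 = 1 := by
    rw [arrays_zero n hn k, Set.ncard_singleton]; simp
  rw [h5] at h4
  exact h4

theorem final (n : ℕ) (hn : 1 ≤ n) (k : ℕ → ℕ) (q : ℂ) (hq1 : ‖q‖ < 1) :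
    HasSum (fun N : ℕ => (((arrays n k N).ncard : ℕ) : ℂ) * q ^ N)
      ((qinf (q ^ (2 * (n + Sk k (n + 1))))) ^ n / (qinf (q ^ 2) * (qinf q) ^ (n - 1)) *
        ∏ i, ∏ j ∈ Finset.Ioi i, (thh (2 * (n + Sk k (n + 1))) q (eN n k j - eN n k i) *
          thh (2 * (n + Sk k (n + 1))) q (eN n k i + eN n k j + 1))) := by
  rcases eq_or_ne q 0 with h | h
  · rw [h]; exact final_zero n hn k
  · exact final_ne_zero n hn k q h hq1

end Pool.Agent.Lib.Primc
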