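import Pool.Agent.Lib.Primc.BijInj

/-! Module A: the bijection between admissible arrays and families of walkers. -/

namespace Pool.Agent.Lib.Primc

open Finset

/-- the admissible arrays of size `N`, exactly as in the frozen statement -/
def arrays (n : ℕ) (k : ℕ → ℕ) (N : ℕ) : Set (ℕ → ℕ → ℕ) :=
  {g : ℕ → ℕ → ℕ |
        (∀ i c, g i c ≠ 0 → 1 ≤ i ∧ i ≤ N ∧ 1 ≤ c ∧ c ≤ 2*n-1 ∧ Odd (c+i)) ∧
        (∑ i ∈ Finset.range (N+1), ∑ c ∈ Finset.Icc 1 (2*n-1), i * g i c) = N ∧
        ∀ p : ℕ → ℤ, (∀ c ∈ Finset.Icc 1 (2*n-1), -1 ≤ p c ∧ Odd (p c + (c : ℤ))) →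
          (∀ r ∈ Finset.Icc 1 (2*n-2), |p r - p (r+1)| = 1) →
          (∑ c ∈ Finset.Icc 1 (2*n-1),
              (if 1 ≤ p c then g (p c).toNat c
               else if p c = 0 then (if c = 1 then k 0 else 0) + (if c = 2*n-1 then k n else 0)
               else if Even c ∧ 2 ≤ c ∧ c ≤ 2*n-2 then k (c/2) else 0))
            ≤ ∑ t ∈ Finset.range (n+1), k t}

open Classical in
/-- arrays of size `N` correspond to families of walkers of weight `N` -/
theorem card_arrays (n : ℕ) (hn : 1 ≤ n) (k : ℕ → ℕ) (N T : ℕ) (hT : N + 2 * n ≤ 2 * T + 1) :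
    (arrays n k N).ncard = ((Finset.univ : Finset (Fin (2 * T + 1) →
        Finset (Fin (∑ t ∈ Finset.range (n + 1), k t)))).filter (fun σ =>
          Good n (site n k) (ext σ) (2 * T + 1) (fun _ => (n : ℤ) + T) ∧
            wt n (site n k) (ext σ) (2 * T + 1) = N)).card := by
  have hfin : ∀ σ : Fin (2 * T + 1) → Finset (Fin (∑ t ∈ Finset.range (n + 1), k t)),
      Good n (site n k) (ext σ) (2 * T + 1) (fun _ => (n : ℤ) + T) → Fin' n k (ext σ) T := by
    intro σ hσ
    refine ⟨hn, rfl, hσ.1, hσ.2, ?_⟩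
    intro t ht
    unfold ext
    rw [dif_neg (by omega)]
  have himg : arrays n k N = (fun σ : Fin (2 * T + 1) →
        Finset (Fin (∑ t ∈ Finset.range (n + 1), k t)) => arrOf n (site n k) (ext σ)) ''
      (((Finset.univ : Finset (Fin (2 * T + 1) →
        Finset (Fin (∑ t ∈ Finset.range (n + 1), k t)))).filter (fun σ =>
          Good n (site n k) (ext σ) (2 * T + 1) (fun _ => (n : ℤ) + T) ∧
            wt n (site n k) (ext σ) (2 * T + 1) = N) : Finset _) :
        Set (Fin (2 * T + 1) → Finset (Fin (∑ t ∈ Finset.range (n + 1), k t)))) := by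
    ext g
    constructor
    · rintro ⟨h1, h2, h3⟩
      have hA : Adm n k g N := by
        refine ⟨hn, h1, ?_⟩
        intro p hp
        have e : 2 * n - 1 - 1 = 2 * n - 2 := by omega
        have hp2 := hp.2
        rw [e] at hp2
        exact h3 p hp.1 hp2
      have hF : Fin' n k (sgm k g n T (∑ t ∈ Finset.range (n + 1), k t)) T := hA.fin' hT
      have harr : arrOf n (site n k) (sgm k g n T (∑ t ∈ Finset.range (n + 1), k t)) = g :=
        hA.arrOf_sgm hT
      have hext : ext (fun t : Fin (2 * T + 1) => sgm k g n T (∑ t ∈ Finset.range (n + 1), k t) t)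
          = sgm k g n T (∑ t ∈ Finset.range (n + 1), k t) := by
        funext t
        unfold ext
        by_cases ht : t < 2 * T + 1
        · rw [dif_pos ht]
        · rw [dif_neg ht, hF.emp t (by omega)]
      have hG : Good n (site n k) (sgm k g n T (∑ t ∈ Finset.range (n + 1), k t)) (2 * T + 1)
          (fun _ => (n : ℤ) + T) ∧
          wt n (site n k) (sgm k g n T (∑ t ∈ Finset.range (n + 1), k t)) (2 * T + 1) = N := by
        refine ⟨⟨hF.val, hF.fin⟩, ?_⟩
        apply hF.wt_of_size (by omega)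
        · intro i c hic
          rw [harr] at hic
          exact (h1 i c hic).2.1
        · rw [harr]
          exact h2
      rw [← hext] at hG harr
      exact ⟨fun t : Fin (2 * T + 1) => sgm k g n T (∑ t ∈ Finset.range (n + 1), k t) t,
        Finset.mem_coe.mpr (Finset.mem_filter.mpr ⟨Finset.mem_univ _, hG⟩), harr⟩
    · rintro ⟨σ, hσ, rfl⟩
      rw [Finset.mem_coe, Finset.mem_filter] at hσ
      obtain ⟨_, hG, hw⟩ := hσ
      have hF := hfin σ hG
      refine ⟨?_, hF.size hw, ?_⟩
      · intro i c hic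
        have := hF.arr_pos_le hic
        rw [hw] at this
        exact this
      · intro p hp1 hp2
        apply hF.adm (p := p)
        refine ⟨hp1, ?_⟩
        have e : 2 * n - 1 - 1 = 2 * n - 2 := by omega
        rw [e]
        exact hp2
  rw [himg, Set.InjOn.ncard_image, Set.ncard_coe_finset]
  intro σ hσ σ' hσ' heq
  rw [Finset.mem_coe, Finset.mem_filter] at hσ hσ'
  have h1 := hfin σ hσ.2.1
  have h2 := hfin σ' hσ'.2.1
  funext t
  have h3 := h1.inj h2 heq t.2
  unfold ext at h3
  rw [dif_pos t.2, dif_pos t.2] at h3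
  exact h3

end Pool.Agent.Lib.Primc
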