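import Pool.Agent.Lib.Primc.ThetaSpan

/-! Module D (theta functions): the Macdonald identity of type C up to a constant. -/

namespace Pool.Agent.Lib.Primc

open Finset

section interpolation

variable {S : Type*} {K : ℕ}

theorem ext_lemma (θ : Fin K → S → ℂ) (w : Fin K → S)
    (hw : Matrix.det (Matrix.of fun i j : Fin K => θ j (w i)) ≠ 0) (H : (Fin K → S) → ℂ)
    (hH : ∀ i z, (fun s => H (Function.update z i s)) ∈ Submodule.span ℂ (Set.range θ))
    (h0 : ∀ ρ : Fin K → Fin K, H (w ∘ ρ) = 0) (z : Fin K → S) : H z = 0 := by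
  have key : ∀ T : Finset (Fin K), ∀ z : Fin K → S, (∀ i, i ∉ T → z i ∈ Set.range w) →
      H z = 0 := by
    intro T
    induction T using Finset.induction_on with
    | empty =>
      intro z hz
      choose ρ hρ using fun i => hz i (notMem_empty i)
      have : z = w ∘ ρ := funext fun i => (hρ i).symm
      rw [this]
      exact h0 ρ
    | insert i T hi ih =>
      intro z hz
      obtain ⟨c, hc⟩ := (Submodule.mem_span_range_iff_exists_fun ℂ).1 (hH i z)
      have hval : ∀ s, H (Function.update z i s) = ∑ j, c j * θ j s := by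
        intro s
        have := congrFun hc s
        simp only [Finset.sum_apply, Pi.smul_apply, smul_eq_mul] at this
        exact this.symm
      have hc0 : c = 0 := by
        apply Matrix.eq_zero_of_mulVec_eq_zero hw
        funext r
        have h1 : H (Function.update z i (w r)) = 0 := by
          apply ih
          intro j hj
          by_cases hji : j = i
          · subst hji
            rw [Function.update_self]
            exact ⟨r, rfl⟩
          · rw [Function.update_of_ne hji]
            exact hz j (by simp [hji, hj])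
        rw [hval] at h1
        rw [Pi.zero_apply, ← h1]
        simp only [Matrix.mulVec, dotProduct, Matrix.of_apply]
        exact sum_congr rfl fun j _ => mul_comm _ _
      have h2 := hval (z i)
      rw [Function.update_eq_self] at h2
      rw [h2, hc0]
      simp
  exact key univ z fun i hi => absurd (mem_univ i) hi

theorem det_update_mem (θ : Fin K → S → ℂ) (z : Fin K → S) (i : Fin K) :
    (fun s => Matrix.det (Matrix.of fun i' j : Fin K => θ j (Function.update z i s i'))) ∈
      Submodule.span ℂ (Set.range θ) := by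
  set A : Matrix (Fin K) (Fin K) ℂ := Matrix.of fun i' j => θ j (z i') with hA
  set L : (Fin K → ℂ) →ₗ[ℂ] ℂ := (Matrix.detRowAlternating (R := ℂ)
    (n := Fin K)).toMultilinearMap.toLinearMap A i with hL
  have h1 : ∀ s, Matrix.det (Matrix.of fun i' j : Fin K => θ j (Function.update z i s i')) =
      L fun j => θ j s := by
    intro s
    rw [hL]
    show _ = Matrix.det (Function.update A i fun j => θ j s)
    congr 1
    ext i' j
    by_cases h : i' = i
    · subst h
      have e := congrFun (Function.update_self i' (fun j => θ j s) (A : Fin K → Fin K → ℂ)) j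
      rw [Matrix.of_apply, Function.update_self]
      exact e.symm
    · have e := congrFun (Function.update_of_ne h (fun j => θ j s) (A : Fin K → Fin K → ℂ)) j
      rw [Matrix.of_apply, Function.update_of_ne h]
      exact e.symm
  rw [Submodule.mem_span_range_iff_exists_fun]
  refine ⟨fun j => L fun j' => if j = j' then 1 else 0, ?_⟩
  funext s
  rw [h1, LinearMap.pi_apply_eq_sum_univ L]
  simp only [Finset.sum_apply, Pi.smul_apply, smul_eq_mul]
  exact sum_congr rfl fun j _ => mul_comm _ _

theorem alt_lemma (θ : Fin K → S → ℂ) (F : (Fin K → S) → ℂ)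
    (hF : ∀ i z, (fun s => F (Function.update z i s)) ∈ Submodule.span ℂ (Set.range θ))
    (hperm : ∀ (σ : Equiv.Perm (Fin K)) z, F (z ∘ σ) = ((σ.sign : ℤ) : ℂ) * F z)
    (z y : Fin K → S) :
    F z * Matrix.det (Matrix.of fun i j : Fin K => θ j (y i)) =
      F y * Matrix.det (Matrix.of fun i j : Fin K => θ j (z i)) := by
  have key : ∀ z y : Fin K → S, Matrix.det (Matrix.of fun i j : Fin K => θ j (y i)) ≠ 0 →
      F z * Matrix.det (Matrix.of fun i j : Fin K => θ j (y i)) =
      F y * Matrix.det (Matrix.of fun i j : Fin K => θ j (z i)) := by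
    intro z y hy
    have := ext_lemma θ y hy (fun z => F z * Matrix.det (Matrix.of fun i j : Fin K => θ j (y i)) -
      F y * Matrix.det (Matrix.of fun i j : Fin K => θ j (z i))) ?_ ?_ z
    · exact sub_eq_zero.1 this
    · intro i z
      have h1 := Submodule.smul_mem _ (Matrix.det (Matrix.of fun i j : Fin K => θ j (y i))) (hF i z)
      have h2 := Submodule.smul_mem _ (F y) (det_update_mem θ z i)
      have h3 := Submodule.sub_mem _ h1 h2
      convert h3 using 1
      funext s
      simp only [Pi.sub_apply, Pi.smul_apply, smul_eq_mul]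
      ring
    · intro ρ
      by_cases hρ : Function.Injective ρ
      · set σ : Equiv.Perm (Fin K) := Equiv.ofBijective ρ
          (Finite.injective_iff_bijective.1 hρ) with hσ
        have h1 : y ∘ ρ = y ∘ σ := rfl
        have h2 := Matrix.det_permute σ (Matrix.of fun i j : Fin K => θ j (y i))
        have h3 : (Matrix.of fun i j : Fin K => θ j (y i)).submatrix σ id =
            Matrix.of fun i j : Fin K => θ j ((y ∘ σ) i) := by
          ext i j
          simp
        rw [h3] at h2
        simp only [h1, hperm σ y]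
        rw [h2]
        ring
      · rw [Function.not_injective_iff] at hρ
        obtain ⟨i, j, hij, hne⟩ := hρ
        have h1 : F (y ∘ ρ) = 0 := by
          have h2 := hperm (Equiv.swap i j) (y ∘ ρ)
          have h3 : (y ∘ ρ) ∘ (Equiv.swap i j) = y ∘ ρ := by
            funext k
            simp only [Function.comp_apply]
            by_cases hki : k = i
            · subst hki
              rw [Equiv.swap_apply_left, hij]
            · by_cases hkj : k = j
              · subst hkj
                rw [Equiv.swap_apply_right, hij]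
              · rw [Equiv.swap_apply_of_ne_of_ne hki hkj]
          rw [h3, Equiv.Perm.sign_swap hne] at h2
          simp only [Units.val_neg, Units.val_one, Int.cast_neg, Int.cast_one, neg_mul,
            one_mul] at h2
          linear_combination (1 / 2 : ℂ) * h2
        have h4 : Matrix.det (Matrix.of fun i j : Fin K => θ j ((y ∘ ρ) i)) = 0 := by
          refine Matrix.det_zero_of_row_eq hne ?_
          funext k
          simp [hij]
        simp only [h1, h4]
        ring
  by_cases hy : Matrix.det (Matrix.of fun i j : Fin K => θ j (y i)) = 0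
  · by_cases hz : Matrix.det (Matrix.of fun i j : Fin K => θ j (z i)) = 0
    · rw [hy, hz, mul_zero, mul_zero]
    · exact (key y z hz).symm
  · exact key z y hy

end interpolation

/-- the factor of `prodC` belonging to one variable -/
noncomputable def fA (p s : ℂ) : ℂ := s⁻¹ * th p (s ^ 2)

/-- the factor of `prodC` belonging to a pair of variables -/
noncomputable def fB (p s w : ℂ) : ℂ := w⁻¹ * th p (s * w) * th p (w / s)

theorem fB_anti (p : ℂ) (hp : ‖p‖ < 1) {s w : ℂ} (hs : s ≠ 0) (hw : w ≠ 0) :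
    fB p s w = -fB p w s := by
  unfold fB
  have h1 : s / w = (w / s)⁻¹ := by rw [inv_div]
  rw [h1, th_inv p hp (div_ne_zero hw hs), mul_comm w s]
  field_simp

theorem isL_fA (p : ℂ) (hp0 : p ≠ 0) (hp : ‖p‖ < 1) : IsL (fA p) := by
  refine ((isL_zpow (-1)).mul (isL_th p hp0 hp).sq).congr fun s _ => ?_
  rw [zpow_neg_one]
  rfl

theorem isL_fB (p : ℂ) (hp0 : p ≠ 0) (hp : ‖p‖ < 1) {w : ℂ} (hw : w ≠ 0) :
    IsL fun s => fB p s w := by
  refine (((isL_const w⁻¹).mul ((isL_th p hp0 hp).scale hw)).mul
    ((isL_th p hp0 hp).scale hw).inv).congr fun s _ => ?_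
  unfold fB
  rw [mul_comm w s, div_eq_mul_inv]

theorem fA_mul_p (p : ℂ) (hp0 : p ≠ 0) (hp : ‖p‖ < 1) {s : ℂ} (hs : s ≠ 0) :
    fA p (p * s) = (p ^ 2)⁻¹ * (s ^ 4)⁻¹ * fA p s := by
  unfold fA
  have h1 : (p * s) ^ 2 = p * (p * s ^ 2) := by ring
  rw [h1, th_mul_p p hp0 hp (mul_ne_zero hp0 (pow_ne_zero 2 hs)),
    th_mul_p p hp0 hp (pow_ne_zero 2 hs)]
  field_simp

theorem fA_inv (p : ℂ) (hp : ‖p‖ < 1) {s : ℂ} (hs : s ≠ 0) : fA p s⁻¹ = -fA p s := by
  unfold fA
  rw [inv_pow, th_inv p hp (pow_ne_zero 2 hs)]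
  field_simp

theorem fB_mul_p (p : ℂ) (hp0 : p ≠ 0) (hp : ‖p‖ < 1) {s w : ℂ} (hs : s ≠ 0) (hw : w ≠ 0) :
    fB p (p * s) w = p⁻¹ * (s ^ 2)⁻¹ * fB p s w := by
  unfold fB
  have h1 : p * s * w = p * (s * w) := by ring
  have h2 : w / s = p * (w / (p * s)) := by field_simp
  rw [h1, th_mul_p p hp0 hp (mul_ne_zero hs hw), h2,
    th_mul_p p hp0 hp (div_ne_zero hw (mul_ne_zero hp0 hs))]
  field_simp

theorem fB_inv (p : ℂ) {s w : ℂ} (hs : s ≠ 0) : fB p s⁻¹ w = fB p s w := by
  unfold fB
  have h1 : s⁻¹ * w = w / s := by field_simp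
  have h2 : w / s⁻¹ = s * w := by field_simp
  rw [h1, h2]
  ring

theorem prodC_eq (p : ℂ) {K : ℕ} (z : Fin K → ℂ) :
    prodC p z = (∏ i, fA p (z i)) * ∏ i, ∏ j ∈ Finset.Ioi i, fB p (z i) (z j) := rfl

theorem prodC_perm (p : ℂ) (hp : ‖p‖ < 1) {K : ℕ} (z : Fin K → PP) (σ : Equiv.Perm (Fin K)) :
    prodC p (fun i => (z (σ i)).1) = ((σ.sign : ℤ) : ℂ) * prodC p (fun i => (z i).1) := by
  rw [prodC_eq, prodC_eq, Equiv.prod_comp σ (fun i => fA p (z i).1),
    σ.prod_Ioi_comp_eq_sign_mul_prod (f := fun i j => fB p (z i).1 (z j).1)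
      (fun i j => fB_anti p hp (z i).2 (z j).2)]
  ring

theorem prodC_mem_zero (p : ℂ) (hp0 : p ≠ 0) (hp : ‖p‖ < 1) {K : ℕ} (z : Fin (K + 1) → PP) :
    (fun s : PP => prodC p (fun i => (Function.update z 0 s i).1)) ∈ VK p (K + 1) := by
  set C : ℂ := (∏ i : Fin K, fA p (z i.succ).1) *
    ∏ i : Fin K, ∏ j ∈ Finset.Ioi i, fB p (z i.succ).1 (z j.succ).1 with hC
  set f : ℂ → ℂ := fun s => C * (fA p s * ∏ j : Fin K, fB p s (z j.succ).1) with hf
  have h1 : (fun s : PP => prodC p (fun i => (Function.update z 0 s i).1)) =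
      fun s : PP => f s.1 := by
    funext s
    rw [prodC_eq, Fin.prod_univ_succ, Fin.prod_univ_succ, Fin.prod_Ioi_zero]
    simp only [Fin.prod_Ioi_succ, Function.update_self,
      Function.update_of_ne (Fin.succ_ne_zero _), hf, hC]
    ring
  rw [h1]
  refine span_lemma p hp0 (K + 1) f ?_ ?_ ?_
  · exact (isL_const C).mul ((isL_fA p hp0 hp).mul
      (isL_prod univ (fun (j : Fin K) s => fB p s (z j.succ).1)
        fun j _ => isL_fB p hp0 hp (z j.succ).2))
  · intro s hs
    simp only [hf]
    rw [fA_mul_p p hp0 hp hs, prod_congr rfl fun j _ => fB_mul_p p hp0 hp hs (z j.succ).2,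
      prod_mul_distrib, prod_const, card_univ, Fintype.card_fin]
    have e1 : p ^ (-(((K + 1 : ℕ) : ℤ) + 1)) = (p ^ 2)⁻¹ * (p⁻¹) ^ K := by
      rw [show -(((K + 1 : ℕ) : ℤ) + 1) = -((K + 2 : ℕ) : ℤ) by push_cast; ring, zpow_neg,
        zpow_natCast, pow_add, mul_inv, inv_pow]
      ring
    have e2 : s ^ (-(2 * (((K + 1 : ℕ) : ℤ) + 1))) = (s ^ 4)⁻¹ * ((s ^ 2)⁻¹) ^ K := by
      rw [show -(2 * (((K + 1 : ℕ) : ℤ) + 1)) = -((2 * K + 4 : ℕ) : ℤ) by push_cast; ring,
        zpow_neg, zpow_natCast, pow_add, mul_inv, inv_pow, pow_mul]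
      ring
    rw [e1, e2, mul_pow]
    ring
  · intro s hs
    simp only [hf]
    rw [fA_inv p hp hs, prod_congr rfl fun j _ => fB_inv p hs]
    ring

theorem prodC_mem (p : ℂ) (hp0 : p ≠ 0) (hp : ‖p‖ < 1) {K : ℕ} (i : Fin K) (z : Fin K → PP) :
    (fun s : PP => prodC p (fun i' => (Function.update z i s i').1)) ∈ VK p K := by
  cases K with
  | zero => exact i.elim0
  | succ K =>
    set τ := Equiv.swap (0 : Fin (K + 1)) i with hτ
    have h1 : (fun s : PP => prodC p (fun i' => (Function.update z i s i').1)) =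
        (((τ.sign : ℤ) : ℂ)) •
          fun s : PP => prodC p (fun i' => (Function.update (z ∘ τ) 0 s i').1) := by
      funext s
      simp only [Pi.smul_apply, smul_eq_mul]
      rw [← prodC_perm p hp (Function.update (z ∘ τ) 0 s) τ]
      congr 1
      funext i'
      congr 1
      have h2 : (Function.update (z ∘ τ) 0 s) ∘ τ = Function.update z i s := by
        rw [Function.update_comp_equiv]
        congr 1
        funext k
        simp [hτ]
      rw [← h2]
      rfl
    rw [h1]
    exact Submodule.smul_mem _ _ (prodC_mem_zero p hp0 hp (z ∘ τ))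

/-- Macdonald identity of type C up to a constant -/
theorem prodC_mul_det (p : ℂ) (hp0 : p ≠ 0) (hp1 : ‖p‖ < 1) (K : ℕ) (z y : Fin K → ℂ)
    (hz : ∀ i, z i ≠ 0) (hy : ∀ i, y i ≠ 0) :
    prodC p z * Matrix.det (Matrix.of fun i j : Fin K => oddTh p K ((j : ℕ) + 1 : ℤ) (y i))
      = prodC p y * Matrix.det (Matrix.of fun i j : Fin K => oddTh p K ((j : ℕ) + 1 : ℤ) (z i)) :=
  alt_lemma (S := PP) (K := K) (fun (j : Fin K) (s : PP) => oddTh p K ((j : ℕ) + 1 : ℤ) s.1)
    (fun z => prodC p fun i => (z i).1)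
    (fun i z => prodC_mem p hp0 hp1 i z) (fun σ z => prodC_perm p hp1 z σ)
    (fun i => ⟨z i, hz i⟩) (fun i => ⟨y i, hy i⟩)

end Pool.Agent.Lib.Primc
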