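import Pool.Agent.Lib.Primc.DualB

/-! # Module E: complement duality of the theta products -/

namespace Pool.Agent.Lib.Primc

open Finset

/-- product over the pairs of a finite set -/
noncomputable def PA (N : ℕ) (q : ℂ) (A : Finset ℕ) : ℂ :=
  ∏ x ∈ A, ∏ y ∈ A.filter (fun y => y < x), gg N q x y

theorem PA_swap (N : ℕ) (q : ℂ) (A B : Finset ℕ) :
    ∏ x ∈ A, ∏ y ∈ B.filter (fun y => x < y), gg N q x y
      = ∏ y ∈ B, ∏ x ∈ A.filter (fun x => x < y), gg N q y x := by
  rw [Finset.prod_comm' (t' := B) (s' := fun y => A.filter (fun x => x < y))]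
  · apply Finset.prod_congr rfl
    intro y _
    apply Finset.prod_congr rfl
    intro x _
    exact gg_comm N q x y
  · intro x y
    simp only [Finset.mem_filter]
    tauto

theorem PA_sq (N : ℕ) (q : ℂ) (A : Finset ℕ) :
    ∏ x ∈ A, ∏ y ∈ A.erase x, gg N q x y = PA N q A ^ 2 := by
  have h1 : ∀ x ∈ A, ∏ y ∈ A.erase x, gg N q x y
      = (∏ y ∈ A.filter (fun y => y < x), gg N q x y) *
        ∏ y ∈ A.filter (fun y => x < y), gg N q x y := by
    intro x _
    rw [← Finset.prod_union]
    · apply Finset.prod_congr _ (fun _ _ => rfl)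
      ext y
      simp only [Finset.mem_erase, Finset.mem_union, Finset.mem_filter]
      constructor
      · rintro ⟨h1, h2⟩
        rcases Nat.lt_or_gt_of_ne h1 with h | h
        · exact Or.inl ⟨h2, h⟩
        · exact Or.inr ⟨h2, h⟩
      · rintro (⟨h1, h2⟩ | ⟨h1, h2⟩)
        · exact ⟨by omega, h1⟩
        · exact ⟨by omega, h1⟩
    · rw [Finset.disjoint_left]
      intro y hy hy'
      rw [Finset.mem_filter] at hy hy'
      omega
  rw [Finset.prod_congr rfl h1, Finset.prod_mul_distrib, PA_swap, sq]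
  rfl

theorem PA_union (N : ℕ) (q : ℂ) {B E : Finset ℕ} (h : Disjoint B E) :
    PA N q (B ∪ E) = PA N q B * PA N q E * ∏ x ∈ B, ∏ y ∈ E, gg N q x y := by
  unfold PA
  rw [Finset.prod_union h]
  have h1 : ∀ x, ∏ y ∈ (B ∪ E).filter (fun y => y < x), gg N q x y
      = (∏ y ∈ B.filter (fun y => y < x), gg N q x y) *
        ∏ y ∈ E.filter (fun y => y < x), gg N q x y := by
    intro x
    rw [Finset.filter_union, Finset.prod_union]
    exact Finset.disjoint_filter_filter h
  simp only [h1]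
  rw [Finset.prod_mul_distrib, Finset.prod_mul_distrib]
  have h2 : ∏ x ∈ E, ∏ y ∈ B.filter (fun y => y < x), gg N q x y
      = ∏ x ∈ B, ∏ y ∈ E.filter (fun y => x < y), gg N q x y := (PA_swap N q B E).symm
  rw [h2]
  have h3 : ∏ x ∈ B, ∏ y ∈ E, gg N q x y
      = (∏ x ∈ B, ∏ y ∈ E.filter (fun y => y < x), gg N q x y) *
        ∏ x ∈ B, ∏ y ∈ E.filter (fun y => x < y), gg N q x y := by
    rw [← Finset.prod_mul_distrib]
    apply Finset.prod_congr rfl
    intro x hx
    rw [← Finset.prod_union]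
    · apply Finset.prod_congr _ (fun _ _ => rfl)
      ext y
      simp only [Finset.mem_union, Finset.mem_filter]
      constructor
      · intro hy
        have hne : x ≠ y := fun he => (Finset.disjoint_left.mp h) hx (he ▸ hy)
        rcases Nat.lt_or_gt_of_ne hne with h | h
        · exact Or.inr ⟨hy, h⟩
        · exact Or.inl ⟨hy, h⟩
      · rintro (⟨h1, _⟩ | ⟨h1, _⟩) <;> exact h1
    · rw [Finset.disjoint_left]
      intro y hy hy'
      rw [Finset.mem_filter] at hy hy'
      omega
  rw [h3]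
  ring

theorem PA_range (N : ℕ) (q : ℂ) :
    PA N q (Finset.range N) = ∏ i ∈ Finset.range N, ∏ j ∈ Finset.range i, gg N q i j := by
  unfold PA
  apply Finset.prod_congr rfl
  intro i hi
  rw [Finset.mem_range] at hi
  apply Finset.prod_congr _ (fun _ _ => rfl)
  ext j
  simp only [Finset.mem_filter, Finset.mem_range]
  omega

theorem PA_image (N : ℕ) (q : ℂ) {K : ℕ} (b : Fin K → ℕ) (hb : StrictMono b) :
    PA N q (Finset.univ.image b) = ∏ i, ∏ j ∈ Finset.Ioi i,
      (thh (2 * N) q (b j - b i) * thh (2 * N) q (b i + b j + 1)) := by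
  unfold PA
  rw [Finset.prod_image (fun _ _ _ _ h => hb.injective h)]
  have h1 : ∀ j : Fin K, ∏ y ∈ (Finset.univ.image b).filter (fun y => y < b j), gg N q (b j) y
      = ∏ i ∈ Finset.Iio j, gg N q (b j) (b i) := by
    intro j
    have : (Finset.univ.image b).filter (fun y => y < b j) = (Finset.Iio j).image b := by
      ext y
      simp only [Finset.mem_filter, Finset.mem_image, Finset.mem_univ, true_and, Finset.mem_Iio]
      constructor
      · rintro ⟨⟨i, rfl⟩, h⟩
        exact ⟨i, hb.lt_iff_lt.mp h, rfl⟩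
      · rintro ⟨i, hi, rfl⟩
        exact ⟨⟨i, rfl⟩, hb hi⟩
    rw [this, Finset.prod_image (fun _ _ _ _ h => hb.injective h)]
  rw [Finset.prod_congr rfl (fun j _ => h1 j)]
  rw [Finset.prod_comm' (t' := Finset.univ) (s' := fun i => Finset.Ioi i)]
  · apply Finset.prod_congr rfl
    intro i _
    apply Finset.prod_congr rfl
    intro j hj
    rw [Finset.mem_Ioi] at hj
    rw [gg_gt N q (hb hj), add_comm (b j) (b i)]
  · intro x y
    simp only [Finset.mem_univ, Finset.mem_Iio, Finset.mem_Ioi, true_and, and_true]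

/-- complement duality of theta products, `M = 2 (n + K)` -/
theorem duality (q : ℂ) (hq1 : ‖q‖ < 1) (n K : ℕ) (hn : 1 ≤ n) (b : Fin K → ℕ) (e : Fin n → ℕ)
    (hb : StrictMono b) (he : StrictMono e) (hbN : ∀ i, b i < n + K) (heN : ∀ i, e i < n + K)
    (hbe : ∀ i j, b i ≠ e j) :
    (qinf (q ^ (2 * (n + K)))) ^ K / (qinf q) ^ K *
      ((∏ i, thh (2 * (n + K)) q (2 * b i + 1)) *
        ∏ i, ∏ j ∈ Finset.Ioi i, (thh (2 * (n + K)) q (b j - b i) *
          thh (2 * (n + K)) q (b i + b j + 1)))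
    = (qinf (q ^ (2 * (n + K)))) ^ n / (qinf (q ^ 2) * (qinf q) ^ (n - 1)) *
        ∏ i, ∏ j ∈ Finset.Ioi i, (thh (2 * (n + K)) q (e j - e i) *
          thh (2 * (n + K)) q (e i + e j + 1)) := by
  set N := n + K with hN
  have hN1 : 1 ≤ N := by omega
  set B : Finset ℕ := Finset.univ.image b with hB
  set E : Finset ℕ := Finset.univ.image e with hE
  have hBc : B.card = K := by
    rw [hB, Finset.card_image_of_injective _ hb.injective, Finset.card_univ, Fintype.card_fin]
  have hEc : E.card = n := by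
    rw [hE, Finset.card_image_of_injective _ he.injective, Finset.card_univ, Fintype.card_fin]
  have hdisj : Disjoint B E := by
    rw [Finset.disjoint_left]
    intro x hx hx'
    rw [hB, Finset.mem_image] at hx
    rw [hE, Finset.mem_image] at hx'
    obtain ⟨i, _, hi⟩ := hx
    obtain ⟨j, _, hj⟩ := hx'
    exact hbe i j (hi.trans hj.symm)
  have hunion : B ∪ E = Finset.range N := by
    apply Finset.eq_of_subset_of_card_le
    · intro x hx
      rw [Finset.mem_union] at hx
      rw [Finset.mem_range]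
      rcases hx with hx | hx
      · rw [hB, Finset.mem_image] at hx
        obtain ⟨i, _, hi⟩ := hx
        rw [← hi]; exact hbN i
      · rw [hE, Finset.mem_image] at hx
        obtain ⟨i, _, hi⟩ := hx
        rw [← hi]; exact heN i
    · rw [Finset.card_range, Finset.card_union_of_disjoint hdisj, hBc, hEc]
      omega
  rw [← PA_image N q b hb, ← PA_image N q e he, ← hB, ← hE]
  have hS : ∏ i, thh (2 * N) q (2 * b i + 1) = ∏ x ∈ B, thh (2 * N) q (2 * x + 1) := by
    rw [hB, Finset.prod_image (fun _ _ _ _ h => hb.injective h)]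
  rw [hS]
  set S := ∏ x ∈ B, thh (2 * N) q (2 * x + 1) with hSdef
  set F := ∏ x ∈ B, ∏ y ∈ E, gg N q x y with hF
  have hstar : S * PA N q B ^ 2 * F = QQ (2 * N) q ^ (2 * K) := by
    rw [← PA_sq N q B, hSdef, hF, ← Finset.prod_mul_distrib, ← Finset.prod_mul_distrib]
    have : ∀ x ∈ B, thh (2 * N) q (2 * x + 1) * (∏ y ∈ B.erase x, gg N q x y) *
        (∏ y ∈ E, gg N q x y) = QQ (2 * N) q ^ 2 := by
      intro x hx
      have hxN : x < N := by
        have : x ∈ Finset.range N := hunion ▸ Finset.mem_union_left E hx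
        exact Finset.mem_range.mp this
      rw [← star hq1 hxN, mul_assoc]
      congr 1
      rw [← Finset.prod_union]
      · apply Finset.prod_congr _ (fun _ _ => rfl)
        rw [← hunion]
        ext y
        simp only [Finset.mem_union, Finset.mem_erase]
        have hxE : x ∉ E := Finset.disjoint_left.mp hdisj hx
        constructor
        · rintro (⟨h1, h2⟩ | h)
          · exact ⟨h1, Or.inl h2⟩
          · exact ⟨fun he => hxE (he ▸ h), Or.inr h⟩
        · rintro ⟨h1, h2 | h2⟩
          · exact Or.inl ⟨h1, h2⟩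
          · exact Or.inr h2
      · exact hdisj.mono_left (Finset.erase_subset _ _)
    rw [Finset.prod_congr rfl this, Finset.prod_const, hBc, ← pow_mul]
  have hall : PA N q B * PA N q E * F * ∏ i ∈ Finset.range N, ph (2 * N) q (2 * i + 1)
      = QQ (2 * N) q ^ N := by
    rw [← pall hq1 N, ← PA_range, ← hunion, PA_union N q hdisj]
  have hodd := prod_odd hq1 hN1
  have hQQ := QQ_mul hq1 (M := 2 * N) (by omega)
  have hO0 : ∏ i ∈ Finset.range N, ph (2 * N) q (2 * i + 1) ≠ 0 := by
    rw [Finset.prod_ne_zero_iff]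
    intro i _
    exact ph_ne_zero hq1 (by omega) (by omega)
  have hQ0 : QQ (2 * N) q ≠ 0 := QQ_ne_zero hq1 (by omega)
  have hqi : qinf q ≠ 0 := qinf_ne_zero hq1
  have hq2 : ‖q ^ 2‖ < 1 := by
    rw [norm_pow]; exact pow_lt_one₀ (norm_nonneg _) hq1 (by norm_num)
  have hqi2 : qinf (q ^ 2) ≠ 0 := qinf_ne_zero hq2
  have hqM : ‖q ^ (2 * N)‖ < 1 := by
    rw [norm_pow]; exact pow_lt_one₀ (norm_nonneg _) hq1 (by omega)
  have hqiM : qinf (q ^ (2 * N)) ≠ 0 := qinf_ne_zero hqM
  set O := ∏ i ∈ Finset.range N, ph (2 * N) q (2 * i + 1) with hO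
  set Q := QQ (2 * N) q with hQ
  set x := qinf q with hx
  set y := qinf (q ^ (2 * N)) with hy
  set z := qinf (q ^ 2) with hz
  set pb := PA N q B with hpb
  set pe := PA N q E with hpe
  have hne : pb * pe * F * O ≠ 0 := by
    rw [hall]; exact pow_ne_zero _ hQ0
  have hF0 : F ≠ 0 := fun h => hne (by rw [h]; ring)
  have hpb0 : pb ≠ 0 := fun h => hne (by rw [h]; ring)
  have hpe0 : pe ≠ 0 := fun h => hne (by rw [h]; ring)
  -- S * pb = Q ^ (2 K) / (pb * F)
  obtain ⟨m, rfl⟩ : ∃ m, n = m + 1 := ⟨n - 1, by omega⟩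
  rw [Nat.add_sub_cancel]
  rw [div_mul_eq_mul_div, div_mul_eq_mul_div, div_eq_div_iff (pow_ne_zero _ hqi)
    (mul_ne_zero hqi2 (pow_ne_zero _ hqi))]
  -- multiply by pb * F * O
  have hk : pb * F * O ≠ 0 := mul_ne_zero (mul_ne_zero hpb0 hF0) hO0
  apply mul_right_cancel₀ hk
  have e1 : y ^ K * (S * pb) * (z * x ^ m) * (pb * F * O)
      = (S * pb ^ 2 * F) * (O * z) * (y ^ K * x ^ m) := by ring
  have e2 : y ^ (m + 1) * pe * x ^ K * (pb * F * O)
      = (pb * pe * F * O) * (y ^ (m + 1) * x ^ K) := by ring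
  rw [e1, e2, hstar, hall, hodd, ← hQQ]
  have hNe : N = m + 1 + K := hN
  rw [hNe]
  ring

end Pool.Agent.Lib.Primc
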