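import Pool.Agent.Lib.Primc.One
import Pool.Agent.Lib.Primc.TargetD
import Pool.Agent.Lib.Primc.TargetE

/-! # Assembly -/

namespace Pool.Agent.Lib.Primc

open Finset Filter Topology

theorem th_eq_thh {q : ℂ} (hq : q ≠ 0) (M x : ℕ) (hx : x ≤ M) :
    th (q ^ M) (q ^ x) = thh M q x := by
  unfold th thh
  apply tprod_congr
  intro r
  have h1 : (q ^ M) ^ r * q ^ x = q ^ (x + M * r) := by
    rw [← pow_mul, ← pow_add]; congr 1; ring
  have h2 : (q ^ M) ^ (r + 1) / q ^ x = q ^ (M - x + M * r) := by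
    rw [div_eq_iff (pow_ne_zero _ hq), ← pow_mul, ← pow_add]
    congr 1
    have : M - x + x = M := Nat.sub_add_cancel hx
    calc M * (r + 1) = M * r + M := by ring
      _ = M * r + (M - x + x) := by rw [this]
      _ = _ := by ring
  rw [h1, h2]

/-- the theta arguments -/
noncomputable def zz (s : ℂ) {K : ℕ} (b : Fin K → ℕ) : Fin K → ℂ := fun i => s ^ (2 * b i + 1)

/-- product side with natural exponents -/
noncomputable def PT (q : ℂ) (M : ℕ) {K : ℕ} (b : Fin K → ℕ) : ℂ :=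
  (∏ i, thh M q (2 * b i + 1)) *
    ∏ i, ∏ j ∈ Finset.Ioi i, (thh M q (b j - b i) * thh M q (b i + b j + 1))

/-- normalising power -/
noncomputable def sc (s : ℂ) {K : ℕ} (b : Fin K → ℕ) : ℂ :=
  ∏ j : Fin K, s ^ (((j : ℕ) + 1) * (2 * b j + 1))

theorem sc_ne_zero {s : ℂ} (hs : s ≠ 0) {K : ℕ} (b : Fin K → ℕ) : sc s b ≠ 0 :=
  Finset.prod_ne_zero_iff.mpr (fun _ _ => pow_ne_zero _ hs)

theorem prod_Ioi_const {K : ℕ} (f : Fin K → ℂ) :
    ∏ i, ∏ j ∈ Finset.Ioi i, f j = ∏ j : Fin K, f j ^ (j : ℕ) := by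
  rw [Finset.prod_comm' (t' := Finset.univ) (s' := fun j => Finset.Iio j)]
  · apply Finset.prod_congr rfl
    intro j _
    rw [Finset.prod_const, Fin.card_Iio]
  · intro i j
    simp

theorem sc_mul_prodC {s : ℂ} (hs : s ≠ 0) {K N : ℕ} (b : Fin K → ℕ) (hb : StrictMono b)
    (hbN : ∀ i, b i < N) :
    sc s b * prodC (s ^ (4 * N)) (zz s b) = PT (s ^ 2) (2 * N) b := by
  have hq : s ^ 2 ≠ 0 := pow_ne_zero _ hs
  have hp : s ^ (4 * N) = (s ^ 2) ^ (2 * N) := by rw [← pow_mul]; congr 1; ring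
  unfold prodC PT
  have h1 : ∀ i, (zz s b i)⁻¹ * th (s ^ (4 * N)) (zz s b i ^ 2)
      = (zz s b i)⁻¹ * thh (2 * N) (s ^ 2) (2 * b i + 1) := by
    intro i
    congr 1
    rw [hp, ← th_eq_thh hq (2 * N) (2 * b i + 1) (by have := hbN i; omega)]
    congr 1
    unfold zz
    rw [← pow_mul, ← pow_mul]; congr 1; ring
  have h2 : ∀ i, ∀ j ∈ Finset.Ioi i, (zz s b j)⁻¹ * th (s ^ (4 * N)) (zz s b i * zz s b j) *
      th (s ^ (4 * N)) (zz s b j / zz s b i)
      = (zz s b j)⁻¹ * (thh (2 * N) (s ^ 2) (b j - b i) * thh (2 * N) (s ^ 2) (b i + b j + 1)) := by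
    intro i j hj
    have hij : b i < b j := hb (Finset.mem_Ioi.mp hj)
    have e1 : zz s b i * zz s b j = (s ^ 2) ^ (b i + b j + 1) := by
      unfold zz
      rw [← pow_add, ← pow_mul]; congr 1; ring
    have e2 : zz s b j / zz s b i = (s ^ 2) ^ (b j - b i) := by
      unfold zz
      rw [div_eq_iff (pow_ne_zero _ hs), ← pow_mul, ← pow_add]
      congr 1; omega
    rw [hp, e1, e2, th_eq_thh hq _ _ (by have := hbN i; have := hbN j; omega),
      th_eq_thh hq _ _ (by have := hbN j; omega)]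
    ring
  rw [Finset.prod_congr rfl (fun i _ => h1 i),
    Finset.prod_congr rfl (fun i _ => Finset.prod_congr rfl (fun j hj => h2 i j hj))]
  simp only [Finset.prod_mul_distrib]
  rw [prod_Ioi_const (fun j => (zz s b j)⁻¹)]
  have h3 : sc s b * ((∏ i, (zz s b i)⁻¹) * ∏ j : Fin K, (zz s b j)⁻¹ ^ (j : ℕ)) = 1 := by
    unfold sc
    rw [← Finset.prod_mul_distrib, ← Finset.prod_mul_distrib]
    apply Finset.prod_eq_one
    intro j _
    rw [← pow_succ' (zz s b j)⁻¹ (j : ℕ)]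
    unfold zz
    rw [inv_pow, ← pow_mul, mul_comm ((j : ℕ) + 1) (2 * b j + 1)]
    exact mul_inv_cancel₀ (pow_ne_zero _ hs)
  linear_combination ((∏ i, thh (2 * N) (s ^ 2) (2 * b i + 1)) *
    ((∏ i, ∏ j ∈ Finset.Ioi i, thh (2 * N) (s ^ 2) (b j - b i)) *
      ∏ i, ∏ j ∈ Finset.Ioi i, thh (2 * N) (s ^ 2) (b i + b j + 1))) * h3

theorem ZZ_eq_det {s : ℂ} (hs0 : s ≠ 0) (hs1 : ‖s‖ < 1) {K n : ℕ} (hn : 1 ≤ n) (a : Fin K → ℤ)
    (b : Fin K → ℕ) (hb : ∀ i, bpos a i = (b i : ℤ)) :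
    ZZ (s ^ 2) n a = (qinf (s ^ 2) ^ K)⁻¹ * (sc s b *
      Matrix.det (Matrix.of fun i j : Fin K =>
        oddTh (s ^ (4 * (n + K))) K ((j : ℕ) + 1 : ℤ) (zz s b i))) := by
  unfold ZZ
  set p := s ^ (4 * (n + K)) with hp
  set A : Matrix (Fin K) (Fin K) ℂ := Matrix.of fun i j : Fin K =>
    oddTh p K ((j : ℕ) + 1 : ℤ) (zz s b i) with hA
  have h1 : (Matrix.of fun j i : Fin K =>
      ThS (s ^ 2) K (n + K) (bpos a i) ((j : ℤ) + 1) / qinf (s ^ 2))
      = Matrix.of fun j i : Fin K => (s ^ ((j : ℕ) + 1) * (qinf (s ^ 2))⁻¹) * A.transpose j i := by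
    ext j i
    simp only [Matrix.of_apply, Matrix.transpose_apply, hA]
    rw [ThS_eq_oddTh hs0 hs1 K (by omega) (bpos a i) ((j : ℤ) + 1), hb i]
    have e1 : s ^ (2 * (b i : ℤ) + 1) = zz s b i := by
      unfold zz
      rw [← zpow_natCast]; push_cast; rfl
    have e2 : s ^ ((j : ℤ) + 1) = s ^ ((j : ℕ) + 1) := by
      rw [← zpow_natCast]; push_cast; rfl
    rw [e1, e2]
    ring
  rw [h1, Matrix.det_mul_column, Matrix.det_transpose, Finset.prod_mul_distrib, Finset.prod_const,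
    Finset.card_univ, Fintype.card_fin, inv_pow]
  have h2 : (∏ j : Fin K, (s ^ 2) ^ (((j : ℤ) + 1) * bpos a j)) * ∏ j : Fin K, s ^ ((j : ℕ) + 1)
      = sc s b := by
    unfold sc
    rw [← Finset.prod_mul_distrib]
    apply Finset.prod_congr rfl
    intro j _
    rw [hb j]
    have e3 : (s ^ 2) ^ (((j : ℤ) + 1) * (b j : ℤ)) = s ^ (2 * (((j : ℕ) + 1) * b j)) := by
      have : ((j : ℤ) + 1) * (b j : ℤ) = ((((j : ℕ) + 1) * b j : ℕ) : ℤ) := by push_cast; rfl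
      rw [this, zpow_natCast, ← pow_mul]
    rw [e3, ← pow_add]
    congr 1; ring
  rw [← h2]
  ring

/-- the Macdonald identity of type C with its constant, at one point -/
theorem det_special {p : ℂ} (hp0 : p ≠ 0) (hp1 : ‖p‖ < 1) (K : ℕ) :
    ∃ y : Fin K → ℂ, (∀ i, y i ≠ 0) ∧ prodC p y ≠ 0 ∧
      Matrix.det (Matrix.of fun i j : Fin K => oddTh p K ((j : ℕ) + 1 : ℤ) (y i))
        = qinf p ^ K * prodC p y := by
  obtain ⟨s, hs⟩ := IsAlgClosed.exists_pow_nat_eq p (n := 4 * (1 + K)) (by omega)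
  have hs0 : s ≠ 0 := by
    intro h
    rw [h, zero_pow (by omega)] at hs
    exact hp0 hs.symm
  have hs1 : ‖s‖ < 1 := by
    by_contra hcon
    push Not at hcon
    have : 1 ≤ ‖p‖ := by
      rw [← hs, norm_pow]; exact one_le_pow₀ hcon
    linarith
  have hq1 : ‖s ^ 2‖ < 1 := by
    rw [norm_pow]; exact pow_lt_one₀ (norm_nonneg _) hs1 (by norm_num)
  have hq0 : s ^ 2 ≠ 0 := pow_ne_zero _ hs0
  set b : Fin K → ℕ := fun i => (i : ℕ) with hb
  have hbm : StrictMono b := fun i j h => h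
  have hbN : ∀ i, b i < 1 + K := fun i => by have := i.2; simp only [hb]; omega
  have h1 := ZZ_one hq0 hq1 K
  have h2 := ZZ_eq_det hs0 hs1 (n := 1) le_rfl (fun _ : Fin K => (0 : ℤ)) b
    (fun i => by simp [bpos, hb])
  have h3 := sc_mul_prodC hs0 b hbm hbN
  have h4 := duality (s ^ 2) hq1 1 K le_rfl b (fun _ => K) hbm
    (fun i j h => absurd h (by have := i.2; have := j.2; have h5 : (i : ℕ) < j := h; omega))
    hbN (fun _ => by omega) (fun i _ => by have := i.2; simp only [hb]; omega)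
  have hpp : (s ^ 2) ^ (2 * (1 + K)) = p := by
    rw [← pow_mul, ← hs]; congr 1; ring
  rw [hpp] at h4 h1
  have h5 : (∏ i : Fin 1, ∏ j ∈ Finset.Ioi i, (thh (2 * (1 + K)) (s ^ 2) (K - K) *
      thh (2 * (1 + K)) (s ^ 2) (K + K + 1))) = 1 := by
    apply Finset.prod_eq_one
    intro i _
    have : Finset.Ioi i = ∅ := by
      ext j
      simp only [Finset.mem_Ioi, Finset.notMem_empty, iff_false]
      intro h
      have := i.2; have := j.2; have h5 : (i : ℕ) < j := h; omega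
    rw [this, Finset.prod_empty]
  have hQ := qinf_ne_zero hq1
  have hP := qinf_ne_zero hp1
  have hQ2 : qinf ((s ^ 2) ^ 2) ≠ 0 := by
    apply qinf_ne_zero
    rw [norm_pow]; exact pow_lt_one₀ (norm_nonneg _) hq1 (by norm_num)
  rw [h5, pow_one, Nat.sub_self, pow_zero, mul_one, mul_one] at h4
  have h4' : qinf p ^ K / qinf (s ^ 2) ^ K * PT (s ^ 2) (2 * (1 + K)) b
      = qinf p / qinf ((s ^ 2) ^ 2) := h4
  rw [hs] at h2 h3
  have hsc := sc_ne_zero hs0 b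
  refine ⟨zz s b, fun i => pow_ne_zero _ hs0, ?_, ?_⟩
  · intro h0
    rw [h0, mul_zero] at h3
    rw [← h3, mul_zero] at h4'
    exact (div_ne_zero hP hQ2) h4'.symm
  · have h6 : (qinf (s ^ 2) ^ K)⁻¹ * (sc s b *
      Matrix.det (Matrix.of fun i j : Fin K => oddTh p K ((j : ℕ) + 1 : ℤ) (zz s b i)))
      = qinf p ^ K / qinf (s ^ 2) ^ K * (sc s b * prodC p (zz s b)) := by
      rw [← h2, h1, h3, h4']
    have hQK : qinf (s ^ 2) ^ K ≠ 0 := pow_ne_zero _ hQ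
    have h7 : sc s b * Matrix.det (Matrix.of fun i j : Fin K =>
        oddTh p K ((j : ℕ) + 1 : ℤ) (zz s b i)) = sc s b * (qinf p ^ K * prodC p (zz s b)) := by
      have h8 : qinf (s ^ 2) ^ K * ((qinf (s ^ 2) ^ K)⁻¹ * (sc s b *
          Matrix.det (Matrix.of fun i j : Fin K => oddTh p K ((j : ℕ) + 1 : ℤ) (zz s b i))))
          = qinf (s ^ 2) ^ K * (qinf p ^ K / qinf (s ^ 2) ^ K * (sc s b * prodC p (zz s b))) := by
        rw [h6]
      rw [mul_inv_cancel_left₀ hQK] at h8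
      rw [h8]
      field_simp
    exact mul_left_cancel₀ hsc h7

/-- the Macdonald identity of type C -/
theorem macdonaldC {p : ℂ} (hp0 : p ≠ 0) (hp1 : ‖p‖ < 1) (K : ℕ) (z : Fin K → ℂ)
    (hz : ∀ i, z i ≠ 0) :
    Matrix.det (Matrix.of fun i j : Fin K => oddTh p K ((j : ℕ) + 1 : ℤ) (z i))
      = qinf p ^ K * prodC p z := by
  obtain ⟨y, hy0, hy1, hy2⟩ := det_special hp0 hp1 K
  have h := prodC_mul_det p hp0 hp1 K z y hz hy0
  rw [hy2] at h
  apply mul_left_cancel₀ hy1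
  linear_combination -h

/-- the value of the series as an infinite product -/
theorem ZZ_product {q : ℂ} (hq0 : q ≠ 0) (hq1 : ‖q‖ < 1) {K n : ℕ} (hn : 1 ≤ n) (a : Fin K → ℤ)
    (b : Fin K → ℕ) (hb : ∀ i, bpos a i = (b i : ℤ)) (hbm : StrictMono b)
    (hbN : ∀ i, b i < n + K) (e : Fin n → ℕ) (he : StrictMono e) (heN : ∀ i, e i < n + K)
    (hbe : ∀ i j, b i ≠ e j) :
    ZZ q n a = (qinf (q ^ (2 * (n + K)))) ^ n / (qinf (q ^ 2) * (qinf q) ^ (n - 1)) *
        ∏ i, ∏ j ∈ Finset.Ioi i, (thh (2 * (n + K)) q (e j - e i) *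
          thh (2 * (n + K)) q (e i + e j + 1)) := by
  obtain ⟨s, hs⟩ := IsAlgClosed.exists_pow_nat_eq q (n := 2) (by norm_num)
  have hs0 : s ≠ 0 := by
    intro h
    rw [h, zero_pow (by norm_num)] at hs
    exact hq0 hs.symm
  have hs1 : ‖s‖ < 1 := by
    by_contra hcon
    push Not at hcon
    have : 1 ≤ ‖q‖ := by
      rw [← hs, norm_pow]; exact one_le_pow₀ hcon
    linarith
  have hp0 : s ^ (4 * (n + K)) ≠ 0 := pow_ne_zero _ hs0
  have hp1 : ‖s ^ (4 * (n + K))‖ < 1 := by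
    rw [norm_pow]; exact pow_lt_one₀ (norm_nonneg _) hs1 (by omega)
  have h1 := ZZ_eq_det hs0 hs1 hn a b hb
  rw [macdonaldC hp0 hp1 K (zz s b) (fun i => pow_ne_zero _ hs0)] at h1
  have h3 := sc_mul_prodC hs0 b hbm hbN
  have hpp : s ^ (4 * (n + K)) = q ^ (2 * (n + K)) := by
    rw [← hs, ← pow_mul]; congr 1; ring
  rw [hs] at h1 h3
  rw [← duality q hq1 n K hn b e hbm he hbN heN hbe]
  have h4 : ZZ q n a = qinf (s ^ (4 * (n + K))) ^ K / qinf q ^ K *
      (sc s b * prodC (s ^ (4 * (n + K))) (zz s b)) := by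
    rw [h1]; ring
  rw [h4, h3, hpp]
  rfl

end Pool.Agent.Lib.Primc
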