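import Pool.Agent.Lib.Primc.BijWt

/-! # From admissible arrays to families of walkers -/

namespace Pool.Agent.Lib.Primc

open Finset

/-- last passage numbers -/
def LL (k : ℕ → ℕ) (g : ℕ → ℕ → ℕ) : ℕ → ℕ → ℕ
  | 0, _ => 0
  | c + 1, 0 => SS k ((c + 2) / 2)
  | c + 1, t + 1 => g (t + 1) (c + 1) + max (LL k g c t) (LL k g c (t + 2))

/-- admissible arrays -/
structure Adm (n : ℕ) (k : ℕ → ℕ) (g : ℕ → ℕ → ℕ) (N : ℕ) : Prop where
  hn : 1 ≤ n
  supp : ∀ i c, g i c ≠ 0 → 1 ≤ i ∧ i ≤ N ∧ 1 ≤ c ∧ c ≤ 2*n-1 ∧ Odd (c+i)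
  path : ∀ p, Pre (2 * n - 1) p → ∑ c ∈ Finset.Icc 1 (2 * n - 1), ph1 n k g c (p c) ≤ SS k (n + 1)

variable {n : ℕ} {k : ℕ → ℕ} {g : ℕ → ℕ → ℕ} {N : ℕ}

theorem LL_up (c t : ℕ) : LL k g c t ≤ LL k g (c + 1) (t + 1) := by
  rw [LL]
  exact (le_max_left _ _).trans (Nat.le_add_left _ _)

theorem LL_down (c t : ℕ) : LL k g c (t + 2) ≤ LL k g (c + 1) (t + 1) := by
  rw [LL]
  exact (le_max_right _ _).trans (Nat.le_add_left _ _)

/-- every value is attained -/
theorem LL_attained (hn : 1 ≤ n) : ∀ c, c + 1 ≤ 2 * n - 1 → ∀ t, Odd (c + 1 + t) →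
    ∃ p : ℕ → ℤ, Pre (c + 1) p ∧ p (c + 1) = (t : ℤ) ∧
      ∑ c' ∈ Finset.Icc 1 (c + 1), ph0 n k g c' (p c') = LL k g (c + 1) t := by
  intro c
  induction c using Nat.strong_induction_on with
  | _ c ih =>
    intro hc t hodd
    rcases Nat.eq_zero_or_pos c with h0 | h0
    · subst h0
      refine ⟨fun _ => (t : ℤ), ⟨?_, ?_⟩, rfl, ?_⟩
      · intro c' hc'
        rw [Finset.mem_Icc] at hc'
        have : c' = 1 := by omega
        subst this
        obtain ⟨w, hw⟩ := hodd
        beta_reduce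
        exact ⟨by omega, ⟨(w : ℤ), by omega⟩⟩
      · intro r hr
        rw [Finset.mem_Icc] at hr
        omega
      · simp only [zero_add, Finset.Icc_self, Finset.sum_singleton]
        rcases Nat.eq_zero_or_pos t with ht | ht
        · subst ht
          simp [ph0, LL, SS]
        · obtain ⟨s, rfl⟩ : ∃ s, t = s + 1 := ⟨t - 1, by omega⟩
          rw [LL]
          unfold ph0
          rw [if_pos (by push_cast; omega), Int.toNat_natCast]
          simp [LL]
    · rcases Nat.eq_zero_or_pos t with ht | ht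
      · subst ht
        obtain ⟨w, hw⟩ := hodd
        have hw1 : 1 ≤ w := by omega
        obtain ⟨p, hp1, hp2, hp3⟩ := ih (c - 2) (by omega) (by omega) 0 ⟨w - 1, by omega⟩
        have hc1 : c - 2 + 1 = c - 1 := by omega
        rw [hc1] at hp1 hp2 hp3
        have he1 := Pre.extend hp1 (by omega) (t := -1) (le_refl _)
          ⟨(w : ℤ) - 1, by
            have : ((c - 1 + 1 : ℕ) : ℤ) = c := by omega
            rw [this]; omega⟩ (by rw [hp2]; norm_num)
        have hc2 : c - 1 + 1 = c := by omega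
        rw [hc2] at he1
        have he2 := Pre.extend he1 (by omega) (t := 0) (by norm_num)
          ⟨(w : ℤ), by push_cast; omega⟩ (by rw [Function.update_self]; norm_num)
        refine ⟨_, he2, Function.update_self _ _ _, ?_⟩
        rw [sum_extend (ph0 n k g)]
        have h1 := sum_extend (ph0 n k g) (c - 1) p (-1)
        rw [hc2] at h1
        rw [h1, hp3]
        have h2 : ph0 n k g c (-1) = k (c / 2) := by
          unfold ph0
          rw [if_neg (by norm_num), if_neg (by norm_num), if_pos ⟨⟨w, by omega⟩, by omega, by omega⟩]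
        have h3 : ph0 n k g (c + 1) 0 = 0 := by
          unfold ph0
          rw [if_neg (by norm_num), if_pos rfl, if_neg (by omega)]
        rw [h2, h3, add_zero, LL]
        obtain ⟨c', rfl⟩ : ∃ c', c = c' + 2 := ⟨c - 2, by omega⟩
        have h4 : c' + 2 - 1 = c' + 1 := by omega
        rw [h4, LL]
        have h5 : (c' + 2) / 2 = c' / 2 + 1 := by omega
        have h6 : (c' + 2 + 2) / 2 = c' / 2 + 1 + 1 := by omega
        rw [h5, h6, SS_succ k (c' / 2 + 1)]
      · obtain ⟨s, rfl⟩ : ∃ s, t = s + 1 := ⟨t - 1, by omega⟩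
        obtain ⟨c', rfl⟩ : ∃ c', c = c' + 1 := ⟨c - 1, by omega⟩
        obtain ⟨w, hw⟩ := hodd
        have hval : ∃ t', (t' = s ∨ t' = s + 2) ∧
            LL k g (c' + 1) t' = max (LL k g (c' + 1) s) (LL k g (c' + 1) (s + 2)) := by
          rcases le_total (LL k g (c' + 1) s) (LL k g (c' + 1) (s + 2)) with h1 | h1
          · exact ⟨s + 2, Or.inr rfl, (max_eq_right h1).symm⟩
          · exact ⟨s, Or.inl rfl, (max_eq_left h1).symm⟩
        obtain ⟨t', ht', hmax⟩ := hval
        obtain ⟨p, hp1, hp2, hp3⟩ := ih c' (by omega) (by omega) t'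
          (by rcases ht' with h1 | h1
              · exact ⟨w - 1, by omega⟩
              · exact ⟨w, by omega⟩)
        have he1 := Pre.extend hp1 (by omega) (t := ((s + 1 : ℕ) : ℤ)) (by omega)
          ⟨(w : ℤ), by push_cast; omega⟩ (by
            rw [hp2]
            rcases ht' with h1 | h1
            · rw [h1]; push_cast; norm_num
            · rw [h1]; push_cast
              have : (s : ℤ) + 2 - (s + 1) = 1 := by ring
              rw [this]; norm_num)
        refine ⟨_, he1, Function.update_self _ _ _, ?_⟩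
        have hL : LL k g (c' + 1 + 1) (s + 1) = g (s + 1) (c' + 1 + 1)
            + max (LL k g (c' + 1) s) (LL k g (c' + 1) (s + 2)) := rfl
        rw [sum_extend (ph0 n k g), hp3, hmax, hL]
        have h2 : ph0 n k g (c' + 1 + 1) ((s + 1 : ℕ) : ℤ) = g (s + 1) (c' + 1 + 1) := by
          unfold ph0
          rw [if_pos (by push_cast; omega), Int.toNat_natCast]
        rw [h2]
        omega

/-- every initial segment has weight at most `K` -/
theorem Adm.initseg_le (h : Adm n k g N) : ∀ m c, c + 1 + m = 2 * n - 1 → ∀ p, Pre (c + 1) p →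
    ∑ c' ∈ Finset.Icc 1 (c + 1), ph0 n k g c' (p c') ≤ SS k (n + 1) := by
  intro m
  induction m with
  | zero =>
    intro c hc p hp
    have h1 := h.path p (by rw [← hc]; exact hp)
    rw [← hc] at h1
    simp only [ph1_eq, Finset.sum_add_distrib, add_zero] at h1
    omega
  | succ m ih =>
    intro c hc p hp
    have hlast := hp.1 (c + 1) (by rw [Finset.mem_Icc]; omega)
    have he := Pre.extend hp (by omega) (t := p (c + 1) + 1) (by omega) (by
      obtain ⟨w, hw⟩ := hlast.2
      exact ⟨w + 1, by push_cast at hw ⊢; linarith⟩) (by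
        have : p (c + 1) - (p (c + 1) + 1) = -1 := by ring
        rw [this]; norm_num)
    have h1 := ih (c + 1) (by omega) _ he
    rw [sum_extend (ph0 n k g)] at h1
    omega

/-- initial segments ending at the bottom -/
theorem Adm.bottom (h : Adm n k g N) : ∀ m c, 2 * c + 1 + 2 * m = 2 * n - 1 → ∀ p,
    Pre (2 * c + 1) p → p (2 * c + 1) = 0 →
    ∑ c' ∈ Finset.Icc 1 (2 * c + 1), ph0 n k g c' (p c') ≤ SS k (c + 1) := by
  have hn := h.hn
  intro m
  induction m with
  | zero =>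
    intro c hc p hp hp0
    have h1 := h.path p (by rw [← hc]; exact hp)
    rw [← hc] at h1
    simp only [ph1_eq, Finset.sum_add_distrib, mul_zero, add_zero] at h1
    have h2 : k n ≤ ∑ x ∈ Icc 1 (2 * c + 1), if p x = 0 ∧ x = 2 * n - 1 then k n else 0 := by
      have h3 := Finset.single_le_sum (f := fun x => if p x = 0 ∧ x = 2 * n - 1 then k n else 0)
        (fun _ _ => Nat.zero_le _) (show 2 * c + 1 ∈ Icc 1 (2 * c + 1) by
          rw [Finset.mem_Icc]; omega)
      beta_reduce at h3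
      rw [if_pos ⟨hp0, by omega⟩] at h3
      exact h3
    have h5 : n = c + 1 := by omega
    rw [SS_succ k n] at h1
    rw [← h5]
    omega
  | succ m ih =>
    intro c hc p hp hp0
    have he := Pre.extend hp (by omega) (t := -1) (le_refl _) ⟨(c : ℤ), by push_cast; ring⟩
      (by rw [hp0]; norm_num)
    have he2 := Pre.extend he (by omega) (t := 0) (by norm_num) ⟨(c : ℤ) + 1, by push_cast; ring⟩
      (by rw [Function.update_self]; norm_num)
    have h1 := ih (c + 1) (by omega) _ he2 (Function.update_self _ _ _)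
    have h2 : 2 * (c + 1) + 1 = 2 * c + 1 + 1 + 1 := by ring
    rw [h2, sum_extend (ph0 n k g), sum_extend (ph0 n k g)] at h1
    have h3 : ph0 n k g (2 * c + 1 + 1) (-1) = k (c + 1) := by
      unfold ph0
      rw [if_neg (by norm_num), if_neg (by norm_num),
        if_pos ⟨⟨c + 1, by omega⟩, by omega, by omega⟩]
      congr 1
      omega
    rw [h3, SS_succ k (c + 1)] at h1
    omega

theorem Adm.LL_le (h : Adm n k g N) {c t : ℕ} (hc : c ≤ 2 * n - 1) (hodd : Odd (c + t)) :
    LL k g c t ≤ SS k (n + 1) := by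
  rcases Nat.eq_zero_or_pos c with h0 | h0
  · rw [h0, LL]; exact Nat.zero_le _
  · obtain ⟨c', rfl⟩ : ∃ c', c = c' + 1 := ⟨c - 1, by omega⟩
    obtain ⟨p, hp1, _, hp3⟩ := LL_attained (k := k) (g := g) h.hn c' hc t hodd
    rw [← hp3]
    exact h.initseg_le (2 * n - 1 - (c' + 1)) c' (by omega) p hp1

theorem Adm.LL_bot (h : Adm n k g N) {i : ℕ} (hi : 2 * i + 1 ≤ 2 * n - 1) :
    LL k g (2 * i) 1 ≤ SS k (i + 1) := by
  rcases Nat.eq_zero_or_pos i with h0 | h0
  · rw [h0, mul_zero, LL]; exact Nat.zero_le _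
  · obtain ⟨c', hc'⟩ : ∃ c', 2 * i = c' + 1 := ⟨2 * i - 1, by omega⟩
    rw [hc']
    obtain ⟨p, hp1, hp2, hp3⟩ := LL_attained (k := k) (g := g) h.hn c' (by omega) 1
      ⟨i, by omega⟩
    rw [← hp3]
    rw [← hc'] at hp1 hp2 ⊢
    have he := Pre.extend hp1 (by omega) (t := 0) (by norm_num) ⟨(i : ℤ), by push_cast; ring⟩
      (by rw [hp2]; norm_num)
    have h1 := h.bottom (n - 1 - i) i (by omega) _ he (Function.update_self _ _ _)
    rw [sum_extend (ph0 n k g)] at h1
    omega

/-- monotonicity in all four directions -/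
theorem Adm.LL_down' (h : Adm n k g N) {c t : ℕ} (hc : c + 1 ≤ 2 * n - 1) (hodd : Odd (c + 1 + t)) :
    LL k g c (t + 1) ≤ LL k g (c + 1) t := by
  rcases Nat.eq_zero_or_pos t with h0 | h0
  · subst h0
    obtain ⟨w, hw⟩ := hodd
    have hc' : c = 2 * w := by omega
    rw [hc', LL]
    have := h.LL_bot (i := w) (by omega)
    have h2 : (2 * w + 2) / 2 = w + 1 := by omega
    rw [h2]
    exact this
  · obtain ⟨s, rfl⟩ : ∃ s, t = s + 1 := ⟨t - 1, by omega⟩
    exact LL_down c s

theorem Adm.LL_two (h : Adm n k g N) {c t : ℕ} (hc : c + 2 ≤ 2 * n - 1) (hodd : Odd (c + t)) :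
    LL k g c t ≤ LL k g (c + 2) t :=
  (LL_up c t).trans (h.LL_down' (c := c + 1) (by omega)
    (by obtain ⟨w, hw⟩ := hodd; exact ⟨w + 1, by omega⟩))

theorem Adm.LL_mono (h : Adm n k g N) {c t : ℕ} (m : ℕ) (hc : c + 2 * m ≤ 2 * n - 1)
    (hodd : Odd (c + t)) : LL k g c t ≤ LL k g (c + 2 * m) t := by
  induction m with
  | zero => exact le_refl _
  | succ m ih =>
    refine (ih (by omega)).trans ?_
    have := h.LL_two (c := c + 2 * m) (t := t) (by omega)
      (by obtain ⟨w, hw⟩ := hodd; exact ⟨w + m, by omega⟩)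
    have h2 : c + 2 * (m + 1) = c + 2 * m + 2 := by ring
    rw [h2]
    exact this

theorem Adm.LL_zero (h : Adm n k g N) : ∀ c t, N + c ≤ t → LL k g c t = 0 := by
  intro c
  induction c with
  | zero => intro t _; rw [LL]
  | succ c ih =>
    intro t ht
    obtain ⟨s, rfl⟩ : ∃ s, t = s + 1 := ⟨t - 1, by omega⟩
    rw [LL, ih s (by omega), ih (s + 2) (by omega)]
    have : g (s + 1) (c + 1) = 0 := by
      by_contra hcon
      have := (h.supp _ _ hcon).2.1
      omega
    rw [this]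
    simp

/-! ### the walkers -/

theorem UU_exists (k : ℕ → ℕ) (g : ℕ → ℕ → ℕ) (n t j : ℕ) :
    ∃ x, t ≤ 2 * x ∧ (2 * x + 1 ≤ 2 * n - 1 + t → j < LL k g (2 * x + 1 - t) t) :=
  ⟨n + t, by omega, fun h => by omega⟩

/-- position of the walker `j` at time `t` -/
noncomputable def UU (k : ℕ → ℕ) (g : ℕ → ℕ → ℕ) (n t j : ℕ) : ℕ := Nat.find (UU_exists k g n t j)

theorem UU_spec (k : ℕ → ℕ) (g : ℕ → ℕ → ℕ) (n t j : ℕ) :
    t ≤ 2 * UU k g n t j ∧ (2 * UU k g n t j + 1 ≤ 2 * n - 1 + t →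
      j < LL k g (2 * UU k g n t j + 1 - t) t) := Nat.find_spec (UU_exists k g n t j)

theorem UU_le (k : ℕ → ℕ) (g : ℕ → ℕ → ℕ) (n t j : ℕ) {x : ℕ} (h1 : t ≤ 2 * x)
    (h2 : 2 * x + 1 ≤ 2 * n - 1 + t → j < LL k g (2 * x + 1 - t) t) : UU k g n t j ≤ x :=
  Nat.find_min' _ ⟨h1, h2⟩

theorem UU_upper (hn : 1 ≤ n) (t j : ℕ) : 2 * UU k g n t j ≤ 2 * n + t := by
  have := UU_le k g n t j (x := n + t / 2) (by omega) (fun h => by omega)
  omega

theorem UU_mono (t : ℕ) {j j' : ℕ} (h : j ≤ j') : UU k g n t j ≤ UU k g n t j' := by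
  have hs := UU_spec k g n t j'
  exact UU_le k g n t j hs.1 (fun h1 => lt_of_le_of_lt h (hs.2 h1))

theorem Adm.UU_iff (h : Adm n k g N) {c t : ℕ} (j : ℕ) (hc1 : 1 ≤ c) (hc : c ≤ 2 * n - 1)
    (hodd : Odd (c + t)) : 2 * UU k g n t j + 1 ≤ c + t ↔ j < LL k g c t := by
  obtain ⟨w, hw⟩ := hodd
  constructor
  · intro h1
    have hs := UU_spec k g n t j
    have h2 := hs.2 (by omega)
    refine lt_of_lt_of_le h2 ?_
    have h3 := h.LL_mono (c := 2 * UU k g n t j + 1 - t) (t := t) (w - UU k g n t j) (by omega)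
      ⟨UU k g n t j, by omega⟩
    have h4 : 2 * UU k g n t j + 1 - t + 2 * (w - UU k g n t j) = c := by omega
    rw [h4] at h3
    exact h3
  · intro h1
    have h2 := UU_le k g n t j (x := w) (by omega) (fun _ => by
      have : 2 * w + 1 - t = c := by omega
      rw [this]; exact h1)
    omega

theorem Adm.UU_step_le (h : Adm n k g N) (t j : ℕ) :
    UU k g n (t + 1) j ≤ UU k g n t j + 1 := by
  have hn := h.hn
  have hs := UU_spec k g n t j
  apply UU_le
  · omega
  · intro h1
    have h2 := hs.2 (by omega)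
    have h3 : 2 * (UU k g n t j + 1) + 1 - (t + 1) = 2 * UU k g n t j + 1 - t + 1 := by omega
    rw [h3]
    exact lt_of_lt_of_le h2 (LL_up _ _)

theorem Adm.UU_le_step (h : Adm n k g N) (t j : ℕ) :
    UU k g n t j ≤ UU k g n (t + 1) j := by
  have hn := h.hn
  have hs := UU_spec k g n (t + 1) j
  apply UU_le
  · omega
  · intro h1
    have h2 := hs.2 (by omega)
    have h3 := h.LL_down' (c := 2 * UU k g n (t + 1) j + 1 - (t + 1)) (t := t) (by omega)
      ⟨UU k g n (t + 1) j, by omega⟩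
    have h4 : 2 * UU k g n (t + 1) j + 1 - (t + 1) + 1 = 2 * UU k g n (t + 1) j + 1 - t := by omega
    rw [h4] at h3
    exact lt_of_lt_of_le h2 h3

theorem UU_zero (hn : 1 ≤ n) {K : ℕ} (j : Fin K) : ((UU k g n 0 j : ℕ) : ℤ) = site n k j := by
  obtain ⟨s, hs⟩ : ∃ s : ℕ, site n k j = (s : ℤ) := ⟨_, rfl⟩
  have hsn : s ≤ n := by
    have := site_le (n := n) (k := k) j
    rw [hs] at this
    exact_mod_cast this
  rw [hs]
  have h1 : UU k g n 0 j ≤ s := by
    apply UU_le
    · omega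
    · intro h2
      have h3 : 2 * s + 1 - 0 = (2 * s) + 1 := by omega
      rw [h3, LL]
      have h4 : (2 * s + 2) / 2 = s + 1 := by omega
      rw [h4, ← site_lt_iff (n := n) j (by omega), hs]
      push_cast
      omega
  have h2 : s ≤ UU k g n 0 j := by
    by_contra hcon
    push Not at hcon
    have h3 := (UU_spec k g n 0 j).2 (by omega)
    have h5 : 2 * UU k g n 0 j + 1 - 0 = 2 * UU k g n 0 j + 1 := by omega
    rw [h5, LL] at h3
    have h4 : (2 * UU k g n 0 j + 2) / 2 = UU k g n 0 j + 1 := by omega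
    rw [h4, ← site_lt_iff (n := n) j (by omega), hs] at h3
    push_cast at h3
    omega
  have : UU k g n 0 j = s := le_antisymm h1 h2
  rw [this]

theorem Adm.UU_last (h : Adm n k g N) {T : ℕ} (hT : N + 2 * n ≤ 2 * T + 1) (j : ℕ) :
    UU k g n (2 * T + 1) j = n + T := by
  have hn := h.hn
  have h1 := UU_upper (k := k) (g := g) hn (2 * T + 1) j
  by_contra hcon
  have h2 := (UU_spec k g n (2 * T + 1) j).2 (by omega)
  rw [h.LL_zero _ _ (by omega)] at h2
  omega

/-- the family of an array -/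
noncomputable def sgm (k : ℕ → ℕ) (g : ℕ → ℕ → ℕ) (n T K : ℕ) (t : ℕ) : Finset (Fin K) :=
  if t < 2 * T + 1 then univ.filter (fun j : Fin K => UU k g n (t + 1) j = UU k g n t j + 1) else ∅

theorem Adm.posn_sgm (h : Adm n k g N) {T K : ℕ} :
    ∀ t, t ≤ 2 * T + 1 → ∀ j : Fin K, posn (site n k) (sgm k g n T K) t j = UU k g n t j := by
  intro t
  induction t with
  | zero => intro _ j; rw [posn_zero, UU_zero h.hn]
  | succ t ih =>
    intro ht j
    rw [posn_succ, ih (by omega) j]
    have h1 := h.UU_step_le t j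
    have h2 := h.UU_le_step t j
    have hmem : j ∈ sgm k g n T K t ↔ UU k g n (t + 1) j = UU k g n t j + 1 := by
      unfold sgm
      rw [if_pos (by omega : t < 2 * T + 1)]
      simp only [Finset.mem_filter, Finset.mem_univ, true_and]
    by_cases h3 : UU k g n (t + 1) j = UU k g n t j + 1
    · rw [if_pos (hmem.mpr h3), h3]; push_cast; ring
    · have : UU k g n (t + 1) j = UU k g n t j := by omega
      rw [if_neg (fun hh => h3 (hmem.mp hh)), this]; ring

theorem Adm.fin' (h : Adm n k g N) {T : ℕ} (hT : N + 2 * n ≤ 2 * T + 1) :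
    Fin' n k (sgm k g n T (SS k (n + 1))) T where
  hn := h.hn
  hK := rfl
  val := by
    intro t ht
    refine ⟨fun i j hij => ?_, fun j => ?_⟩
    · rw [h.posn_sgm t ht, h.posn_sgm t ht]
      exact_mod_cast UU_mono t (by omega)
    · rw [h.posn_sgm t ht]
      have h1 := UU_upper (k := k) (g := g) h.hn t j
      have h2 := (UU_spec k g n t j).1
      constructor <;> [exact_mod_cast h2; exact_mod_cast h1]
  fin := by
    funext j
    rw [h.posn_sgm _ (le_refl _), h.UU_last hT]
    push_cast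
    ring
  emp := by
    intro t ht
    unfold sgm
    rw [if_neg (by omega)]

theorem Adm.Lam_eq (h : Adm n k g N) {T : ℕ} {t c : ℕ} (ht : t ≤ 2 * T + 1)
    (hc : c ≤ 2 * n - 1) (hodd : Odd (c + t)) (hT : N + 2 * n ≤ 2 * T + 1) :
    Lam (site n k) (sgm k g n T (SS k (n + 1))) t c = LL k g c t := by
  rcases Nat.eq_zero_or_pos c with h0 | h0
  · subst h0
    rw [(h.fin' hT).Lam_col0 ht, LL]
  · unfold Lam
    rw [← card_lt (K := SS k (n + 1)) (m := LL k g c t) (h.LL_le hc hodd)]
    congr 1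
    ext j
    simp only [Finset.mem_filter, Finset.mem_univ, true_and]
    rw [h.posn_sgm t ht, ← h.UU_iff j h0 hc hodd]
    constructor
    · intro h1; exact_mod_cast h1
    · intro h1; exact_mod_cast h1

theorem Adm.arrOf_sgm (h : Adm n k g N) {T : ℕ} (hT : N + 2 * n ≤ 2 * T + 1) :
    arrOf n (site n k) (sgm k g n T (SS k (n + 1))) = g := by
  have hn := h.hn
  have hF := h.fin' hT
  funext i c
  by_cases hic : 1 ≤ i ∧ 1 ≤ c ∧ c ≤ 2 * n - 1 ∧ Odd (c + i)
  · rcases lt_or_ge i (2 * T + 1) with hiT | hiT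
    · unfold arrOf
      rw [if_pos hic]
      obtain ⟨h1, h2, h3, h4⟩ := hic
      have hrec := Lam_rec (site n k) (sgm k g n T (SS k (n + 1))) h1 h2 h4
        (hF.val (i - 1) (by omega)).mono (hF.val (i + 1) (by omega)).mono
      obtain ⟨w, hw⟩ := h4
      rw [h.Lam_eq (by omega) h3 ⟨w, hw⟩ hT,
        h.Lam_eq (by omega) (by omega) ⟨w - 1, by omega⟩ hT,
        h.Lam_eq (by omega) (by omega) ⟨w, by omega⟩ hT] at hrec
      obtain ⟨i', rfl⟩ : ∃ i', i = i' + 1 := ⟨i - 1, by omega⟩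
      obtain ⟨c', rfl⟩ : ∃ c', c = c' + 1 := ⟨c - 1, by omega⟩
      rw [LL] at hrec
      simp only [Nat.add_sub_cancel] at hrec
      have e : i' + 1 + 1 = i' + 2 := by ring
      rw [e] at hrec
      omega
    · rw [hF.arr_zero hiT]
      by_contra hcon
      have := (h.supp i c (fun h0 => hcon h0.symm)).2.1
      omega
  · unfold arrOf
    rw [if_neg hic]
    by_contra hcon
    have := h.supp i c (fun h0 => hcon h0.symm)
    exact hic ⟨this.1, this.2.2.1, this.2.2.2.1, this.2.2.2.2⟩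

end Pool.Agent.Lib.Primc
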