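import Pool.Agent.Lib.Primc.Fam

/-! # Basic counting for families of walkers -/

namespace Pool.Agent.Lib.Primc

open Finset

/-- partial sums of the levels -/
def SS (k : ℕ → ℕ) (c : ℕ) : ℕ := ∑ t ∈ Finset.range c, k t

theorem SS_succ (k : ℕ → ℕ) (c : ℕ) : SS k (c + 1) = SS k c + k c := Finset.sum_range_succ _ _

theorem SS_mono (k : ℕ → ℕ) {c d : ℕ} (h : c ≤ d) : SS k c ≤ SS k d := by
  unfold SS
  exact Finset.sum_le_sum_of_subset (Finset.range_mono h)

theorem site_lt_iff {n : ℕ} {k : ℕ → ℕ} {K : ℕ} (j : Fin K) {c : ℕ} (hc : c ≤ n) :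
    site n k j < (c : ℤ) ↔ (j : ℕ) < SS k c := by
  unfold site
  rw [Nat.cast_lt]
  constructor
  · intro h
    by_contra hcon
    push Not at hcon
    have hsub : Finset.range c ⊆ (Finset.range n).filter
        (fun c => ∑ t ∈ Finset.range (c + 1), k t ≤ (j : ℕ)) := by
      intro x hx
      rw [Finset.mem_range] at hx
      rw [Finset.mem_filter, Finset.mem_range]
      refine ⟨by omega, ?_⟩
      exact (SS_mono k (by omega : x + 1 ≤ c)).trans hcon
    have := Finset.card_le_card hsub
    rw [Finset.card_range] at this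
    omega
  · intro h
    have hc1 : 1 ≤ c := by
      rcases Nat.eq_zero_or_pos c with h0 | h0
      · rw [h0] at h; simp [SS] at h
      · exact h0
    have hsub : (Finset.range n).filter
        (fun c => ∑ t ∈ Finset.range (c + 1), k t ≤ (j : ℕ)) ⊆ Finset.range (c - 1) := by
      intro x hx
      rw [Finset.mem_filter, Finset.mem_range] at hx
      rw [Finset.mem_range]
      by_contra hcon
      have h1 : c ≤ x + 1 := by omega
      have h2 := SS_mono k h1
      have h3 : SS k (x + 1) ≤ (j : ℕ) := hx.2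
      omega
    have := Finset.card_le_card hsub
    rw [Finset.card_range] at this
    omega

theorem site_nonneg {n : ℕ} {k : ℕ → ℕ} {K : ℕ} (j : Fin K) : 0 ≤ site n k j := by
  unfold site; positivity

theorem site_le {n : ℕ} {k : ℕ → ℕ} {K : ℕ} (j : Fin K) : site n k j ≤ n := by
  unfold site
  have := Finset.card_filter_le (Finset.range n)
    (fun c => ∑ t ∈ Finset.range (c + 1), k t ≤ (j : ℕ))
  rw [Finset.card_range] at this
  exact_mod_cast this

theorem card_lt {K m : ℕ} (h : m ≤ K) :
    (Finset.univ.filter (fun j : Fin K => (j : ℕ) < m)).card = m := by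
  rw [Fin.card_filter_val_lt]
  omega

section fam

variable {K : ℕ} (a : Fin K → ℤ) (σ : ℕ → Finset (Fin K))

theorem posn_succ (t : ℕ) (j : Fin K) :
    posn a σ (t + 1) j = posn a σ t j + (if j ∈ σ t then 1 else 0) := by
  unfold posn
  rw [Finset.sum_range_succ]
  ring

theorem posn_zero (j : Fin K) : posn a σ 0 j = a j := by
  unfold posn
  simp

/-- number of walkers weakly to the left of column `c` at time `t` -/
def Lam (t c : ℕ) : ℕ := (univ.filter fun j : Fin K => 2 * posn a σ t j + 1 ≤ ((c + t : ℕ) : ℤ)).card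

/-- corners at time `t` in column `c` -/
def crn (t c : ℕ) : ℕ := (univ.filter fun j : Fin K =>
  j ∉ σ (t - 1) ∧ j ∈ σ t ∧ 2 * posn a σ t j + 1 = ((c + t : ℕ) : ℤ)).card

theorem Lam_le (t c : ℕ) : Lam a σ t c ≤ K := by
  unfold Lam
  refine (Finset.card_filter_le _ _).trans ?_
  simp

theorem union_card_of_total {S S' : Finset (Fin K)}
    (h : S ⊆ S' ∨ S' ⊆ S) : (S ∪ S').card = max S.card S'.card := by
  rcases h with h | h
  · rw [Finset.union_eq_right.mpr h, max_eq_right (Finset.card_le_card h)]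
  · rw [Finset.union_eq_left.mpr h, max_eq_left (Finset.card_le_card h)]

theorem total_of_lower {S S' : Finset (Fin K)} (h : ∀ i j : Fin K, i ≤ j → j ∈ S → i ∈ S)
    (h' : ∀ i j : Fin K, i ≤ j → j ∈ S' → i ∈ S') : S ⊆ S' ∨ S' ⊆ S := by
  by_contra hcon
  push Not at hcon
  obtain ⟨h1, h2⟩ := hcon
  rw [Finset.not_subset] at h1 h2
  obtain ⟨x, hx, hx'⟩ := h1
  obtain ⟨y, hy, hy'⟩ := h2
  rcases le_total x y with hxy | hxy
  · exact hx' (h' x y hxy hy)
  · exact hy' (h y x hxy hx)

/-- the key recursion -/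
theorem Lam_rec {t c : ℕ} (ht : 1 ≤ t) (hc : 1 ≤ c) (hodd : Odd (c + t))
    (hm : Monotone (posn a σ (t - 1))) (hp : Monotone (posn a σ (t + 1))) :
    Lam a σ t c = crn a σ t c + max (Lam a σ (t - 1) (c - 1)) (Lam a σ (t + 1) (c - 1)) := by
  have hstep1 : ∀ j, posn a σ t j = posn a σ (t - 1) j + (if j ∈ σ (t - 1) then 1 else 0) := by
    intro j
    have := posn_succ a σ (t - 1) j
    rwa [Nat.sub_add_cancel ht] at this
  have hstep2 : ∀ j, posn a σ (t + 1) j = posn a σ t j + (if j ∈ σ t then 1 else 0) :=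
    fun j => posn_succ a σ t j
  unfold Lam crn
  have hc1 : (((c - 1) + (t - 1) : ℕ) : ℤ) = ((c + t : ℕ) : ℤ) - 2 := by
    push_cast [Nat.cast_sub ht, Nat.cast_sub hc]; ring
  have hc2 : (((c - 1) + (t + 1) : ℕ) : ℤ) = ((c + t : ℕ) : ℤ) := by
    push_cast [Nat.cast_sub hc]; ring
  rw [hc1, hc2]
  obtain ⟨w, hw⟩ := hodd
  rw [hw]
  rw [← union_card_of_total (total_of_lower ?_ ?_)]
  · rw [← Finset.card_union_of_disjoint]
    · congr 1
      ext j
      simp only [Finset.mem_filter, Finset.mem_univ, true_and, Finset.mem_union]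
      have h1 := hstep1 j
      have h2 := hstep2 j
      rw [h2]
      by_cases hj1 : j ∈ σ (t - 1) <;> by_cases hj2 : j ∈ σ t <;> simp only [hj1, hj2, if_true, if_false] at h1 ⊢ <;> push_cast <;> constructor <;> intro h <;> simp only [true_and, false_and, not_true_eq_false, not_false_eq_true, false_or] at * <;> omega
    · rw [Finset.disjoint_left]
      intro j hj hj'
      simp only [Finset.mem_filter, Finset.mem_univ, true_and, Finset.mem_union] at hj hj'
      have h1 := hstep1 j
      have h2 := hstep2 j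
      rw [h2] at hj'
      obtain ⟨hj1, hj2, hj3⟩ := hj
      simp only [hj1, hj2, if_true, if_false] at h1 hj'
      push_cast at *
      omega
  · intro i j hij hj
    simp only [Finset.mem_filter, Finset.mem_univ, true_and] at hj ⊢
    have := hm hij
    omega
  · intro i j hij hj
    simp only [Finset.mem_filter, Finset.mem_univ, true_and] at hj ⊢
    have := hp hij
    omega

end fam

end Pool.Agent.Lib.Primc
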