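import Pool.Agent.Lib.Primc.BijBasic

/-! # From families of walkers to admissible arrays -/

namespace Pool.Agent.Lib.Primc

open Finset

/-- the weight of the cell `(t, c)`, without the contribution of `k n` -/
def ph0 (n : ℕ) (k : ℕ → ℕ) (g : ℕ → ℕ → ℕ) (c : ℕ) (t : ℤ) : ℕ :=
  if 1 ≤ t then g t.toNat c
  else if t = 0 then (if c = 1 then k 0 else 0)
  else if Even c ∧ 2 ≤ c ∧ c ≤ 2 * n - 2 then k (c / 2) else 0

/-- the weight of the cell `(t, c)` as in the frozen statement -/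
def ph1 (n : ℕ) (k : ℕ → ℕ) (g : ℕ → ℕ → ℕ) (c : ℕ) (t : ℤ) : ℕ :=
  if 1 ≤ t then g t.toNat c
  else if t = 0 then (if c = 1 then k 0 else 0) + (if c = 2 * n - 1 then k n else 0)
  else if Even c ∧ 2 ≤ c ∧ c ≤ 2 * n - 2 then k (c / 2) else 0

theorem ph1_eq (n : ℕ) (k : ℕ → ℕ) (g : ℕ → ℕ → ℕ) (c : ℕ) (t : ℤ) :
    ph1 n k g c t = ph0 n k g c t + (if t = 0 ∧ c = 2 * n - 1 then k n else 0) := by
  unfold ph1 ph0
  by_cases h1 : 1 ≤ t
  · have : ¬ (t = 0 ∧ c = 2 * n - 1) := by omega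
    simp [h1, this]
  · by_cases h0 : t = 0
    · simp [h0]
    · have : ¬ (t = 0 ∧ c = 2 * n - 1) := by omega
      simp [h1, h0]

/-- valid initial path segments -/
def Pre (c : ℕ) (p : ℕ → ℤ) : Prop :=
  (∀ c' ∈ Finset.Icc 1 c, -1 ≤ p c' ∧ Odd (p c' + (c' : ℤ))) ∧
    (∀ r ∈ Finset.Icc 1 (c - 1), |p r - p (r + 1)| = 1)

theorem Pre.mono {c d : ℕ} {p : ℕ → ℤ} (h : Pre c p) (hd : d ≤ c) : Pre d p := by
  refine ⟨fun c' hc' => h.1 c' ?_, fun r hr => h.2 r ?_⟩
  · rw [Finset.mem_Icc] at hc' ⊢; omega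
  · rw [Finset.mem_Icc] at hr ⊢; omega

theorem Pre.extend {c : ℕ} {p : ℕ → ℤ} (h : Pre c p) (hc : 1 ≤ c) {t : ℤ} (ht : -1 ≤ t)
    (hodd : Odd (t + ((c + 1 : ℕ) : ℤ))) (habs : |p c - t| = 1) :
    Pre (c + 1) (Function.update p (c + 1) t) := by
  constructor
  · intro c' hc'
    rw [Finset.mem_Icc] at hc'
    by_cases h1 : c' = c + 1
    · rw [h1, Function.update_self]
      exact ⟨ht, hodd⟩
    · rw [Function.update_of_ne h1]
      exact h.1 c' (by rw [Finset.mem_Icc]; omega)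
  · intro r hr
    rw [Finset.mem_Icc] at hr
    by_cases h1 : r = c
    · rw [h1, Function.update_self, Function.update_of_ne (by omega)]
      exact habs
    · rw [Function.update_of_ne (by omega), Function.update_of_ne (by omega)]
      exact h.2 r (by rw [Finset.mem_Icc]; omega)

theorem sum_extend (f : ℕ → ℤ → ℕ) (c : ℕ) (p : ℕ → ℤ) (t : ℤ) :
    ∑ c' ∈ Finset.Icc 1 (c + 1), f c' (Function.update p (c + 1) t c')
      = ∑ c' ∈ Finset.Icc 1 c, f c' (p c') + f (c + 1) t := by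
  rw [Finset.sum_Icc_succ_top (by omega), Function.update_self]
  congr 1
  apply Finset.sum_congr rfl
  intro c' hc'
  rw [Finset.mem_Icc] at hc'
  rw [Function.update_of_ne (by omega)]

section fam

variable {K : ℕ} {n : ℕ} {k : ℕ → ℕ} {σ : ℕ → Finset (Fin K)}

/-- the array of a family -/
def arrOf (n : ℕ) {K : ℕ} (a : Fin K → ℤ) (σ : ℕ → Finset (Fin K)) (i c : ℕ) : ℕ :=
  if 1 ≤ i ∧ 1 ≤ c ∧ c ≤ 2 * n - 1 ∧ Odd (c + i) then crn a σ i c else 0

/-- bound for the initial sums -/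
def Bd (k : ℕ → ℕ) {K : ℕ} (a : Fin K → ℤ) (σ : ℕ → Finset (Fin K)) (T' : ℕ) (c : ℕ) (t : ℤ) : ℕ :=
  if t < 0 then SS k (c / 2 + 1) else if t.toNat ≤ T' then Lam a σ t.toNat c else 0

theorem Lam_zero (hK : K = SS k (n + 1)) {m : ℕ} (hm : m + 1 ≤ n) :
    Lam (site n k) σ 0 (2 * m + 1) = SS k (m + 1) := by
  unfold Lam
  rw [← card_lt (K := K) (m := SS k (m + 1)) (by rw [hK]; exact SS_mono k (by omega))]
  congr 1
  ext j
  simp only [Finset.mem_filter, Finset.mem_univ, true_and, posn_zero]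
  rw [← site_lt_iff j hm]
  push_cast
  omega

theorem crn_of_empty (a : Fin K → ℤ) {i : ℕ} (h : σ i = ∅) (c : ℕ) : crn a σ i c = 0 := by
  unfold crn
  rw [Finset.card_eq_zero, Finset.filter_eq_empty_iff]
  intro j _ hj
  rw [h] at hj
  simp at hj

/-- hypotheses on a finished family -/
structure Fin' (n : ℕ) (k : ℕ → ℕ) {K : ℕ} (σ : ℕ → Finset (Fin K)) (T : ℕ) : Prop where
  hn : 1 ≤ n
  hK : K = SS k (n + 1)
  val : ∀ t ≤ 2 * T + 1, Valid n t (posn (site n k) σ t)
  fin : posn (site n k) σ (2 * T + 1) = fun _ => (n : ℤ) + T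
  emp : ∀ t, 2 * T + 1 ≤ t → σ t = ∅

variable {T : ℕ}

theorem Fin'.Lam_last (h : Fin' n k σ T) {c : ℕ} (hc : c + 1 ≤ 2 * n) :
    Lam (site n k) σ (2 * T + 1) c = 0 := by
  unfold Lam
  rw [Finset.card_eq_zero, Finset.filter_eq_empty_iff]
  intro j _ hj
  rw [h.fin] at hj
  push_cast at hj
  omega

theorem Fin'.Lam_prelast (h : Fin' n k σ T) {c : ℕ} (hc : c + 2 ≤ 2 * n) :
    Lam (site n k) σ (2 * T) c = 0 := by
  unfold Lam
  rw [Finset.card_eq_zero, Finset.filter_eq_empty_iff]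
  intro j _ hj
  have h1 := posn_succ (site n k) σ (2 * T) j
  rw [h.fin] at h1
  split_ifs at h1 <;> push_cast at * <;> omega

theorem Fin'.Lam_col0 (h : Fin' n k σ T) {t : ℕ} (ht : t ≤ 2 * T + 1) :
    Lam (site n k) σ t 0 = 0 := by
  unfold Lam
  rw [Finset.card_eq_zero, Finset.filter_eq_empty_iff]
  intro j _ hj
  have := ((h.val t ht).2 j).1
  push_cast at hj
  omega

theorem Fin'.step_bound (h : Fin' n k σ T) {c : ℕ} (hc : 1 ≤ c) (hc2 : c + 1 ≤ 2 * n - 1)
    {t t' : ℤ} (ht : -1 ≤ t) (ht' : -1 ≤ t') (hodd : Odd (t + ((c + 1 : ℕ) : ℤ)))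
    (habs : |t' - t| = 1) :
    ph0 n k (arrOf n (site n k) σ) (c + 1) t + Bd k (site n k) σ (2 * T + 1) c t'
      ≤ Bd k (site n k) σ (2 * T + 1) (c + 1) t := by
  have hn := h.hn
  have ht'2 : t' = t + 1 ∨ t' = t - 1 := by
    rcases abs_eq (by norm_num : (0:ℤ) ≤ 1) |>.mp habs with h1 | h1 <;> omega
  rcases lt_trichotomy t 0 with h0 | h0 | h0
  · -- t = -1
    have ht1 : t = -1 := by omega
    have ht'0 : t' = 0 := by omega
    subst ht1 ht'0
    obtain ⟨w, hw⟩ := hodd
    have hm : ∃ m, c + 1 = 2 * (m + 1) := ⟨w.toNat, by push_cast at hw; omega⟩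
    obtain ⟨m, hm⟩ := hm
    unfold ph0 Bd
    rw [if_neg (by norm_num), if_neg (by norm_num), if_pos ⟨⟨m + 1, by omega⟩, by omega, by omega⟩,
      if_neg (by norm_num), if_pos (by simp), if_pos (by norm_num)]
    have h1 : c = 2 * m + 1 := by omega
    rw [Int.toNat_zero, h1, Lam_zero h.hK (by omega)]
    have h2 : (2 * m + 1 + 1) / 2 = m + 1 := by omega
    rw [h2, SS_succ k (m + 1)]
    omega
  · subst h0
    obtain ⟨w, hw⟩ := hodd
    have hm : ∃ m, c + 1 = 2 * m + 1 ∧ 1 ≤ m := ⟨w.toNat, by push_cast at hw; omega⟩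
    obtain ⟨m, hm, hm1⟩ := hm
    have hB : Bd k (site n k) σ (2 * T + 1) (c + 1) 0 = SS k (m + 1) := by
      unfold Bd
      rw [if_neg (by norm_num), if_pos (by simp), Int.toNat_zero, hm, Lam_zero h.hK (by omega)]
    have hP : ph0 n k (arrOf n (site n k) σ) (c + 1) 0 = 0 := by
      unfold ph0
      rw [if_neg (by norm_num), if_pos rfl, if_neg (by omega)]
    rw [hP, zero_add]
    rcases ht'2 with h1 | h1
    · rw [h1]
      unfold Bd
      rw [if_neg (by norm_num), if_pos (by simp), if_neg (by norm_num), if_pos (by simp)]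
      apply Finset.card_le_card
      intro j hj
      simp only [Finset.mem_filter, Finset.mem_univ, true_and] at hj ⊢
      have h2 := posn_succ (site n k) σ 0 j
      simp only [zero_add, Int.toNat_one, Int.toNat_zero] at *
      rw [h2] at hj
      split_ifs at hj <;> push_cast at * <;> omega
    · rw [h1, hB]
      unfold Bd
      rw [if_pos (by norm_num)]
      have : c / 2 + 1 = m + 1 := by omega
      rw [this]
  · -- t ≥ 1
    obtain ⟨s, rfl⟩ : ∃ s : ℕ, t = (s : ℤ) := ⟨t.toNat, by omega⟩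
    have hs : 1 ≤ s := by omega
    have hodd' : Odd (c + 1 + s) := by
      obtain ⟨w, hw⟩ := hodd
      exact ⟨w.toNat, by push_cast at hw; omega⟩
    have hP : ph0 n k (arrOf n (site n k) σ) (c + 1) (s : ℤ)
        = crn (site n k) σ s (c + 1) := by
      unfold ph0 arrOf
      rw [if_pos (by omega), Int.toNat_natCast, if_pos ⟨hs, by omega, by omega, hodd'⟩]
    rw [hP]
    rcases lt_or_ge s (2 * T + 1) with hsT | hsT
    · have hrec := Lam_rec (site n k) σ hs (by omega : 1 ≤ c + 1) hodd'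
        (h.val (s - 1) (by omega)).mono (h.val (s + 1) (by omega)).mono
      have hB : Bd k (site n k) σ (2 * T + 1) (c + 1) (s : ℤ) = Lam (site n k) σ s (c + 1) := by
        unfold Bd
        rw [if_neg (by omega), Int.toNat_natCast, if_pos (by omega)]
      rw [hB, hrec, Nat.add_sub_cancel]
      apply Nat.add_le_add_left
      rcases ht'2 with h1 | h1
      · have h2 : t' = ((s + 1 : ℕ) : ℤ) := by push_cast; omega
        rw [h2]
        unfold Bd
        rw [if_neg (by omega), Int.toNat_natCast, if_pos (by omega)]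
        exact le_max_right _ _
      · have h2 : t' = ((s - 1 : ℕ) : ℤ) := by push_cast [Nat.cast_sub hs]; omega
        rw [h2]
        unfold Bd
        rw [if_neg (by omega), Int.toNat_natCast, if_pos (by omega)]
        exact le_max_left _ _
    · rw [crn_of_empty _ (h.emp s hsT), zero_add]
      have hz : Bd k (site n k) σ (2 * T + 1) c t' = 0 := by
        obtain ⟨s', rfl⟩ : ∃ s' : ℕ, t' = (s' : ℤ) := ⟨t'.toNat, by omega⟩
        unfold Bd
        rw [if_neg (by omega), Int.toNat_natCast]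
        split_ifs with h3
        · rcases Nat.lt_or_ge s' (2 * T + 1) with h4 | h4
          · have : s' = 2 * T := by omega
            rw [this]
            exact h.Lam_prelast (by omega)
          · have : s' = 2 * T + 1 := by omega
            rw [this]
            exact h.Lam_last (by omega)
        · rfl
      rw [hz]
      exact Nat.zero_le _

theorem Fin'.base_bound (h : Fin' n k σ T) {t : ℤ} (ht : -1 ≤ t) (hodd : Odd (t + ((1 : ℕ) : ℤ))) :
    ph0 n k (arrOf n (site n k) σ) 1 t ≤ Bd k (site n k) σ (2 * T + 1) 1 t := by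
  have hn := h.hn
  have ht0 : 0 ≤ t := by
    obtain ⟨w, hw⟩ := hodd
    push_cast at hw
    omega
  obtain ⟨s, rfl⟩ : ∃ s : ℕ, t = (s : ℤ) := ⟨t.toNat, by omega⟩
  rcases Nat.eq_zero_or_pos s with hs | hs
  · subst hs
    unfold ph0 Bd
    rw [if_neg (by norm_num), if_pos (by norm_num), if_pos rfl, if_neg (by norm_num), if_pos (by simp)]
    have := Lam_zero (σ := σ) h.hK (m := 0) (by omega)
    simp only [mul_zero, zero_add, Nat.cast_zero, Int.toNat_zero] at this ⊢
    rw [this, SS_succ]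
    omega
  · have hodd' : Odd (1 + s) := by
      obtain ⟨w, hw⟩ := hodd
      exact ⟨w.toNat, by push_cast at hw; omega⟩
    have hP : ph0 n k (arrOf n (site n k) σ) 1 (s : ℤ) = crn (site n k) σ s 1 := by
      unfold ph0 arrOf
      rw [if_pos (by omega), Int.toNat_natCast, if_pos ⟨hs, by omega, by omega, hodd'⟩]
    rw [hP]
    rcases lt_or_ge s (2 * T + 1) with hsT | hsT
    · have hrec := Lam_rec (site n k) σ hs (le_refl 1) hodd'
        (h.val (s - 1) (by omega)).mono (h.val (s + 1) (by omega)).mono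
      unfold Bd
      rw [if_neg (by omega), Int.toNat_natCast, if_pos (by omega), hrec]
      exact Nat.le_add_right _ _
    · rw [crn_of_empty _ (h.emp s hsT)]
      exact Nat.zero_le _

theorem Fin'.initseg (h : Fin' n k σ T) {p : ℕ → ℤ} (c : ℕ) (hc2 : c + 1 ≤ 2 * n - 1)
    (hp : Pre (c + 1) p) :
    ∑ c' ∈ Finset.Icc 1 (c + 1), ph0 n k (arrOf n (site n k) σ) c' (p c')
      ≤ Bd k (site n k) σ (2 * T + 1) (c + 1) (p (c + 1)) := by
  induction c with
  | zero =>
    simp only [zero_add, Finset.Icc_self, Finset.sum_singleton]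
    have := hp.1 1 (by simp)
    exact h.base_bound this.1 this.2
  | succ c ih =>
    rw [Finset.sum_Icc_succ_top (by omega)]
    have h1 := ih (by omega) (hp.mono (by omega))
    have h2 := hp.1 (c + 1 + 1) (by rw [Finset.mem_Icc]; omega)
    have h3 := hp.1 (c + 1) (by rw [Finset.mem_Icc]; omega)
    have h4 := hp.2 (c + 1) (by rw [Finset.mem_Icc]; omega)
    have h5 := h.step_bound (c := c + 1) (by omega) (by omega) h2.1 h3.1 h2.2 h4
    omega

theorem Fin'.adm (h : Fin' n k σ T) {p : ℕ → ℤ} (hp : Pre (2 * n - 1) p) :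
    ∑ c ∈ Finset.Icc 1 (2 * n - 1), ph1 n k (arrOf n (site n k) σ) c (p c) ≤ SS k (n + 1) := by
  have hn := h.hn
  obtain ⟨c, hc⟩ : ∃ c, 2 * n - 1 = c + 1 := ⟨2 * n - 2, by omega⟩
  have h1 : ∑ c ∈ Finset.Icc 1 (2 * n - 1), ph1 n k (arrOf n (site n k) σ) c (p c)
      = ∑ c ∈ Finset.Icc 1 (2 * n - 1), ph0 n k (arrOf n (site n k) σ) c (p c)
        + (if p (2 * n - 1) = 0 then k n else 0) := by
    simp only [ph1_eq]
    rw [Finset.sum_add_distrib]
    congr 1
    rw [Finset.sum_eq_single (2 * n - 1)]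
    · simp
    · intro b _ hb
      rw [if_neg]
      rintro ⟨_, h2⟩
      exact hb h2
    · intro h2
      rw [Finset.mem_Icc] at h2
      omega
  rw [h1]
  have h2 := h.initseg c (by omega) (p := p) (by rw [← hc]; exact hp)
  rw [← hc] at h2
  have h3 := hp.1 (2 * n - 1) (by rw [Finset.mem_Icc]; omega)
  have h4 : 0 ≤ p (2 * n - 1) := by
    obtain ⟨w, hw⟩ := h3.2
    have : (((2 * n - 1 : ℕ)) : ℤ) = 2 * n - 1 := by omega
    rw [this] at hw
    omega
  refine (Nat.add_le_add_right h2 _).trans ?_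
  by_cases h5 : p (2 * n - 1) = 0
  · rw [if_pos h5, h5]
    unfold Bd
    rw [if_neg (by norm_num), if_pos (by simp)]
    have h6 : 2 * n - 1 = 2 * (n - 1) + 1 := by omega
    have := Lam_zero (σ := σ) h.hK (m := n - 1) (by omega)
    rw [Int.toNat_zero, h6, this, SS_succ k n]
    have h7 : n - 1 + 1 = n := by omega
    rw [h7]
  · rw [if_neg h5, add_zero]
    unfold Bd
    rw [if_neg (by omega)]
    split_ifs
    · have := Lam_le (site n k) σ (p (2 * n - 1)).toNat (2 * n - 1)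
      rw [← h.hK]; exact this
    · exact Nat.zero_le _

end fam

end Pool.Agent.Lib.Primc
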