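import Pool.Agent.Lib.Primc.BijArr

/-! # The array of a family determines the family -/

namespace Pool.Agent.Lib.Primc

open Finset

section fam

variable {K : ℕ} {n : ℕ} {k : ℕ → ℕ} {σ σ' : ℕ → Finset (Fin K)} {T : ℕ}

theorem Fin'.Lam_congr (h : Fin' n k σ T) (h' : Fin' n k σ' T)
    (harr : arrOf n (site n k) σ = arrOf n (site n k) σ') :
    ∀ c, c ≤ 2 * n - 1 → ∀ t ≤ 2 * T + 1, Odd (c + t) →
      Lam (site n k) σ t c = Lam (site n k) σ' t c := by
  have hn := h.hn
  intro c
  induction c with
  | zero =>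
    intro _ t ht _
    rw [h.Lam_col0 ht, h'.Lam_col0 ht]
  | succ c ih =>
    intro hc t ht hodd
    rcases Nat.eq_zero_or_pos t with h0 | h0
    · subst h0
      unfold Lam
      congr 1
    · rcases lt_or_ge t (2 * T + 1) with hT | hT
      · rw [Lam_rec (site n k) σ h0 (by omega) hodd
          (h.val (t - 1) (by omega)).mono (h.val (t + 1) (by omega)).mono,
          Lam_rec (site n k) σ' h0 (by omega) hodd
          (h'.val (t - 1) (by omega)).mono (h'.val (t + 1) (by omega)).mono]
        obtain ⟨w, hw⟩ := hodd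
        have h1 := congrFun (congrFun harr t) (c + 1)
        unfold arrOf at h1
        have h2 : 1 ≤ t ∧ 1 ≤ c + 1 ∧ c + 1 ≤ 2 * n - 1 ∧ Odd (c + 1 + t) :=
          ⟨h0, by omega, hc, ⟨w, hw⟩⟩
        rw [if_pos h2, if_pos h2] at h1
        rw [h1, Nat.add_sub_cancel, ih (by omega) (t - 1) (by omega) ⟨w - 1, by omega⟩,
          ih (by omega) (t + 1) (by omega) ⟨w, by omega⟩]
      · have ht' : t = 2 * T + 1 := by omega
        rw [ht', h.Lam_last (by omega), h'.Lam_last (by omega)]

theorem posn_le_of_Lam (h : Fin' n k σ T) (h' : Fin' n k σ' T)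
    (harr : arrOf n (site n k) σ = arrOf n (site n k) σ') {t : ℕ} (ht : t ≤ 2 * T + 1)
    (j : Fin K) : posn (site n k) σ' t j ≤ posn (site n k) σ t j := by
  have hn := h.hn
  by_contra hcon
  push Not at hcon
  have hv := (h.val t ht).2 j
  have hv' := (h'.val t ht).2 j
  obtain ⟨c, hc⟩ : ∃ c : ℕ, (c : ℤ) = 2 * posn (site n k) σ t j + 1 - t :=
    ⟨(2 * posn (site n k) σ t j + 1 - t).toNat, by omega⟩
  have hodd : Odd (c + t) := ⟨(posn (site n k) σ t j).toNat, by omega⟩
  have hLam := h.Lam_congr h' harr c (by omega) t ht hodd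
  -- both sets are initial segments
  set S := univ.filter fun j : Fin K => 2 * posn (site n k) σ t j + 1 ≤ ((c + t : ℕ) : ℤ) with hS
  set S' := univ.filter fun j : Fin K => 2 * posn (site n k) σ' t j + 1 ≤ ((c + t : ℕ) : ℤ) with hS'
  have htot : S ⊆ S' ∨ S' ⊆ S := by
    apply total_of_lower
    · intro i j hij hj
      simp only [hS, Finset.mem_filter, Finset.mem_univ, true_and] at hj ⊢
      have := (h.val t ht).mono hij
      omega
    · intro i j hij hj
      simp only [hS', Finset.mem_filter, Finset.mem_univ, true_and] at hj ⊢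
      have := (h'.val t ht).mono hij
      omega
  have hcard : S.card = S'.card := hLam
  have heq : S = S' := by
    rcases htot with h1 | h1
    · exact Finset.eq_of_subset_of_card_le h1 hcard.ge
    · exact (Finset.eq_of_subset_of_card_le h1 hcard.le).symm
  have hj : j ∈ S := by
    simp only [hS, Finset.mem_filter, Finset.mem_univ, true_and]
    push_cast
    omega
  rw [heq] at hj
  simp only [hS', Finset.mem_filter, Finset.mem_univ, true_and] at hj
  push_cast at hj
  omega

theorem Fin'.inj (h : Fin' n k σ T) (h' : Fin' n k σ' T)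
    (harr : arrOf n (site n k) σ = arrOf n (site n k) σ') {t : ℕ} (ht : t < 2 * T + 1) :
    σ t = σ' t := by
  have hp : ∀ t ≤ 2 * T + 1, ∀ j, posn (site n k) σ t j = posn (site n k) σ' t j := by
    intro t ht j
    exact le_antisymm (posn_le_of_Lam h' h harr.symm ht j) (posn_le_of_Lam h h' harr ht j)
  ext j
  have h1 := posn_succ (site n k) σ t j
  have h2 := posn_succ (site n k) σ' t j
  rw [hp t (by omega) j, hp (t + 1) (by omega) j, h2] at h1
  by_cases h3 : j ∈ σ t <;> by_cases h4 : j ∈ σ' t <;> simp only [h3, h4, if_true, if_false] at h1 ⊢ <;> omega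

end fam

end Pool.Agent.Lib.Primc
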