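import Pool.Agent.Lib.Primc.BijFam

/-! # Weight of a family and size of its array -/

namespace Pool.Agent.Lib.Primc

open Finset

section fam

variable {K : ℕ} {n : ℕ} {k : ℕ → ℕ} {σ : ℕ → Finset (Fin K)} {T : ℕ}

theorem Fin'.corners_card (h : Fin' n k σ T) {t : ℕ} (ht : 1 ≤ t) :
    (corners n (site n k) σ t).card
      = ∑ c ∈ Finset.Icc 1 (2 * n - 1), arrOf n (site n k) σ t c := by
  have hn := h.hn
  rcases lt_or_ge t (2 * T + 1) with htT | htT
  · rw [Finset.card_eq_sum_card_fiberwise (t := Finset.Icc 1 (2 * n - 1))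
      (f := fun j => (2 * posn (site n k) σ t j + 1 - t).toNat)]
    · apply Finset.sum_congr rfl
      intro c hc
      rw [Finset.mem_Icc] at hc
      unfold arrOf corners crn
      by_cases hodd : Odd (c + t)
      · rw [if_pos ⟨ht, hc.1, hc.2, hodd⟩]
        congr 1
        ext j
        simp only [Finset.mem_filter, Finset.mem_univ, true_and]
        have hv := (h.val t (by omega)).2 j
        push_cast
        constructor
        · rintro ⟨⟨h1, h2, h3⟩, h4⟩
          exact ⟨h2, h1, by omega⟩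
        · rintro ⟨h1, h2, h3⟩
          exact ⟨⟨h2, h1, by omega⟩, by omega⟩
      · rw [if_neg (fun hh => hodd hh.2.2.2), Finset.card_eq_zero, Finset.filter_eq_empty_iff]
        intro j hj h4
        apply hodd
        simp only [Finset.mem_filter] at hj
        have hv := (h.val t (by omega)).2 j
        exact ⟨(posn (site n k) σ t j).toNat, by omega⟩
    · intro j hj
      rw [corners, Finset.mem_coe, Finset.mem_filter] at hj
      have hv := (h.val t (by omega)).2 j
      rw [Finset.coe_Icc, Set.mem_Icc]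
      beta_reduce
      obtain ⟨_, _, hj3⟩ := hj
      constructor <;> omega
  · unfold corners
    rw [h.emp t htT, Finset.filter_empty, Finset.card_empty]
    symm
    apply Finset.sum_eq_zero
    intro c _
    unfold arrOf
    split_ifs
    · exact crn_of_empty _ (h.emp t htT) c
    · rfl

theorem Fin'.arr_zero (h : Fin' n k σ T) {t : ℕ} (ht : 2 * T + 1 ≤ t) (c : ℕ) :
    arrOf n (site n k) σ t c = 0 := by
  unfold arrOf
  split_ifs
  · exact crn_of_empty _ (h.emp t ht) c
  · rfl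

theorem Fin'.wt_eq (h : Fin' n k σ T) :
    wt n (site n k) σ (2 * T + 1) = ∑ i ∈ Finset.Ico 1 (2 * T + 1),
      ∑ c ∈ Finset.Icc 1 (2 * n - 1), i * arrOf n (site n k) σ i c := by
  unfold wt
  apply Finset.sum_congr rfl
  intro t ht
  rw [Finset.mem_Ico] at ht
  rw [h.corners_card ht.1, Finset.mul_sum]

theorem Fin'.arr_pos_le (h : Fin' n k σ T) {i c : ℕ} (hic : arrOf n (site n k) σ i c ≠ 0) :
    1 ≤ i ∧ i ≤ wt n (site n k) σ (2 * T + 1) ∧ 1 ≤ c ∧ c ≤ 2 * n - 1 ∧ Odd (c + i) := by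
  have h1 : 1 ≤ i ∧ 1 ≤ c ∧ c ≤ 2 * n - 1 ∧ Odd (c + i) := by
    by_contra hcon
    apply hic
    unfold arrOf
    rw [if_neg hcon]
  have h2 : i < 2 * T + 1 := by
    by_contra hcon
    exact hic (h.arr_zero (by omega) c)
  refine ⟨h1.1, ?_, h1.2.1, h1.2.2.1, h1.2.2.2⟩
  rw [h.wt_eq]
  have h3 : i * arrOf n (site n k) σ i c ≤ ∑ c ∈ Finset.Icc 1 (2 * n - 1),
      i * arrOf n (site n k) σ i c :=
    Finset.single_le_sum (f := fun c => i * arrOf n (site n k) σ i c) (fun _ _ => Nat.zero_le _)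
      (by rw [Finset.mem_Icc]; exact ⟨h1.2.1, h1.2.2.1⟩)
  have h4 : ∑ c ∈ Finset.Icc 1 (2 * n - 1), i * arrOf n (site n k) σ i c
      ≤ ∑ i ∈ Finset.Ico 1 (2 * T + 1), ∑ c ∈ Finset.Icc 1 (2 * n - 1),
        i * arrOf n (site n k) σ i c :=
    Finset.single_le_sum (f := fun i => ∑ c ∈ Finset.Icc 1 (2 * n - 1),
      i * arrOf n (site n k) σ i c) (fun _ _ => Nat.zero_le _)
      (by rw [Finset.mem_Ico]; exact ⟨h1.1, h2⟩)
  have h5 : i ≤ i * arrOf n (site n k) σ i c := Nat.le_mul_of_pos_right _ (Nat.pos_of_ne_zero hic)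
  omega

theorem Fin'.size (h : Fin' n k σ T) {N : ℕ} (hN : wt n (site n k) σ (2 * T + 1) = N) :
    (∑ i ∈ Finset.range (N+1), ∑ c ∈ Finset.Icc 1 (2*n-1), i * arrOf n (site n k) σ i c) = N := by
  have hz : ∀ i c, (i = 0 ∨ 2 * T + 1 ≤ i ∨ N < i) → i * arrOf n (site n k) σ i c = 0 := by
    intro i c hi
    rcases hi with hi | hi | hi
    · rw [hi, zero_mul]
    · rw [h.arr_zero hi, mul_zero]
    · by_contra hcon
      have := (h.arr_pos_le (fun h0 => hcon (by rw [h0, mul_zero]))).2.1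
      omega
  have h1 : (∑ i ∈ Finset.range (N+1), ∑ c ∈ Finset.Icc 1 (2*n-1), i * arrOf n (site n k) σ i c)
      = ∑ i ∈ Finset.range (N + 1 + (2 * T + 1)), ∑ c ∈ Finset.Icc 1 (2*n-1),
        i * arrOf n (site n k) σ i c := by
    apply Finset.sum_subset (Finset.range_mono (by omega))
    intro i _ hi
    rw [Finset.mem_range] at hi
    exact Finset.sum_eq_zero fun c _ => hz i c (Or.inr (Or.inr (by omega)))
  have h2 : (∑ i ∈ Finset.Ico 1 (2 * T + 1), ∑ c ∈ Finset.Icc 1 (2*n-1),
        i * arrOf n (site n k) σ i c)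
      = ∑ i ∈ Finset.range (N + 1 + (2 * T + 1)), ∑ c ∈ Finset.Icc 1 (2*n-1),
        i * arrOf n (site n k) σ i c := by
    apply Finset.sum_subset
    · intro i hi
      rw [Finset.mem_Ico] at hi
      rw [Finset.mem_range]
      omega
    · intro i _ hi
      rw [Finset.mem_Ico] at hi
      exact Finset.sum_eq_zero fun c _ => hz i c (by omega)
  rw [h1, ← h2, ← h.wt_eq, hN]

/-- the array of a finished family is admissible -/
theorem Fin'.wt_of_size (h : Fin' n k σ T) {N : ℕ} (hNT : N + 1 ≤ 2 * T + 1)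
    (hsupp : ∀ i c, arrOf n (site n k) σ i c ≠ 0 → i ≤ N)
    (hN : (∑ i ∈ Finset.range (N+1), ∑ c ∈ Finset.Icc 1 (2*n-1),
      i * arrOf n (site n k) σ i c) = N) :
    wt n (site n k) σ (2 * T + 1) = N := by
  rw [h.wt_eq, ← hN]
  have hz : ∀ i c, (i = 0 ∨ N < i) → i * arrOf n (site n k) σ i c = 0 := by
    intro i c hi
    rcases hi with hi | hi
    · rw [hi, zero_mul]
    · by_contra hcon
      have := hsupp i c (fun h0 => hcon (by rw [h0, mul_zero]))
      omega
  have h1 : (∑ i ∈ Finset.range (N+1), ∑ c ∈ Finset.Icc 1 (2*n-1), i * arrOf n (site n k) σ i c)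
      = ∑ i ∈ Finset.range (2 * T + 1), ∑ c ∈ Finset.Icc 1 (2*n-1),
        i * arrOf n (site n k) σ i c := by
    apply Finset.sum_subset (Finset.range_mono (by omega))
    intro i _ hi
    rw [Finset.mem_range] at hi
    exact Finset.sum_eq_zero fun c _ => hz i c (Or.inr (by omega))
  rw [hN] at h1
  rw [hN, h1]
  apply Finset.sum_subset
  · intro i hi
    rw [Finset.mem_Ico] at hi
    rw [Finset.mem_range]
    omega
  · intro i hi hi'
    rw [Finset.mem_Ico] at hi'
    rw [Finset.mem_range] at hi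
    exact Finset.sum_eq_zero fun c _ => hz i c (by omega)

end fam

end Pool.Agent.Lib.Primc
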