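import Mathlib

/-! # Shared definitions for the coloured partition product formula (type D_{n+1}^{(2)})

`qinf q` is the infinite product of (1 - q^(j+1)), `th p z` the modified theta function,
`ph M q r` the product of (1 - q^(r + M s)), `thh M q r = ph M q r * ph M q (M - r)`. -/

namespace Pool.Agent.Lib.Primc

open Finset

/-- the infinite product of `1 - q^(j+1)`, `j ≥ 0` -/
noncomputable def qinf (q : ℂ) : ℂ := ∏' j : ℕ, (1 - q ^ (j + 1))

/-- the product over `s` of `1 - q^(r + M s)` -/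
noncomputable def ph (M : ℕ) (q : ℂ) (r : ℕ) : ℂ := ∏' s : ℕ, (1 - q ^ (r + M * s))

/-- the theta product with natural exponent `r` (for `0 < r < M`) -/
noncomputable def thh (M : ℕ) (q : ℂ) (r : ℕ) : ℂ :=
  ∏' s : ℕ, ((1 - q ^ (r + M * s)) * (1 - q ^ (M - r + M * s)))

/-- modified theta function of nome `p` -/
noncomputable def th (p z : ℂ) : ℂ := ∏' r : ℕ, ((1 - p ^ r * z) * (1 - p ^ (r + 1) / z))

/-- the odd theta functions of degree `2(K+1)`, `j = 1..K` (here any integer `j`) -/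
noncomputable def oddTh (p : ℂ) (K : ℕ) (j : ℤ) (z : ℂ) : ℂ :=
  ∑' m : ℤ, p ^ (((K : ℤ) + 1) * m ^ 2 - j * m) *
    (z ^ (2 * ((K : ℤ) + 1) * m - j) - z ^ (-(2 * ((K : ℤ) + 1) * m - j)))

/-- the product side of the type C Macdonald identity -/
noncomputable def prodC (p : ℂ) {K : ℕ} (z : Fin K → ℂ) : ℂ :=
  (∏ i, (z i)⁻¹ * th p (z i ^ 2)) *
    ∏ i, ∏ j ∈ Finset.Ioi i, ((z j)⁻¹ * th p (z i * z j) * th p (z j / z i))

end Pool.Agent.Lib.Primc
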