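import Pool.Agent.Lib.Primc.GG

/-! # The determinant formula: one time step -/

namespace Pool.Agent.Lib.Primc

open Finset Matrix

/-- row of a walker: `ε = true` means that the potential corner is counted -/
noncomputable def rowv (q : ℂ) {K : ℕ} (N : ℕ) (b : Fin K → ℤ) (t j : ℕ) (ε : Bool) (v : ℤ) :
    Fin K → ℂ :=
  fun i => if ε = true then q ^ ((t : ℤ) - v) * HH q (gfun q K N (b i)) t j v
    else HH q (gfun q K N (b i)) t ((j : ℤ) + 1) v

theorem rowv_false_succ {q : ℂ} {K : ℕ} (N : ℕ) (b : Fin K → ℤ) (t j : ℕ) (v : ℤ) :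
    rowv q N b (t + 1) j false v = rowv q N b t j true (v - 1) + rowv q N b t j false v := by
  funext i
  simp only [rowv, Pi.add_apply, if_true, Bool.false_eq_true, if_false]
  rw [HH_succ]
  have e1 : (t : ℤ) + 1 - v = (t : ℤ) - (v - 1) := by ring
  have e2 : (j : ℤ) + 1 - 1 = j := by ring
  rw [e1, e2]; ring

theorem rowv_true_succ {q : ℂ} (hq : q ≠ 0) {K : ℕ} (N : ℕ) (b : Fin K → ℤ) (t j : ℕ) (v : ℤ) :
    rowv q N b (t + 1) j true v
      = rowv q N b t j true (v - 1) + q ^ ((t : ℤ) + 1) • rowv q N b t j false v := by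
  funext i
  simp only [rowv, Pi.add_apply, if_true, Bool.false_eq_true, if_false, Pi.smul_apply, smul_eq_mul]
  rw [HH_succ' hq]
  have e1 : q ^ (((t + 1 : ℕ) : ℤ) - v) * q ^ v = q ^ ((t : ℤ) + 1) := by
    rw [← zpow_add₀ hq]; congr 1; push_cast; ring
  have e2 : ((t + 1 : ℕ) : ℤ) - v = (t : ℤ) - (v - 1) := by push_cast; ring
  rw [mul_add, ← mul_assoc, e1, e2]; ring

theorem rowv_false_succ' {q : ℂ} (hq : q ≠ 0) {K : ℕ} (N : ℕ) (b : Fin K → ℤ) (t j : ℕ) (v : ℤ) :
    rowv q N b (t + 1) j false v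
      = rowv q N b t j false (v - 1) + q ^ v • rowv q N b t (j + 1) false v := by
  funext i
  simp only [rowv, Pi.add_apply, Bool.false_eq_true, if_false, Pi.smul_apply, smul_eq_mul]
  rw [HH_succ' hq]
  push_cast
  ring

theorem rowv_true_eq {q : ℂ} {K : ℕ} (N : ℕ) (b : Fin K → ℤ) (t j : ℕ) (v : ℤ) :
    rowv q N b t (j + 1) true v = q ^ ((t : ℤ) - v) • rowv q N b t j false v := by
  funext i
  simp only [rowv, if_true, Bool.false_eq_true, if_false, Pi.smul_apply, smul_eq_mul]
  push_cast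
  ring

/-- unitriangular row operations -/
theorem det_unitri {K : ℕ} (A B : Matrix (Fin K) (Fin K) ℂ) (c : Fin K → ℂ)
    (h1 : ∀ (j : Fin K) (h : (j : ℕ) + 1 < K) (k : Fin K),
      A j k = B j k + c j * B ⟨(j : ℕ) + 1, h⟩ k)
    (h2 : ∀ j : Fin K, (j : ℕ) + 1 = K → ∀ k, A j k = B j k) : A.det = B.det := by
  set U : Matrix (Fin K) (Fin K) ℂ := Matrix.of fun i j =>
    (if i = j then (1 : ℂ) else 0) + (if (i : ℕ) + 1 = j then c i else 0) with hU
  have hA : A = U * B := by
    ext i k
    rw [Matrix.mul_apply]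
    have : ∀ j, U i j * B j k = (if i = j then B j k else 0)
        + (if (i : ℕ) + 1 = j then c i * B j k else 0) := by
      intro j
      simp only [hU, Matrix.of_apply, add_mul, ite_mul, one_mul, zero_mul]
    rw [Finset.sum_congr rfl (fun j _ => this j), Finset.sum_add_distrib]
    rw [Finset.sum_ite_eq Finset.univ i (fun j => B j k), if_pos (Finset.mem_univ i)]
    by_cases h : (i : ℕ) + 1 < K
    · rw [h1 i h k]
      have : ∀ j : Fin K, (if (i : ℕ) + 1 = j then c i * B j k else 0)
          = if (⟨(i : ℕ) + 1, h⟩ : Fin K) = j then c i * B j k else 0 := by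
        intro j
        congr 1
        simp [Fin.ext_iff]
      rw [Finset.sum_congr rfl (fun j _ => this j),
        Finset.sum_ite_eq Finset.univ _ (fun j => c i * B j k), if_pos (Finset.mem_univ _)]
    · have hK : (i : ℕ) + 1 = K := by have := i.2; omega
      rw [h2 i hK k]
      rw [Finset.sum_eq_zero, add_zero]
      intro j _
      rw [if_neg]
      have := j.2; omega
  have hdU : U.det = 1 := by
    rw [Matrix.det_of_isUpperTriangular]
    · apply Finset.prod_eq_one
      intro i _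
      simp [hU]
    · intro i j hij
      simp only [id] at hij
      simp only [hU, Matrix.of_apply]
      have h3 : (j : ℕ) < i := hij
      rw [if_neg, if_neg]
      · simp
      · omega
      · intro h; rw [h] at h3; exact lt_irrefl _ h3
  rw [hA, Matrix.det_mul, hdU, one_mul]

/-- admissible positions of the walkers at time `t` -/
def Valid {K : ℕ} (n t : ℕ) (u : Fin K → ℤ) : Prop :=
  (∀ i j : Fin K, (i : ℕ) + 1 = j → u i ≤ u j) ∧ ∀ j, (t : ℤ) ≤ 2 * u j ∧ 2 * u j ≤ 2 * n + t

theorem Valid.mono {K n t : ℕ} {u : Fin K → ℤ} (h : Valid n t u) : Monotone u := by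
  have key : ∀ d : ℕ, ∀ i j : Fin K, (i : ℕ) + d = j → u i ≤ u j := by
    intro d
    induction d with
    | zero =>
      intro i j hij
      have : i = j := Fin.ext (by simpa using hij)
      rw [this]
    | succ d ih =>
      intro i j hij
      have hlt : (i : ℕ) + d < K := by have := j.2; omega
      exact le_trans (ih i ⟨(i : ℕ) + d, hlt⟩ rfl) (h.1 ⟨(i : ℕ) + d, hlt⟩ j (by simp; omega))
  intro i j hij
  have : (i : ℕ) ≤ j := hij
  exact key (j - i) i j (by omega)

/-- remove the last step -/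
def back {K : ℕ} (u : Fin K → ℤ) (s : Finset (Fin K)) : Fin K → ℤ :=
  fun j => u j - (if j ∈ s then 1 else 0)

/-- walkers whose corner at time `t` would be counted -/
def cnt {K : ℕ} (n t : ℕ) (u : Fin K → ℤ) (s : Finset (Fin K)) : Finset (Fin K) :=
  s.filter (fun j => 2 * u j + 1 < 2 * n + t)

/-- the determinant -/
noncomputable def DD (q : ℂ) {K : ℕ} (N : ℕ) (b : Fin K → ℤ) (t : ℕ) (ε : Finset (Fin K))
    (u : Fin K → ℤ) : ℂ :=
  Matrix.det (Matrix.of fun j => rowv q N b t j (decide (j ∈ ε)) (u j + j))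

end Pool.Agent.Lib.Primc
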