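import Pool.Agent.Lib.Primc.Gauss

/-! # Residue class products -/

namespace Pool.Agent.Lib.Primc

open Finset Filter Topology

theorem summable_res {q : ℂ} (hq : ‖q‖ < 1) {M : ℕ} (hM : 1 ≤ M) {r : ℕ} (hr : 1 ≤ r) :
    Summable (fun s : ℕ => ‖q ^ (r + M * s)‖) := by
  have h := summable_pow_succ hq
  have h2 : Function.Injective (fun s : ℕ => r - 1 + M * s) := by
    intro s t hst
    simp only at hst
    have : M * s = M * t := by omega
    exact Nat.eq_of_mul_eq_mul_left (by omega) this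
  have h3 := h.comp_injective h2
  refine h3.congr ?_
  intro s
  simp only [Function.comp]
  congr 2
  omega

theorem one_sub_ne {q : ℂ} (hq : ‖q‖ < 1) {m : ℕ} (hm : 1 ≤ m) : (1 : ℂ) - q ^ m ≠ 0 := by
  have := one_sub_pow_ne_zero hq (m - 1)
  rwa [Nat.sub_add_cancel hm] at this

theorem multipliable_ph {q : ℂ} (hq : ‖q‖ < 1) {M : ℕ} (hM : 1 ≤ M) {r : ℕ} (hr : 1 ≤ r) :
    Multipliable (fun s : ℕ => (1 - q ^ (r + M * s))) := by
  have h := multipliable_one_add_of_summable (f := fun s : ℕ => -(q ^ (r + M * s)))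
    (by simpa using summable_res hq hM hr)
  refine h.congr ?_
  intro j
  ring

theorem ph_ne_zero {q : ℂ} (hq : ‖q‖ < 1) {M : ℕ} (hM : 1 ≤ M) {r : ℕ} (hr : 1 ≤ r) :
    ph M q r ≠ 0 := by
  have h := tprod_one_add_ne_zero_of_summable (f := fun s : ℕ => -(q ^ (r + M * s)))
    (fun s => by
      have := one_sub_ne hq (m := r + M * s) (by omega)
      rwa [← sub_eq_add_neg])
    (by simpa using summable_res hq hM hr)
  unfold ph
  have h2 : (∏' s : ℕ, (1 - q ^ (r + M * s))) = ∏' s : ℕ, (1 + -(q ^ (r + M * s))) := by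
    congr 1
  rw [h2]
  exact h

theorem thh_eq {q : ℂ} (hq : ‖q‖ < 1) {M : ℕ} {r : ℕ} (hr : 1 ≤ r) (hrM : r < M) :
    thh M q r = ph M q r * ph M q (M - r) := by
  unfold thh ph
  exact Multipliable.tprod_mul (multipliable_ph hq (by omega) hr)
    (multipliable_ph hq (by omega) (by omega))

theorem prod_part (q : ℂ) (M S : ℕ) :
    ∏ r ∈ Finset.range M, ∏ s ∈ Finset.range S, (1 - q ^ (r + 1 + M * s)) = pq q (M * S) := by
  induction S with
  | zero => simp [pq]
  | succ S ih =>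
    have h1 : pq q (M * (S + 1)) = pq q (M * S) * ∏ r ∈ Finset.range M, (1 - q ^ (r + 1 + M * S)) := by
      unfold pq
      rw [Nat.mul_succ, Finset.prod_range_add]
      congr 1
      apply Finset.prod_congr rfl
      intro r _
      congr 2
      ring
    rw [h1, ← ih, ← Finset.prod_mul_distrib]
    apply Finset.prod_congr rfl
    intro r _
    rw [Finset.prod_range_succ]

theorem prod_ph {q : ℂ} (hq : ‖q‖ < 1) {M : ℕ} (hM : 1 ≤ M) :
    ∏ r ∈ Finset.range M, ph M q (r + 1) = qinf q := by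
  have h1 : Tendsto (fun S : ℕ => ∏ r ∈ Finset.range M, ∏ s ∈ Finset.range S,
      (1 - q ^ (r + 1 + M * s))) atTop (𝓝 (∏ r ∈ Finset.range M, ph M q (r + 1))) := by
    apply tendsto_finsetProd
    intro r _
    exact (multipliable_ph hq hM (by omega)).hasProd.tendsto_prod_nat
  have h2 : Tendsto (fun S : ℕ => pq q (M * S)) atTop (𝓝 (qinf q)) := by
    refine (tendsto_pq hq).comp ?_
    exact tendsto_id.const_mul_atTop' (by omega)
  refine tendsto_nhds_unique h1 ?_
  refine h2.congr ?_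
  intro S
  exact (prod_part q M S).symm

theorem ph_self (M : ℕ) (q : ℂ) : ph M q M = qinf (q ^ M) := by
  unfold ph qinf
  apply tprod_congr
  intro s
  rw [← pow_mul]
  congr 2
  ring

/-- the product over all nonzero residues -/
noncomputable def QQ (M : ℕ) (q : ℂ) : ℂ := ∏ r ∈ Finset.Ico 1 M, ph M q r

theorem QQ_mul {q : ℂ} (hq : ‖q‖ < 1) {M : ℕ} (hM : 1 ≤ M) : QQ M q * qinf (q ^ M) = qinf q := by
  rw [← prod_ph hq hM, ← ph_self M q]
  unfold QQ
  obtain ⟨m, rfl⟩ : ∃ m, M = m + 1 := ⟨M - 1, by omega⟩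
  rw [Finset.prod_range_succ, Finset.prod_Ico_eq_prod_range]
  congr 1
  apply Finset.prod_congr (by simp)
  intro r _
  rw [add_comm 1 r]

theorem QQ_ne_zero {q : ℂ} (hq : ‖q‖ < 1) {M : ℕ} (hM : 1 ≤ M) : QQ M q ≠ 0 := by
  intro h
  have := QQ_mul hq hM
  rw [h, zero_mul] at this
  exact qinf_ne_zero hq this.symm

/-- product over the odd residues -/
theorem prod_odd {q : ℂ} (hq : ‖q‖ < 1) {N : ℕ} (hN : 1 ≤ N) :
    (∏ i ∈ Finset.range N, ph (2 * N) q (2 * i + 1)) * qinf (q ^ 2) = qinf q := by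
  have hq2 : ‖q ^ 2‖ < 1 := by
    rw [norm_pow]; exact pow_lt_one₀ (norm_nonneg _) hq (by norm_num)
  have h1 : ∏ i ∈ Finset.range N, ph (2 * N) q (2 * i + 2) = qinf (q ^ 2) := by
    rw [← prod_ph hq2 hN]
    apply Finset.prod_congr rfl
    intro i _
    unfold ph
    apply tprod_congr
    intro s
    rw [← pow_mul]
    congr 2
    ring
  rw [← h1, ← prod_ph hq (M := 2 * N) (by omega), ← Finset.prod_mul_distrib]
  clear h1
  have h2 : ∀ (f : ℕ → ℂ) (N : ℕ), ∏ i ∈ Finset.range N, f (2 * i) * f (2 * i + 1)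
      = ∏ r ∈ Finset.range (2 * N), f r := by
    intro f N
    induction N with
    | zero => simp
    | succ N ih =>
      rw [Finset.prod_range_succ, ih, show 2 * (N + 1) = 2 * N + 1 + 1 by ring,
        Finset.prod_range_succ, Finset.prod_range_succ, mul_assoc]
  exact h2 (fun r => ph (2 * N) q (r + 1)) N

theorem thh_symm' (M : ℕ) (q : ℂ) (x : ℕ) (hx : x ≤ M) : thh M q (M - x) = thh M q x := by
  unfold thh
  apply tprod_congr
  intro r
  rw [Nat.sub_sub_self hx, mul_comm]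

theorem thh_ne_zero {q : ℂ} (hq : ‖q‖ < 1) {M : ℕ} {r : ℕ} (hr : 1 ≤ r) (hrM : r < M) :
    thh M q r ≠ 0 := by
  rw [thh_eq hq hr hrM]
  exact mul_ne_zero (ph_ne_zero hq (by omega) hr) (ph_ne_zero hq (by omega) (by omega))

theorem prod_reflect_Ico (f : ℕ → ℂ) (M a b : ℕ) (hb : b ≤ M) :
    ∏ r ∈ Finset.Ico a b, f (M - r) = ∏ r ∈ Finset.Ico (M + 1 - b) (M + 1 - a), f r := by
  rw [Finset.prod_Ico_reflect f a (by omega : b ≤ M + 1)]

/-- product of all `thh` -/
theorem prod_thh {q : ℂ} (hq : ‖q‖ < 1) (M : ℕ) :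
    ∏ r ∈ Finset.Ico 1 M, thh M q r = QQ M q ^ 2 := by
  have h1 : ∏ r ∈ Finset.Ico 1 M, thh M q r
      = ∏ r ∈ Finset.Ico 1 M, (ph M q r * ph M q (M - r)) := by
    apply Finset.prod_congr rfl
    intro r hr
    rw [Finset.mem_Ico] at hr
    exact thh_eq hq hr.1 hr.2
  rw [h1, Finset.prod_mul_distrib, prod_reflect_Ico (ph M q) M 1 M le_rfl, sq]
  unfold QQ
  congr 2
  congr 1
  omega

end Pool.Agent.Lib.Primc
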