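import Pool.Agent.Lib.Primc.DualA

/-! # Star products -/

namespace Pool.Agent.Lib.Primc

open Finset

/-- the symmetric pair weight -/
noncomputable def gg (N : ℕ) (q : ℂ) (i j : ℕ) : ℂ :=
  thh (2 * N) q ((i - j) + (j - i)) * thh (2 * N) q (i + j + 1)

theorem gg_comm (N : ℕ) (q : ℂ) (i j : ℕ) : gg N q i j = gg N q j i := by
  unfold gg
  rw [add_comm (i - j) (j - i), add_comm i j]

theorem gg_lt (N : ℕ) (q : ℂ) {i j : ℕ} (h : i < j) :
    gg N q i j = thh (2 * N) q (j - i) * thh (2 * N) q (i + j + 1) := by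
  unfold gg
  rw [show (i - j) + (j - i) = j - i by omega]

theorem gg_gt (N : ℕ) (q : ℂ) {i j : ℕ} (h : j < i) :
    gg N q i j = thh (2 * N) q (i - j) * thh (2 * N) q (i + j + 1) := by
  unfold gg
  rw [show (i - j) + (j - i) = i - j by omega]

theorem gg_ne_zero {q : ℂ} (hq : ‖q‖ < 1) {N i j : ℕ} (hij : i ≠ j) (hi : i < N) (hj : j < N) :
    gg N q i j ≠ 0 := by
  unfold gg
  exact mul_ne_zero (thh_ne_zero hq (by omega) (by omega)) (thh_ne_zero hq (by omega) (by omega))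

/-- the star product at `i` -/
theorem star {q : ℂ} (hq : ‖q‖ < 1) {N i : ℕ} (hi : i < N) :
    thh (2 * N) q (2 * i + 1) * ∏ j ∈ (Finset.range N).erase i, gg N q i j
      = QQ (2 * N) q ^ 2 := by
  set T := thh (2 * N) q with hT
  have h1 : (Finset.range N).erase i = Finset.Ico 0 i ∪ Finset.Ico (i + 1) N := by
    ext j
    simp only [Finset.mem_erase, Finset.mem_range, Finset.mem_union, Finset.mem_Ico]
    omega
  have hdisj : Disjoint (Finset.Ico 0 i) (Finset.Ico (i + 1) N) := by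
    rw [Finset.disjoint_left]
    intro j hj hj'
    simp only [Finset.mem_Ico] at hj hj'
    omega
  rw [h1, Finset.prod_union hdisj]
  have h2 : ∏ j ∈ Finset.Ico 0 i, gg N q i j
      = (∏ j ∈ Finset.Ico 0 i, T (i - j)) * ∏ j ∈ Finset.Ico 0 i, T (i + 1 + j) := by
    rw [← Finset.prod_mul_distrib]
    apply Finset.prod_congr rfl
    intro j hj
    rw [Finset.mem_Ico] at hj
    rw [gg_gt N q hj.2, show i + 1 + j = i + j + 1 by ring]
  have h3 : ∏ j ∈ Finset.Ico (i + 1) N, gg N q i j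
      = (∏ j ∈ Finset.Ico (i + 1) N, T (2 * N + i - j)) * ∏ j ∈ Finset.Ico (i + 1) N, T (i + 1 + j) := by
    rw [← Finset.prod_mul_distrib]
    apply Finset.prod_congr rfl
    intro j hj
    rw [Finset.mem_Ico] at hj
    rw [gg_lt N q (by omega), show i + 1 + j = i + j + 1 by ring,
      show 2 * N + i - j = 2 * N - (j - i) by omega, hT, thh_symm' _ _ _ (by omega)]
  have h4 : ∏ j ∈ Finset.Ico 0 i, T (i - j) = ∏ r ∈ Finset.Ico 1 (i + 1), T r := by
    rw [prod_reflect_Ico T i 0 i le_rfl]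
    congr 1
    congr 1
    omega
  have h5 : ∏ j ∈ Finset.Ico (i + 1) N, T (2 * N + i - j)
      = ∏ r ∈ Finset.Ico (N + i + 1) (2 * N), T r := by
    rw [prod_reflect_Ico T (2 * N + i) (i + 1) N (by omega)]
    congr 1
    congr 1 <;> omega
  have h6 : ∏ j ∈ Finset.Ico 0 i, T (i + 1 + j) = ∏ r ∈ Finset.Ico (i + 1) (2 * i + 1), T r := by
    rw [Finset.prod_Ico_add T 0 i (i + 1)]
    congr 2
    · omega
    · omega
  have h7 : ∏ j ∈ Finset.Ico (i + 1) N, T (i + 1 + j)
      = ∏ r ∈ Finset.Ico (2 * i + 2) (N + i + 1), T r := by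
    rw [Finset.prod_Ico_add T (i + 1) N (i + 1)]
    congr 2
    omega
  rw [h2, h3, h4, h5, h6, h7, ← prod_thh hq]
  have e1 := Finset.prod_Ico_consecutive T (show 1 ≤ i + 1 by omega)
    (show i + 1 ≤ 2 * i + 1 by omega)
  have e2 := Finset.prod_Ico_consecutive T (show 1 ≤ 2 * i + 1 by omega)
    (show 2 * i + 1 ≤ 2 * i + 2 by omega)
  have e3 := Finset.prod_Ico_consecutive T (show 1 ≤ 2 * i + 2 by omega)
    (show 2 * i + 2 ≤ N + i + 1 by omega)
  have e4 := Finset.prod_Ico_consecutive T (show 1 ≤ N + i + 1 by omega)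
    (show N + i + 1 ≤ 2 * N by omega)
  rw [← e4, ← e3, ← e2, ← e1]
  rw [show 2 * i + 2 = 2 * i + 1 + 1 by ring, Nat.Ico_succ_singleton, Finset.prod_singleton]
  ring

/-- the product over all pairs -/
theorem pall {q : ℂ} (hq : ‖q‖ < 1) (N : ℕ) :
    (∏ i ∈ Finset.range N, ∏ j ∈ Finset.range i, gg N q i j) *
      ∏ i ∈ Finset.range N, ph (2 * N) q (2 * i + 1) = QQ (2 * N) q ^ N := by
  set T := thh (2 * N) q with hT
  set φ := ph (2 * N) q with hφ
  have h1 : ∀ i ∈ Finset.range N, ∏ j ∈ Finset.range i, gg N q i j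
      = (∏ r ∈ Finset.Ico 1 (2 * i + 1), φ r) * ∏ r ∈ Finset.Ico 1 (2 * i + 1), φ (2 * N - r) := by
    intro i hi
    rw [Finset.mem_range] at hi
    have h2 : ∏ j ∈ Finset.range i, gg N q i j
        = (∏ j ∈ Finset.Ico 0 i, T (i - j)) * ∏ j ∈ Finset.Ico 0 i, T (i + 1 + j) := by
      rw [← Finset.prod_mul_distrib, Finset.range_eq_Ico]
      apply Finset.prod_congr rfl
      intro j hj
      rw [Finset.mem_Ico] at hj
      rw [gg_gt N q hj.2, show i + 1 + j = i + j + 1 by ring]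
    have h4 : ∏ j ∈ Finset.Ico 0 i, T (i - j) = ∏ r ∈ Finset.Ico 1 (i + 1), T r := by
      rw [prod_reflect_Ico T i 0 i le_rfl]
      congr 1
      congr 1
      omega
    have h6 : ∏ j ∈ Finset.Ico 0 i, T (i + 1 + j) = ∏ r ∈ Finset.Ico (i + 1) (2 * i + 1), T r := by
      rw [Finset.prod_Ico_add T 0 i (i + 1)]
      congr 2
      · omega
      · omega
    rw [h2, h4, h6, Finset.prod_Ico_consecutive T (by omega) (by omega),
      ← Finset.prod_mul_distrib]
    apply Finset.prod_congr rfl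
    intro r hr
    rw [Finset.mem_Ico] at hr
    exact thh_eq hq hr.1 (by omega)
  rw [Finset.prod_congr rfl h1, Finset.prod_mul_distrib]
  have h3 : ∏ i ∈ Finset.range N, ∏ r ∈ Finset.Ico 1 (2 * i + 1), φ (2 * N - r)
      = ∏ i ∈ Finset.range N, ∏ r ∈ Finset.Ico (2 * i + 2) (2 * N), φ r := by
    rw [← Finset.prod_range_reflect]
    apply Finset.prod_congr rfl
    intro i hi
    rw [Finset.mem_range] at hi
    rw [prod_reflect_Ico φ (2 * N) 1 (2 * (N - 1 - i) + 1) (by omega)]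
    congr 2
    omega
  rw [h3, ← Finset.prod_mul_distrib, ← Finset.prod_mul_distrib]
  have h5 : ∀ i ∈ Finset.range N, (∏ r ∈ Finset.Ico 1 (2 * i + 1), φ r) *
      (∏ r ∈ Finset.Ico (2 * i + 2) (2 * N), φ r) * φ (2 * i + 1) = QQ (2 * N) q := by
    intro i hi
    rw [Finset.mem_range] at hi
    unfold QQ
    have e2 := Finset.prod_Ico_consecutive φ (show 1 ≤ 2 * i + 1 by omega)
      (show 2 * i + 1 ≤ 2 * i + 2 by omega)
    have e3 := Finset.prod_Ico_consecutive φ (show 1 ≤ 2 * i + 2 by omega)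
      (show 2 * i + 2 ≤ 2 * N by omega)
    rw [← hφ, ← e3, ← e2]
    rw [show 2 * i + 2 = 2 * i + 1 + 1 by ring, Nat.Ico_succ_singleton, Finset.prod_singleton]
    ring
  rw [Finset.prod_congr rfl h5, Finset.prod_const, Finset.card_range]

end Pool.Agent.Lib.Primc
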