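import Pool.Agent.Lib.Primc.NN

/-! # Families of walkers given by their steps -/

namespace Pool.Agent.Lib.Primc

open Finset

/-- position of walker `j` at time `t`; `σ t'` is the set of walkers making a step to the right
between the times `t'` and `t' + 1` -/
def posn {K : ℕ} (a : Fin K → ℤ) (σ : ℕ → Finset (Fin K)) (t : ℕ) (j : Fin K) : ℤ :=
  a j + ∑ t' ∈ Finset.range t, (if j ∈ σ t' then 1 else 0)

/-- counted corners at time `t` -/
def corners {K : ℕ} (n : ℕ) (a : Fin K → ℤ) (σ : ℕ → Finset (Fin K)) (t : ℕ) : Finset (Fin K) :=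
  (σ t).filter (fun j => j ∉ σ (t - 1) ∧ 2 * posn a σ t j + 1 < 2 * n + t)

/-- total weight up to the time `T` -/
def wt {K : ℕ} (n : ℕ) (a : Fin K → ℤ) (σ : ℕ → Finset (Fin K)) (T : ℕ) : ℕ :=
  ∑ t ∈ Finset.Ico 1 T, t * (corners n a σ t).card

/-- extension by empty sets -/
def ext {K T : ℕ} (σ : Fin T → Finset (Fin K)) : ℕ → Finset (Fin K) :=
  fun t => if h : t < T then σ ⟨t, h⟩ else ∅

/-- valid families up to time `T` ending at `u` -/
def Good {K : ℕ} (n : ℕ) (a : Fin K → ℤ) (σ : ℕ → Finset (Fin K)) (T : ℕ) (u : Fin K → ℤ) : Prop :=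
  (∀ t ≤ T, Valid n t (posn a σ t)) ∧ posn a σ T = u

/-- starting site of walker `j` : the number of `c < n` with `k 0 + ... + k c ≤ j` -/
def site (n : ℕ) (k : ℕ → ℕ) {K : ℕ} (j : Fin K) : ℤ :=
  (((Finset.range n).filter (fun c => ∑ t ∈ Finset.range (c + 1), k t ≤ (j : ℕ))).card : ℤ)

end Pool.Agent.Lib.Primc
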