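import Pool.Agent.Lib.Primc.Assem
import Pool.Agent.Lib.Primc.TargetA

/-! # Translation to the frozen form -/

namespace Pool.Agent.Lib.Primc

open Finset Filter Topology

/-- partial sums -/
def Sk (k : ℕ → ℕ) (c : ℕ) : ℕ := ∑ t ∈ Finset.range c, k t

theorem Sk_mono (k : ℕ → ℕ) : Monotone (Sk k) := by
  intro a b h
  unfold Sk
  exact Finset.sum_le_sum_of_subset (Finset.range_mono h)

/-- natural number version of `site` -/
def siteN (n : ℕ) (k : ℕ → ℕ) (x : ℕ) : ℕ :=
  ((Finset.range n).filter (fun c => Sk k (c + 1) ≤ x)).card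

theorem siteN_le (n : ℕ) (k : ℕ → ℕ) (x : ℕ) : siteN n k x ≤ n := by
  unfold siteN
  have := Finset.card_filter_le (Finset.range n) (fun c => Sk k (c + 1) ≤ x)
  simpa using this

theorem siteN_mono (n : ℕ) (k : ℕ → ℕ) : Monotone (siteN n k) := by
  intro x y h
  unfold siteN
  apply Finset.card_le_card
  intro c hc
  rw [Finset.mem_filter] at hc ⊢
  exact ⟨hc.1, le_trans hc.2 h⟩

theorem site_eq (n : ℕ) (k : ℕ → ℕ) {K : ℕ} (j : Fin K) : site n k j = (siteN n k (j : ℕ) : ℤ) := rfl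

theorem valid_site (n : ℕ) (k : ℕ → ℕ) (K : ℕ) : Valid n 0 (site n k : Fin K → ℤ) := by
  refine ⟨?_, ?_⟩
  · intro i j hij
    rw [site_eq, site_eq]
    exact_mod_cast siteN_mono n k (by omega : (i : ℕ) ≤ j)
  · intro j
    rw [site_eq]
    have := siteN_le n k (j : ℕ)
    push_cast
    constructor <;> omega

/-- shifted starting positions -/
def bN (n : ℕ) (k : ℕ → ℕ) (K : ℕ) (i : Fin K) : ℕ := siteN n k (i : ℕ) + i

/-- complementary positions -/
def eN (n : ℕ) (k : ℕ → ℕ) (c : Fin n) : ℕ := Sk k ((c : ℕ) + 1) + c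

theorem bN_strictMono (n : ℕ) (k : ℕ → ℕ) (K : ℕ) : StrictMono (bN n k K) := by
  intro i j h
  have h1 : (i : ℕ) < j := h
  have h2 := siteN_mono n k h1.le
  unfold bN
  omega

theorem eN_strictMono (n : ℕ) (k : ℕ → ℕ) : StrictMono (eN n k) := by
  intro i j h
  have h1 : (i : ℕ) < j := h
  have h2 := Sk_mono k (by omega : (i : ℕ) + 1 ≤ (j : ℕ) + 1)
  unfold eN
  omega

theorem bN_ne_eN (n : ℕ) (k : ℕ → ℕ) (K : ℕ) (i : Fin K) (c : Fin n) : bN n k K i ≠ eN n k c := by
  unfold bN eN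
  rcases Nat.lt_or_ge (i : ℕ) (Sk k ((c : ℕ) + 1)) with h | h
  · have h1 : siteN n k (i : ℕ) ≤ c := by
      unfold siteN
      have : (Finset.range n).filter (fun c' => Sk k (c' + 1) ≤ (i : ℕ)) ⊆ Finset.range c := by
        intro c' hc'
        rw [Finset.mem_filter] at hc'
        rw [Finset.mem_range]
        by_contra hcon
        push Not at hcon
        have := Sk_mono k (by omega : (c : ℕ) + 1 ≤ c' + 1)
        omega
      have := Finset.card_le_card this
      simpa using this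
    omega
  · have h1 : (c : ℕ) + 1 ≤ siteN n k (i : ℕ) := by
      unfold siteN
      have : Finset.range ((c : ℕ) + 1)
          ⊆ (Finset.range n).filter (fun c' => Sk k (c' + 1) ≤ (i : ℕ)) := by
        intro c' hc'
        rw [Finset.mem_range] at hc'
        rw [Finset.mem_filter, Finset.mem_range]
        refine ⟨by have := c.2; omega, ?_⟩
        have := Sk_mono k (by omega : c' + 1 ≤ (c : ℕ) + 1)
        omega
      have := Finset.card_le_card this
      simpa using this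
    omega

theorem thh_symm (M : ℕ) (q : ℂ) (x : ℕ) (hx : x ≤ M) : thh M q (M - x) = thh M q x := by
  unfold thh
  apply tprod_congr
  intro r
  rw [Nat.sub_sub_self hx, mul_comm]

/-- reindexing of the double product -/
theorem prod_Icc_Ioc (n : ℕ) (f : ℕ → ℕ → ℂ) :
    ∏ i ∈ Finset.Icc 1 n, ∏ j ∈ Finset.Ioc i n, f i j
      = ∏ c : Fin n, ∏ d ∈ Finset.Ioi c, f ((c : ℕ) + 1) ((d : ℕ) + 1) := by
  have h1 : ∏ i ∈ Finset.Icc 1 n, ∏ j ∈ Finset.Ioc i n, f i j
      = ∏ c ∈ Finset.range n, ∏ j ∈ Finset.Ioc (c + 1) n, f (c + 1) j := by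
    apply Finset.prod_nbij' (fun i => i - 1) (fun c => c + 1)
    · intro i hi
      rw [Finset.mem_Icc] at hi
      rw [Finset.mem_range]; omega
    · intro c hc
      rw [Finset.mem_range] at hc
      rw [Finset.mem_Icc]; omega
    · intro i hi
      rw [Finset.mem_Icc] at hi
      omega
    · intro c _
      omega
    · intro i hi
      rw [Finset.mem_Icc] at hi
      have : i - 1 + 1 = i := by omega
      rw [this]
  rw [h1, Finset.prod_range]
  apply Finset.prod_congr rfl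
  intro c _
  symm
  apply Finset.prod_bij (fun (d : Fin n) _ => (d : ℕ) + 1)
  · intro d hd
    have h2' : c < d := Finset.mem_Ioi.mp hd
    have h2 : (c : ℕ) < d := h2'
    rw [Finset.mem_Ioc]
    have := d.2
    omega
  · intro d _ d' _ h
    exact Fin.ext (by omega)
  · intro j hj
    rw [Finset.mem_Ioc] at hj
    refine ⟨⟨j - 1, by omega⟩, ?_, ?_⟩
    · rw [Finset.mem_Ioi]
      show (c : ℕ) < j - 1
      omega
    · simp only; omega
  · intro d _
    rfl

theorem sum_Icc_eq (n : ℕ) (k : ℕ → ℕ) (i : ℕ) (hi : i ≤ n + 1) :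
    Sk k i + ∑ t ∈ Finset.Icc i n, k t = Sk k (n + 1) := by
  have h1 : Finset.Icc i n = Finset.Ico i (n + 1) := by
    ext x; simp only [Finset.mem_Icc, Finset.mem_Ico]; omega
  rw [h1]
  exact Finset.sum_range_add_sum_Ico k hi

/-- the product side of the frozen statement -/
theorem rhs_eq (n : ℕ) (k : ℕ → ℕ) (q : ℂ) :
    ((∏' j : ℕ, (1 - q^((2*(∑ t ∈ Finset.range (n+1), k t) + 2*n)*(j+1))))^n
        / ((∏' j : ℕ, (1 - q^(2*(j+1)))) * (∏' j : ℕ, (1 - q^(j+1)))^(n-1))
        * ∏ i ∈ Finset.Icc 1 n, ∏ j ∈ Finset.Ioc i n,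
          ((∏' r : ℕ, ((1 - q^(((∑ t ∈ Finset.Icc i n, k t) - (∑ t ∈ Finset.Icc j n, k t) + (j - i))
                  + (2*(∑ t ∈ Finset.range (n+1), k t) + 2*n)*r))
              * (1 - q^((2*(∑ t ∈ Finset.range (n+1), k t) + 2*n)
                  - ((∑ t ∈ Finset.Icc i n, k t) - (∑ t ∈ Finset.Icc j n, k t) + (j - i))
                  + (2*(∑ t ∈ Finset.range (n+1), k t) + 2*n)*r))))
          * (∏' r : ℕ, ((1 - q^(((∑ t ∈ Finset.Icc i n, k t) + (∑ t ∈ Finset.Icc j n, k t) + (2*n+1 - (i+j)))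
                  + (2*(∑ t ∈ Finset.range (n+1), k t) + 2*n)*r))
              * (1 - q^((2*(∑ t ∈ Finset.range (n+1), k t) + 2*n)
                  - ((∑ t ∈ Finset.Icc i n, k t) + (∑ t ∈ Finset.Icc j n, k t) + (2*n+1 - (i+j)))
                  + (2*(∑ t ∈ Finset.range (n+1), k t) + 2*n)*r))))))
    = (qinf (q ^ (2 * (n + Sk k (n + 1))))) ^ n / (qinf (q ^ 2) * (qinf q) ^ (n - 1)) *
        ∏ i, ∏ j ∈ Finset.Ioi i, (thh (2 * (n + Sk k (n + 1))) q (eN n k j - eN n k i) *
          thh (2 * (n + Sk k (n + 1))) q (eN n k i + eN n k j + 1)) := by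
  have hM : 2*(∑ t ∈ Finset.range (n+1), k t) + 2*n = 2 * (n + Sk k (n + 1)) := by
    unfold Sk; ring
  rw [hM]
  set M := 2 * (n + Sk k (n + 1)) with hMdef
  congr 1
  · unfold qinf
    congr 1
    · congr 1
      apply tprod_congr
      intro j
      rw [← pow_mul]
    · congr 1
      apply tprod_congr
      intro j
      rw [← pow_mul]
  · rw [prod_Icc_Ioc n (fun i j => (∏' r : ℕ, ((1 - q^(((∑ t ∈ Finset.Icc i n, k t) - (∑ t ∈ Finset.Icc j n, k t) + (j - i))
                  + M*r))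
              * (1 - q^(M
                  - ((∑ t ∈ Finset.Icc i n, k t) - (∑ t ∈ Finset.Icc j n, k t) + (j - i))
                  + M*r))))
          * (∏' r : ℕ, ((1 - q^(((∑ t ∈ Finset.Icc i n, k t) + (∑ t ∈ Finset.Icc j n, k t) + (2*n+1 - (i+j)))
                  + M*r))
              * (1 - q^(M
                  - ((∑ t ∈ Finset.Icc i n, k t) + (∑ t ∈ Finset.Icc j n, k t) + (2*n+1 - (i+j)))
                  + M*r)))))]
    apply Finset.prod_congr rfl
    intro c _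
    apply Finset.prod_congr rfl
    intro d hd
    have hcd' : c < d := Finset.mem_Ioi.mp hd
    have hcd : (c : ℕ) < d := hcd'
    have hc := c.2
    have hdn := d.2
    have h1 := sum_Icc_eq n k ((c : ℕ) + 1) (by omega)
    have h2 := sum_Icc_eq n k ((d : ℕ) + 1) (by omega)
    have h3 := Sk_mono k (by omega : (c : ℕ) + 1 ≤ (d : ℕ) + 1)
    have h4 := Sk_mono k (by omega : (d : ℕ) + 1 ≤ n + 1)
    have hA : (∑ t ∈ Finset.Icc ((c : ℕ) + 1) n, k t) - (∑ t ∈ Finset.Icc ((d : ℕ) + 1) n, k t)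
        + (((d : ℕ) + 1) - ((c : ℕ) + 1)) = eN n k d - eN n k c := by
      unfold eN; omega
    have hB : (∑ t ∈ Finset.Icc ((c : ℕ) + 1) n, k t) + (∑ t ∈ Finset.Icc ((d : ℕ) + 1) n, k t)
        + (2*n+1 - (((c : ℕ) + 1) + ((d : ℕ) + 1))) = M - (eN n k c + eN n k d + 1) := by
      unfold eN; omega
    have hle : eN n k c + eN n k d + 1 ≤ M := by
      unfold eN; omega
    rw [hA, hB]
    have e1 : (∏' r : ℕ, ((1 - q ^ (eN n k d - eN n k c + M * r)) *
        (1 - q ^ (M - (eN n k d - eN n k c) + M * r)))) = thh M q (eN n k d - eN n k c) := rfl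
    have e2 : (∏' r : ℕ, ((1 - q ^ (M - (eN n k c + eN n k d + 1) + M * r)) *
        (1 - q ^ (M - (M - (eN n k c + eN n k d + 1)) + M * r))))
        = thh M q (eN n k c + eN n k d + 1) := thh_symm M q _ hle
    rw [e1, e2]

theorem eN_lt (n : ℕ) (k : ℕ → ℕ) (c : Fin n) : eN n k c < n + Sk k (n + 1) := by
  have := Sk_mono k (by have := c.2; omega : (c : ℕ) + 1 ≤ n + 1)
  have := c.2
  unfold eN
  omega

theorem bN_lt (n : ℕ) (k : ℕ → ℕ) (K : ℕ) (i : Fin K) : bN n k K i < n + K := by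
  have := siteN_le n k (i : ℕ)
  have := i.2
  unfold bN
  omega

/-- the case `q ≠ 0` -/
theorem final_ne_zero (n : ℕ) (hn : 1 ≤ n) (k : ℕ → ℕ) (q : ℂ) (hq0 : q ≠ 0) (hq1 : ‖q‖ < 1) :
    HasSum (fun N : ℕ => (((arrays n k N).ncard : ℕ) : ℂ) * q ^ N)
      ((qinf (q ^ (2 * (n + Sk k (n + 1))))) ^ n / (qinf (q ^ 2) * (qinf q) ^ (n - 1)) *
        ∏ i, ∏ j ∈ Finset.Ioi i, (thh (2 * (n + Sk k (n + 1))) q (eN n k j - eN n k i) *
          thh (2 * (n + Sk k (n + 1))) q (eN n k i + eN n k j + 1))) := by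
  have hval : Valid n 0 (site n k : Fin (∑ t ∈ Finset.range (n + 1), k t) → ℤ) := valid_site n k _
  have hz : ZZ q n (site n k : Fin (∑ t ∈ Finset.range (n + 1), k t) → ℤ)
      = ((qinf (q ^ (2 * (n + Sk k (n + 1))))) ^ n / (qinf (q ^ 2) * (qinf q) ^ (n - 1)) *
        ∏ i, ∏ j ∈ Finset.Ioi i, (thh (2 * (n + Sk k (n + 1))) q (eN n k j - eN n k i) *
          thh (2 * (n + Sk k (n + 1))) q (eN n k i + eN n k j + 1))) :=
    ZZ_product hq0 hq1 hn (site n k : Fin (∑ t ∈ Finset.range (n + 1), k t) → ℤ)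
    (bN n k _) (fun i => by unfold bpos bN; rw [site_eq]; push_cast; rfl) (bN_strictMono n k _)
    (bN_lt n k _) (eN n k) (eN_strictMono n k) (eN_lt n k) (bN_ne_eN n k _)
  rw [← hz]
  apply hasSum_of_card hq0 hq1 hn _ hval
  intro N
  filter_upwards [Filter.eventually_ge_atTop (N + 2 * n)] with T hT
  rw [card_arrays n hn k N T (by omega)]
  rfl

end Pool.Agent.Lib.Primc
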