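import Pool.Agent.Lib.Primc.HH

/-! # The source functions -/

namespace Pool.Agent.Lib.Primc

open Finset

/-- exponent of the images -/
def expo (N : ℕ) (b y : ℤ) : ℤ := ((y - b) * (y + b + 1)) / (2 * N)

/-- the antisymmetric quasi-periodic extension of the unit mass at `b` -/
noncomputable def gfun (q : ℂ) (K N : ℕ) (b y : ℤ) : ℂ :=
  if (2 * (N : ℤ)) ∣ y - b then q ^ (((K : ℤ) + 1) * expo N b y)
  else if (2 * (N : ℤ)) ∣ y + b + 1 then -(q ^ (((K : ℤ) + 1) * expo N b y)) else 0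

theorem not_both {N : ℕ} {b y : ℤ} (h1 : (2 * (N : ℤ)) ∣ y - b) (h2 : (2 * (N : ℤ)) ∣ y + b + 1) :
    False := by
  obtain ⟨m, hm⟩ := h1
  obtain ⟨m', hm'⟩ := h2
  have : 2 * (b + (N : ℤ) * m - N * m') = -1 := by linarith
  omega

theorem expo_spec {N : ℕ} (b y : ℤ)
    (h : (2 * (N : ℤ)) ∣ y - b ∨ (2 * (N : ℤ)) ∣ y + b + 1) :
    2 * (N : ℤ) * expo N b y = (y - b) * (y + b + 1) := by
  have hd : (2 * (N : ℤ)) ∣ (y - b) * (y + b + 1) := by
    rcases h with h | h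
    · exact Dvd.dvd.mul_right h _
    · exact Dvd.dvd.mul_left h _
  exact Int.mul_ediv_cancel' hd

theorem gfun_left (q : ℂ) (K N : ℕ) (b v : ℤ) :
    gfun q K N b (-1 - v) * q ^ (-((0 : ℤ) * (-1 - v))) = -(gfun q K N b v * q ^ (-((0 : ℤ) * v))) := by
  simp only [zero_mul, neg_zero, zpow_zero, mul_one]
  unfold gfun
  have e1 : expo N b (-1 - v) = expo N b v := by
    unfold expo; congr 1; ring
  have d1 : (2 * (N : ℤ)) ∣ -1 - v - b ↔ (2 * (N : ℤ)) ∣ v + b + 1 := by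
    rw [← dvd_neg]; congr! 1; ring
  have d2 : (2 * (N : ℤ)) ∣ -1 - v + b + 1 ↔ (2 * (N : ℤ)) ∣ v - b := by
    rw [← dvd_neg]; congr! 1; ring
  rw [e1]
  simp only [d1, d2]
  by_cases h1 : (2 * (N : ℤ)) ∣ v - b
  · have h2 : ¬ (2 * (N : ℤ)) ∣ v + b + 1 := fun h => not_both h1 h
    rw [if_neg h2, if_pos h1, if_pos h1]
  · rw [if_neg h1]
    by_cases h2 : (2 * (N : ℤ)) ∣ v + b + 1
    · rw [if_pos h2, if_neg h1, if_pos h2, neg_neg]
    · rw [if_neg h2, if_neg h1, if_neg h2, neg_zero]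

theorem gfun_right {q : ℂ} (hq : q ≠ 0) (K : ℕ) {N : ℕ} (hN : 1 ≤ N) (b v : ℤ) :
    gfun q K N b (2 * N - 1 - v) * q ^ (-(((K : ℤ) + 1) * (2 * N - 1 - v)))
      = -(gfun q K N b v * q ^ (-(((K : ℤ) + 1) * v))) := by
  have d1 : (2 * (N : ℤ)) ∣ 2 * N - 1 - v - b ↔ (2 * (N : ℤ)) ∣ v + b + 1 := by
    have : (2 * (N : ℤ) - 1 - v - b) = 2 * (N : ℤ) * 1 - (v + b + 1) := by ring
    rw [this]
    exact dvd_sub_right (Dvd.intro _ rfl)
  have d2 : (2 * (N : ℤ)) ∣ 2 * N - 1 - v + b + 1 ↔ (2 * (N : ℤ)) ∣ v - b := by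
    have : (2 * (N : ℤ) - 1 - v + b + 1) = 2 * (N : ℤ) * 1 - (v - b) := by ring
    rw [this]
    exact dvd_sub_right (Dvd.intro _ rfl)
  have key : ((2 * (N : ℤ)) ∣ v - b ∨ (2 * (N : ℤ)) ∣ v + b + 1) →
      expo N b (2 * N - 1 - v) = expo N b v + (2 * N - 1 - 2 * v) := by
    intro h
    have h1 := expo_spec b v h
    have h2 := expo_spec (N := N) b (2 * N - 1 - v) (by rw [d1, d2]; exact h.symm)
    have hN' : (2 * (N : ℤ)) ≠ 0 := by positivity
    apply mul_left_cancel₀ hN'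
    linear_combination h2 - h1
  unfold gfun
  simp only [d1, d2]
  by_cases h1 : (2 * (N : ℤ)) ∣ v - b
  · have h2 : ¬ (2 * (N : ℤ)) ∣ v + b + 1 := fun h => not_both h1 h
    rw [if_neg h2, if_pos h1, if_pos h1, key (Or.inl h1), neg_mul, ← zpow_add₀ hq, ← zpow_add₀ hq]
    congr 2; ring
  · rw [if_neg h1]
    by_cases h2 : (2 * (N : ℤ)) ∣ v + b + 1
    · rw [if_pos h2, if_neg h1, if_pos h2, key (Or.inr h2), neg_mul, neg_neg, ← zpow_add₀ hq,
        ← zpow_add₀ hq]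
      congr 1; ring
    · rw [if_neg h2, if_neg h1, if_neg h2]; simp

theorem gfun_init (q : ℂ) (K N : ℕ) (b v : ℤ) (hb0 : 0 ≤ b) (hbN : b < N) (hv0 : 0 ≤ v)
    (hvN : v < N) : gfun q K N b v = if v = b then 1 else 0 := by
  unfold gfun
  by_cases h : v = b
  · subst h
    simp [expo]
  · rw [if_neg h, if_neg, if_neg]
    · intro hd
      have := Int.le_of_dvd (by linarith) hd
      linarith
    · intro hd
      rcases lt_trichotomy v b with h1 | h1 | h1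
      · have hd' : (2 * (N : ℤ)) ∣ b - v := by rw [← dvd_neg]; simpa using hd
        have := Int.le_of_dvd (by linarith) hd'
        linarith
      · exact h h1
      · have := Int.le_of_dvd (by linarith) hd
        linarith

/-- left wall -/
theorem HH_left {q : ℂ} (hq : q ≠ 0) (K N : ℕ) (b : ℤ) (t : ℕ) (v : ℤ) (hv : 2 * v = t - 1) :
    HH q (gfun q K N b) t 0 v = 0 :=
  HH_wall hq (gfun q K N b) (-1) 0 (fun v => gfun_left q K N b v) t v (by linarith)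

/-- right wall -/
theorem HH_right {q : ℂ} (hq : q ≠ 0) (K : ℕ) {N : ℕ} (hN : 1 ≤ N) (b : ℤ) (t : ℕ) (v : ℤ)
    (hv : 2 * v = 2 * N - 1 + t) : HH q (gfun q K N b) t ((K : ℤ) + 1) v = 0 :=
  HH_wall hq (gfun q K N b) (2 * N - 1) ((K : ℤ) + 1) (fun v => gfun_right hq K hN b v) t v hv

end Pool.Agent.Lib.Primc
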