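import Pool.Agent.Lib.Primc.Defs

/-! # Gaussian binomials at a complex number -/

namespace Pool.Agent.Lib.Primc

open Finset Filter Topology

/-- Gaussian binomial coefficient, second argument an integer -/
noncomputable def gb (q : ℂ) : ℕ → ℤ → ℂ
  | 0, d => if d = 0 then 1 else 0
  | t + 1, d => gb q t d + q ^ ((t : ℤ) + 1 - d) * gb q t (d - 1)

theorem gb_zero (q : ℂ) (d : ℤ) : gb q 0 d = if d = 0 then 1 else 0 := rfl

theorem gb_succ (q : ℂ) (t : ℕ) (d : ℤ) :
    gb q (t + 1) d = gb q t d + q ^ ((t : ℤ) + 1 - d) * gb q t (d - 1) := rfl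

theorem gb_neg (q : ℂ) (t : ℕ) : ∀ d : ℤ, d < 0 → gb q t d = 0 := by
  induction t with
  | zero => intro d hd; rw [gb_zero, if_neg (by omega)]
  | succ t ih => intro d hd; rw [gb_succ, ih d hd, ih (d - 1) (by omega)]; simp

theorem gb_gt (q : ℂ) (t : ℕ) : ∀ d : ℤ, (t : ℤ) < d → gb q t d = 0 := by
  induction t with
  | zero => intro d hd; rw [gb_zero, if_neg (by push_cast at hd; omega)]
  | succ t ih =>
    intro d hd
    push_cast at hd
    rw [gb_succ, ih d (by omega), ih (d - 1) (by omega)]; simp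

/-- finite product of `1 - q^(i+1)` -/
noncomputable def pq (q : ℂ) (m : ℕ) : ℂ := ∏ i ∈ Finset.range m, (1 - q ^ (i + 1))

theorem pq_zero (q : ℂ) : pq q 0 = 1 := by simp [pq]

theorem pq_succ (q : ℂ) (m : ℕ) : pq q (m + 1) = pq q m * (1 - q ^ (m + 1)) := by
  unfold pq; rw [Finset.prod_range_succ]

theorem gb_mul (q : ℂ) : ∀ (t a b : ℕ), a + b = t → gb q t a * (pq q a * pq q b) = pq q t := by
  intro t
  induction t with
  | zero =>
    intro a b h
    have ha : a = 0 := by omega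
    have hb : b = 0 := by omega
    subst ha; subst hb
    simp [gb_zero, pq_zero]
  | succ t ih =>
    intro a b h
    rcases Nat.eq_zero_or_pos a with ha | ha
    · subst ha
      have hb : b = t + 1 := by omega
      subst hb
      rw [gb_succ, gb_neg q t (((0 : ℕ) : ℤ) - 1) (by simp)]
      have h0 := ih 0 t (by omega)
      rw [pq_zero, one_mul] at h0 ⊢
      rw [pq_succ]
      linear_combination (1 - q ^ (t + 1)) * h0
    · obtain ⟨a, rfl⟩ : ∃ a', a = a' + 1 := ⟨a - 1, by omega⟩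
      rcases Nat.eq_zero_or_pos b with hb | hb
      · subst hb
        have hat : a = t := by omega
        subst hat
        rw [gb_succ, gb_gt q a ((a + 1 : ℕ) : ℤ) (by push_cast; omega)]
        have h0 := ih a 0 (by omega)
        rw [pq_zero, mul_one] at h0 ⊢
        have e1 : ((a + 1 : ℕ) : ℤ) - 1 = (a : ℤ) := by push_cast; ring
        have e2 : (a : ℤ) + 1 - ((a + 1 : ℕ) : ℤ) = 0 := by push_cast; ring
        rw [e1, e2, zpow_zero, pq_succ]
        linear_combination (1 - q ^ (a + 1)) * h0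
      · obtain ⟨b, rfl⟩ : ∃ b', b = b' + 1 := ⟨b - 1, by omega⟩
        have h1 := ih (a + 1) b (by omega)
        have h2 := ih a (b + 1) (by omega)
        rw [gb_succ]
        have e1 : ((a + 1 : ℕ) : ℤ) - 1 = (a : ℤ) := by push_cast; ring
        have e2 : (t : ℤ) + 1 - ((a + 1 : ℕ) : ℤ) = ((b + 1 : ℕ) : ℤ) := by
          have : (t : ℤ) = a + b + 1 := by exact_mod_cast (by omega : t = a + b + 1)
          rw [this]; push_cast; ring
        rw [e1, e2, zpow_natCast, pq_succ q t]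
        have ht : t + 1 = (a + 1) + (b + 1) := by omega
        rw [ht]
        calc (gb q t ((a + 1 : ℕ) : ℤ) + q ^ (b + 1) * gb q t (a : ℤ))
              * (pq q (a + 1) * pq q (b + 1))
            = (gb q t ((a + 1 : ℕ) : ℤ) * (pq q (a + 1) * pq q b)) * (1 - q ^ (b + 1))
              + q ^ (b + 1) * (gb q t (a : ℤ) * (pq q a * pq q (b + 1))) * (1 - q ^ (a + 1)) := by
              rw [pq_succ q b, pq_succ q a]; ring
          _ = pq q t * (1 - q ^ (a + 1 + (b + 1))) := by rw [h1, h2]; ring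

theorem summable_pow_succ {q : ℂ} (hq : ‖q‖ < 1) : Summable (fun j : ℕ => ‖q ^ (j + 1)‖) := by
  have h1 : Summable (fun j : ℕ => ‖q‖ ^ j) := summable_geometric_of_lt_one (norm_nonneg _) hq
  have h2 := h1.mul_left ‖q‖
  refine h2.congr ?_
  intro j
  rw [norm_pow, pow_succ]; ring

theorem one_sub_pow_ne_zero {q : ℂ} (hq : ‖q‖ < 1) (j : ℕ) : (1 : ℂ) - q ^ (j + 1) ≠ 0 := by
  intro h
  have h1 : q ^ (j + 1) = 1 := by linear_combination -h
  have h2 : ‖q ^ (j + 1)‖ = 1 := by rw [h1]; simp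
  rw [norm_pow] at h2
  have h3 : ‖q‖ ^ (j + 1) < 1 := pow_lt_one₀ (norm_nonneg _) hq (by omega)
  linarith

theorem multipliable_qinf {q : ℂ} (hq : ‖q‖ < 1) :
    Multipliable (fun j : ℕ => (1 - q ^ (j + 1))) := by
  have h := multipliable_one_add_of_summable (f := fun j : ℕ => -(q ^ (j + 1)))
    (by simpa using summable_pow_succ hq)
  refine h.congr ?_
  intro j
  ring

theorem tendsto_pq {q : ℂ} (hq : ‖q‖ < 1) :
    Tendsto (fun m => pq q m) atTop (𝓝 (qinf q)) :=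
  (multipliable_qinf hq).hasProd.tendsto_prod_nat

theorem qinf_ne_zero {q : ℂ} (hq : ‖q‖ < 1) : qinf q ≠ 0 := by
  have h := tprod_one_add_ne_zero_of_summable (f := fun j : ℕ => -(q ^ (j + 1)))
    (fun j => by
      have := one_sub_pow_ne_zero hq j
      rwa [← sub_eq_add_neg])
    (by simpa using summable_pow_succ hq)
  unfold qinf
  have h2 : (∏' j : ℕ, (1 - q ^ (j + 1))) = ∏' j : ℕ, (1 + -(q ^ (j + 1))) := by
    congr 1
  rw [h2]
  exact h

theorem pq_ne_zero {q : ℂ} (hq : ‖q‖ < 1) (m : ℕ) : pq q m ≠ 0 :=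
  Finset.prod_ne_zero_iff.mpr (fun i _ => one_sub_pow_ne_zero hq i)

/-- uniform bounds of the finite products -/
theorem pq_bounds {q : ℂ} (hq : ‖q‖ < 1) :
    ∃ c C : ℝ, 0 < c ∧ 0 < C ∧ ∀ m, c ≤ ‖pq q m‖ ∧ ‖pq q m‖ ≤ C := by
  have h1 : Tendsto (fun m => ‖pq q m‖) atTop (𝓝 ‖qinf q‖) := (tendsto_pq hq).norm
  have hpos : 0 < ‖qinf q‖ := norm_pos_iff.mpr (qinf_ne_zero hq)
  obtain ⟨C, hC⟩ := h1.bddAbove_range
  have h2 : Tendsto (fun m => ‖pq q m‖⁻¹) atTop (𝓝 ‖qinf q‖⁻¹) := h1.inv₀ (ne_of_gt hpos)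
  obtain ⟨D, hD⟩ := h2.bddAbove_range
  have hD' : ∀ m, ‖pq q m‖⁻¹ ≤ D := fun m => hD ⟨m, rfl⟩
  have hC' : ∀ m, ‖pq q m‖ ≤ C := fun m => hC ⟨m, rfl⟩
  have hp : ∀ m, 0 < ‖pq q m‖ := fun m => norm_pos_iff.mpr (pq_ne_zero hq m)
  have hDpos : 0 < D := lt_of_lt_of_le (inv_pos.mpr (hp 0)) (hD' 0)
  refine ⟨D⁻¹, C, inv_pos.mpr hDpos, lt_of_lt_of_le (hp 0) (hC' 0), ?_⟩
  intro m
  refine ⟨?_, hC' m⟩
  rw [inv_le_comm₀ hDpos (hp m)]
  exact hD' m

theorem gb_eq {q : ℂ} (hq : ‖q‖ < 1) (t a b : ℕ) (h : a + b = t) :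
    gb q t a = pq q t / (pq q a * pq q b) := by
  rw [eq_div_iff (mul_ne_zero (pq_ne_zero hq a) (pq_ne_zero hq b))]
  exact gb_mul q t a b h

theorem gb_bounded {q : ℂ} (hq : ‖q‖ < 1) : ∃ B : ℝ, 0 < B ∧ ∀ (t : ℕ) (d : ℤ), ‖gb q t d‖ ≤ B := by
  obtain ⟨c, C, hc, hC, h⟩ := pq_bounds hq
  refine ⟨C / (c * c), by positivity, ?_⟩
  intro t d
  rcases lt_or_ge d 0 with hd | hd
  · rw [gb_neg q t d hd, norm_zero]; positivity
  rcases lt_or_ge (t : ℤ) d with hd2 | hd2
  · rw [gb_gt q t d hd2, norm_zero]; positivity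
  obtain ⟨a, rfl⟩ : ∃ a : ℕ, d = a := ⟨d.toNat, by omega⟩
  have hab : a + (t - a) = t := by omega
  rw [gb_eq hq t a (t - a) hab, norm_div, norm_mul]
  have h1 := h t
  have h2 := h a
  have h3 := h (t - a)
  apply div_le_div₀ hC.le h1.2 (by positivity)
  exact mul_le_mul h2.1 h3.1 hc.le (le_trans hc.le h2.1)

theorem gb_tendsto {q : ℂ} (hq : ‖q‖ < 1) (T : ℕ → ℕ) (d : ℕ → ℤ)
    (h1 : Tendsto d atTop atTop) (h2 : Tendsto (fun m => (T m : ℤ) - d m) atTop atTop) :
    Tendsto (fun m => gb q (T m) (d m)) atTop (𝓝 (1 / qinf q)) := by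
  have hq0 := qinf_ne_zero hq
  have ha : Tendsto (fun m => (d m).toNat) atTop atTop := by
    rw [tendsto_atTop] at h1 ⊢
    intro x
    filter_upwards [h1 x] with m hm
    omega
  have hb : Tendsto (fun m => ((T m : ℤ) - d m).toNat) atTop atTop := by
    rw [tendsto_atTop] at h2 ⊢
    intro x
    filter_upwards [h2 x] with m hm
    omega
  have hT : Tendsto T atTop atTop := by
    rw [tendsto_atTop] at h1 h2 ⊢
    intro x
    filter_upwards [h1 x, h2 0] with m hm hm2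
    omega
  have hlim : Tendsto (fun m => pq q (T m) /
      (pq q (d m).toNat * pq q ((T m : ℤ) - d m).toNat)) atTop
      (𝓝 (qinf q / (qinf q * qinf q))) :=
    ((tendsto_pq hq).comp hT).div (((tendsto_pq hq).comp ha).mul ((tendsto_pq hq).comp hb))
      (mul_ne_zero hq0 hq0)
  have he : qinf q / (qinf q * qinf q) = 1 / qinf q := by
    field_simp
  rw [he] at hlim
  refine hlim.congr' ?_
  rw [tendsto_atTop] at h1 h2
  filter_upwards [h1 0, h2 0] with m hm1 hm2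
  have hd : ((d m).toNat : ℤ) = d m := by omega
  have := gb_eq hq (T m) (d m).toNat ((T m : ℤ) - d m).toNat (by omega)
  rw [hd] at this
  exact this.symm

end Pool.Agent.Lib.Primc
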