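import Pool.Agent.Lib.Primc.Defs

/-! # The one-walker functions `HH` -/

namespace Pool.Agent.Lib.Primc

open Finset

/-- one-walker generating functions -/
noncomputable def HH (q : ℂ) (g : ℤ → ℂ) : ℕ → ℤ → ℤ → ℂ
  | 0, e, v => g v * q ^ (-(e * v))
  | t + 1, e, v => HH q g t e v + q ^ ((t : ℤ) + 1 - v) * HH q g t (e - 1) (v - 1)

theorem HH_zero (q : ℂ) (g : ℤ → ℂ) (e v : ℤ) : HH q g 0 e v = g v * q ^ (-(e * v)) := rfl

theorem HH_succ (q : ℂ) (g : ℤ → ℂ) (t : ℕ) (e v : ℤ) :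
    HH q g (t + 1) e v = HH q g t e v + q ^ ((t : ℤ) + 1 - v) * HH q g t (e - 1) (v - 1) := rfl

/-- the second Pascal recursion -/
theorem HH_succ' {q : ℂ} (hq : q ≠ 0) (g : ℤ → ℂ) (t : ℕ) : ∀ (e v : ℤ),
    HH q g (t + 1) e v = q ^ v * HH q g t (e + 1) v + HH q g t e (v - 1) := by
  induction t with
  | zero =>
    intro e v
    rw [HH_succ, HH_zero, HH_zero, HH_zero, HH_zero]
    have h1 : q ^ v * (g v * q ^ (-((e + 1) * v))) = g v * q ^ (-(e * v)) := by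
      rw [mul_left_comm, ← zpow_add₀ hq]
      congr 2; ring
    have h2 : q ^ (((0 : ℕ) : ℤ) + 1 - v) * (g (v - 1) * q ^ (-((e - 1) * (v - 1))))
        = g (v - 1) * q ^ (-(e * (v - 1))) := by
      rw [mul_left_comm, ← zpow_add₀ hq]
      congr 2; push_cast; ring
    rw [h1, h2]
  | succ t ih =>
    intro e v
    rw [HH_succ q g (t + 1) e v, ih e v, ih (e - 1) (v - 1), HH_succ q g t (e + 1) v,
      HH_succ q g t e (v - 1)]
    have h1 : q ^ (((t + 1 : ℕ) : ℤ) + 1 - v) * q ^ (v - 1) = q ^ ((t : ℤ) + 1) := by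
      rw [← zpow_add₀ hq]; congr 1; push_cast; ring
    have h2 : q ^ v * q ^ ((t : ℤ) + 1 - v) = q ^ ((t : ℤ) + 1) := by
      rw [← zpow_add₀ hq]; congr 1; ring
    have h3 : q ^ (((t + 1 : ℕ) : ℤ) + 1 - v) = q ^ ((t : ℤ) + 1 - (v - 1)) := by
      congr 1; push_cast; ring
    have e1 : e - 1 + 1 = e := by ring
    have e2 : e + 1 - 1 = e := by ring
    rw [e1, e2]
    calc _ = q ^ v * HH q g t (e + 1) v + HH q g t e (v - 1)
          + (q ^ (((t + 1 : ℕ) : ℤ) + 1 - v) * q ^ (v - 1)) * HH q g t e (v - 1)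
          + q ^ (((t + 1 : ℕ) : ℤ) + 1 - v) * HH q g t (e - 1) (v - 1 - 1) := by ring
      _ = q ^ v * HH q g t (e + 1) v + HH q g t e (v - 1)
          + (q ^ v * q ^ ((t : ℤ) + 1 - v)) * HH q g t e (v - 1)
          + q ^ ((t : ℤ) + 1 - (v - 1)) * HH q g t (e - 1) (v - 1 - 1) := by rw [h1, h2, h3]
      _ = _ := by ring

/-- reflection -/
theorem HH_reflect {q : ℂ} (hq : q ≠ 0) (g : ℤ → ℂ) (c κ : ℤ)
    (hg : ∀ v : ℤ, g (c - v) * q ^ (-(κ * (c - v))) = -(g v * q ^ (-(κ * v)))) (t : ℕ) :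
    ∀ (e v : ℤ), HH q g t (κ + e) (c + t - v) = -(q ^ (-(e * c)) * HH q g t (κ - e) v) := by
  induction t with
  | zero =>
    intro e v
    rw [HH_zero, HH_zero]
    have h1 : q ^ (-((κ + e) * (c + ((0 : ℕ) : ℤ) - v)))
        = q ^ (-(κ * (c - v))) * q ^ (-(e * (c - v))) := by
      rw [← zpow_add₀ hq]; congr 1; push_cast; ring
    have h0 : c + ((0 : ℕ) : ℤ) - v = c - v := by push_cast; ring
    have h2 : q ^ (-((κ - e) * v)) = q ^ (-(κ * v)) * q ^ (e * v) := by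
      rw [← zpow_add₀ hq]; congr 1; ring
    have h3 : q ^ (-(e * (c - v))) = q ^ (-(e * c)) * q ^ (e * v) := by
      rw [← zpow_add₀ hq]; congr 1; ring
    rw [h1, h0, h2, h3, ← mul_assoc, hg v]
    ring
  | succ t ih =>
    intro e v
    rw [HH_succ]
    have a1 : c + ((t + 1 : ℕ) : ℤ) - v = c + t - (v - 1) := by push_cast; ring
    have a2 : c + ((t + 1 : ℕ) : ℤ) - v - 1 = c + t - v := by push_cast; ring
    have a3 : (t : ℤ) + 1 - (c + ((t + 1 : ℕ) : ℤ) - v) = v - c := by push_cast; ring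
    have a4 : κ + e - 1 = κ + (e - 1) := by ring
    rw [a2, a3, a1, a4, ih e (v - 1), ih (e - 1) v, HH_succ' hq g t (κ - e) v]
    have a5 : κ - (e - 1) = κ - e + 1 := by ring
    have a6 : q ^ (v - c) * q ^ (-((e - 1) * c)) = q ^ (-(e * c)) * q ^ v := by
      rw [← zpow_add₀ hq, ← zpow_add₀ hq]; congr 1; ring
    rw [a5]
    calc _ = -(q ^ (-(e * c)) * HH q g t (κ - e) (v - 1))
          - (q ^ (v - c) * q ^ (-((e - 1) * c))) * HH q g t (κ - e + 1) v := by ring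
      _ = _ := by rw [a6]; ring

theorem HH_wall {q : ℂ} (hq : q ≠ 0) (g : ℤ → ℂ) (c κ : ℤ)
    (hg : ∀ v : ℤ, g (c - v) * q ^ (-(κ * (c - v))) = -(g v * q ^ (-(κ * v)))) (t : ℕ) (v : ℤ)
    (hv : 2 * v = c + t) : HH q g t κ v = 0 := by
  have h := HH_reflect hq g c κ hg t 0 v
  have h1 : c + t - v = v := by linarith
  rw [h1] at h
  simp only [add_zero, sub_zero, zero_mul, neg_zero, zpow_zero, one_mul] at h
  have : HH q g t κ v + HH q g t κ v = 0 := by
    nth_rewrite 1 [h]; ring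
  have h2 : (2 : ℂ) * HH q g t κ v = 0 := by rw [two_mul]; exact this
  rcases mul_eq_zero.mp h2 with h3 | h3
  · norm_num at h3
  · exact h3

end Pool.Agent.Lib.Primc
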