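import Mathlib

/-! # Absolutely convergent Laurent series on the punctured plane -/

namespace Pool.Agent.Lib.Primc

open Finset Filter Topology

/-- `f` is given on the punctured plane by the absolutely convergent Laurent series with
coefficients `a`. -/
def LS (f : ℂ → ℂ) (a : ℤ → ℂ) : Prop :=
  ∀ s : ℂ, s ≠ 0 → (Summable fun n : ℤ => ‖a n * s ^ n‖) ∧ HasSum (fun n : ℤ => a n * s ^ n) (f s)

/-- `f` has an absolutely convergent Laurent series on the punctured plane. -/
def IsL (f : ℂ → ℂ) : Prop := ∃ a, LS f a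

theorem LS.congr {f g : ℂ → ℂ} {a : ℤ → ℂ} (h : LS f a) (hfg : ∀ s, s ≠ 0 → f s = g s) :
    LS g a := by
  intro s hs
  rw [← hfg s hs]
  exact h s hs

theorem IsL.congr {f g : ℂ → ℂ} (h : IsL f) (hfg : ∀ s, s ≠ 0 → f s = g s) : IsL g := by
  obtain ⟨a, ha⟩ := h
  exact ⟨a, ha.congr hfg⟩

/-- uniqueness of the Laurent coefficients of zero -/
theorem coeff_eq_zero {a : ℤ → ℂ} (ha : Summable fun n : ℤ => ‖a n‖)
    (h : ∀ s : ℂ, ‖s‖ = 1 → HasSum (fun n : ℤ => a n * s ^ n) 0) (k : ℤ) : a k = 0 := by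
  have hF : ∀ t : ℝ, ∀ n : ℤ, a n * Complex.exp (Complex.I * t) ^ (n - k) =
      a n * Complex.exp (((n - k : ℤ) : ℂ) * Complex.I * t) := by
    intro t n
    rw [← Complex.exp_int_mul]
    congr 2
    ring
  have h1 := intervalIntegral.hasSum_integral_of_dominated_convergence
    (μ := MeasureTheory.volume) (a := (0 : ℝ)) (b := 2 * Real.pi)
    (F := fun (n : ℤ) (t : ℝ) => a n * Complex.exp (((n - k : ℤ) : ℂ) * Complex.I * t))
    (f := fun _ => (0 : ℂ)) (bound := fun n _ => ‖a n‖)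
    (fun n => (by fun_prop : Continuous fun t : ℝ =>
      a n * Complex.exp (((n - k : ℤ) : ℂ) * Complex.I * t)).aestronglyMeasurable)
    (fun n => Filter.Eventually.of_forall fun t _ => by
      rw [norm_mul]
      have : (((n - k : ℤ) : ℂ) * Complex.I * t) = ((((n - k : ℤ) : ℝ) * t : ℝ) : ℂ) * Complex.I := by
        push_cast
        ring
      rw [this, Complex.norm_exp_ofReal_mul_I, mul_one])
    (Filter.Eventually.of_forall fun t _ => ha)
    (intervalIntegrable_const)
    (Filter.Eventually.of_forall fun t _ => by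
      have hne : Complex.exp (Complex.I * t) ≠ 0 := Complex.exp_ne_zero _
      have h2 := (h (Complex.exp (Complex.I * t)) (by
        rw [mul_comm, Complex.norm_exp_ofReal_mul_I])).mul_right
          (Complex.exp (Complex.I * t) ^ (-k))
      rw [zero_mul] at h2
      refine h2.congr_fun fun n => ?_
      rw [← hF, mul_assoc, ← zpow_add₀ hne, sub_eq_add_neg])
  rw [intervalIntegral.integral_zero] at h1
  have h2 : ∀ n : ℤ, n ≠ k → ∫ t in (0 : ℝ)..(2 * Real.pi),
      a n * Complex.exp (((n - k : ℤ) : ℂ) * Complex.I * t) = 0 := by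
    intro n hn
    have hc : (((n - k : ℤ) : ℂ) * Complex.I) ≠ 0 :=
      mul_ne_zero (Int.cast_ne_zero.2 (sub_ne_zero.2 hn)) Complex.I_ne_zero
    rw [intervalIntegral.integral_const_mul, integral_exp_mul_complex hc]
    have h3 : Complex.exp ((((n - k : ℤ) : ℂ) * Complex.I) * ((2 * Real.pi : ℝ) : ℂ)) = 1 := by
      rw [show (((n - k : ℤ) : ℂ) * Complex.I) * ((2 * Real.pi : ℝ) : ℂ)
        = ((n - k : ℤ) : ℂ) * (2 * Real.pi * Complex.I) by push_cast; ring]
      exact Complex.exp_int_mul_two_pi_mul_I _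
    rw [h3]
    simp
  have h3 := h1.unique (hasSum_single k h2)
  rw [sub_self, Int.cast_zero, zero_mul] at h3
  simp only [zero_mul, Complex.exp_zero, mul_one, intervalIntegral.integral_const, sub_zero,
    Complex.real_smul] at h3
  have h4 : ((2 * Real.pi : ℝ) : ℂ) ≠ 0 := by
    exact_mod_cast (mul_ne_zero two_ne_zero Real.pi_ne_zero)
  exact (mul_eq_zero.1 h3.symm).resolve_left h4

theorem LS.unique {f : ℂ → ℂ} {a b : ℤ → ℂ} (ha : LS f a) (hb : LS f b) : a = b := by
  funext k
  have h1 : ∀ n : ℤ, ‖a n * (1 : ℂ) ^ n‖ = ‖a n‖ := fun n => by rw [one_zpow, mul_one]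
  have h2 : ∀ n : ℤ, ‖b n * (1 : ℂ) ^ n‖ = ‖b n‖ := fun n => by rw [one_zpow, mul_one]
  have ha1 : Summable fun n : ℤ => ‖a n‖ := by
    have := (ha 1 one_ne_zero).1
    simp only [h1] at this
    exact this
  have hb1 : Summable fun n : ℤ => ‖b n‖ := by
    have := (hb 1 one_ne_zero).1
    simp only [h2] at this
    exact this
  have := coeff_eq_zero (a := fun n => a n - b n)
    (Summable.of_nonneg_of_le (fun n => norm_nonneg _) (fun n => norm_sub_le _ _) (ha1.add hb1))
    (fun s hs => by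
      have hs0 : s ≠ 0 := by
        rintro rfl
        simp at hs
      have := (ha s hs0).2.sub (hb s hs0).2
      rw [sub_self] at this
      refine this.congr_fun fun n => ?_
      ring) k
  exact sub_eq_zero.1 this

theorem isL_zpow (k : ℤ) : IsL fun s => s ^ k := by
  refine ⟨fun n => if n = k then 1 else 0, fun s hs => ?_⟩
  have h1 : ∀ n : ℤ, n ≠ k → (if n = k then (1 : ℂ) else 0) * s ^ n = 0 := by
    intro n hn
    rw [if_neg hn, zero_mul]
  have h2 := hasSum_single (f := fun n : ℤ => (if n = k then (1 : ℂ) else 0) * s ^ n) k h1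
  have h3 := hasSum_single (f := fun n : ℤ => ‖(if n = k then (1 : ℂ) else 0) * s ^ n‖) k
    (fun n hn => by rw [h1 n hn, norm_zero])
  refine ⟨h3.summable, ?_⟩
  simpa using h2

theorem isL_const (c : ℂ) : IsL fun _ => c := by
  refine ⟨fun n => if n = 0 then c else 0, fun s hs => ?_⟩
  have h1 : ∀ n : ℤ, n ≠ 0 → (if n = 0 then c else 0) * s ^ n = 0 := by
    intro n hn
    rw [if_neg hn, zero_mul]
  have h2 := hasSum_single (f := fun n : ℤ => (if n = 0 then c else 0) * s ^ n) 0 h1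
  have h3 := hasSum_single (f := fun n : ℤ => ‖(if n = 0 then c else 0) * s ^ n‖) 0
    (fun n hn => by rw [h1 n hn, norm_zero])
  refine ⟨h3.summable, ?_⟩
  simpa using h2

theorem IsL.scale {f : ℂ → ℂ} (hf : IsL f) {u : ℂ} (hu : u ≠ 0) : IsL fun s => f (u * s) := by
  obtain ⟨a, ha⟩ := hf
  refine ⟨fun n => a n * u ^ n, fun s hs => ?_⟩
  have h1 : ∀ n : ℤ, a n * u ^ n * s ^ n = a n * (u * s) ^ n := fun n => by
    rw [mul_zpow, mul_assoc]
  simp only [h1]
  exact ha _ (mul_ne_zero hu hs)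

theorem IsL.inv {f : ℂ → ℂ} (hf : IsL f) : IsL fun s => f s⁻¹ := by
  obtain ⟨a, ha⟩ := hf
  refine ⟨fun n => a (-n), fun s hs => ?_⟩
  have h1 : ∀ n : ℤ, a (-n) * s ^ n = (fun m : ℤ => a m * (s⁻¹) ^ m) (Equiv.neg ℤ n) := fun n => by
    simp [inv_zpow']
  have h2 := ha _ (inv_ne_zero hs)
  constructor
  · have := (Equiv.neg ℤ).summable_iff.2 h2.1
    refine this.congr fun n => ?_
    rw [h1]
    rfl
  · have := (Equiv.neg ℤ).hasSum_iff.2 h2.2
    refine this.congr_fun fun n => ?_
    rw [h1]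
    rfl

theorem IsL.sq {f : ℂ → ℂ} (hf : IsL f) : IsL fun s => f (s ^ 2) := by
  obtain ⟨a, ha⟩ := hf
  have hinj : Function.Injective fun n : ℤ => 2 * n := fun m n h => by
    have : 2 * m = 2 * n := h
    omega
  refine ⟨Function.extend (fun n : ℤ => 2 * n) a 0, fun s hs => ?_⟩
  have h1 : (fun n : ℤ => Function.extend (fun n : ℤ => 2 * n) a 0 n * s ^ n) =
      Function.extend (fun n : ℤ => 2 * n) (fun n => a n * (s ^ 2) ^ n) 0 := by
    funext n
    by_cases h : ∃ m, 2 * m = n
    · obtain ⟨m, rfl⟩ := h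
      rw [hinj.extend_apply, hinj.extend_apply]
      congr 1
      rw [zpow_mul]
      norm_cast
    · rw [Function.extend_apply' _ _ _ h, Function.extend_apply' _ _ _ h]
      simp
  have h2 := ha _ (pow_ne_zero 2 hs)
  constructor
  · have h3 : (fun n : ℤ => ‖Function.extend (fun n : ℤ => 2 * n) a 0 n * s ^ n‖) =
      Function.extend (fun n : ℤ => 2 * n) (fun n => ‖a n * (s ^ 2) ^ n‖) 0 := by
      funext n
      have := congrFun h1 n
      rw [this]
      by_cases h : ∃ m, 2 * m = n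
      · obtain ⟨m, rfl⟩ := h
        rw [hinj.extend_apply, hinj.extend_apply]
      · rw [Function.extend_apply' _ _ _ h, Function.extend_apply' _ _ _ h]
        simp
    rw [h3]
    exact (hasSum_extend_zero hinj).2 h2.1.hasSum |>.summable
  · rw [h1]
    exact (hasSum_extend_zero hinj).2 h2.2

/-- the change of indices `(n, m) ↦ (m, n - m)` -/
def convEquiv : ℤ × ℤ ≃ ℤ × ℤ where
  toFun := fun x => (x.2, x.1 - x.2)
  invFun := fun x => (x.1 + x.2, x.1)
  left_inv := fun x => by simp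
  right_inv := fun x => by simp

theorem convEquiv_apply (x : ℤ × ℤ) : convEquiv x = (x.2, x.1 - x.2) := rfl

theorem mulHS (A B : ℤ → ℂ) (x y : ℂ) (hA : Summable fun n => ‖A n‖)
    (hB : Summable fun n => ‖B n‖) (hx : HasSum A x) (hy : HasSum B y) :
    HasSum (fun z : ℤ × ℤ => A z.2 * B (z.1 - z.2)) (x * y) ∧
    Summable (fun z : ℤ × ℤ => ‖A z.2 * B (z.1 - z.2)‖) := by
  have hN := Summable.mul_norm hA hB
  have h1 := hx.mul hy hN.of_norm
  constructor
  · have h3 := (Equiv.hasSum_iff convEquiv (f := fun z : ℤ × ℤ => A z.1 * B z.2) (a := x * y)).2 h1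
    simpa only [Function.comp_def, convEquiv_apply] using h3
  · have h3 := (Equiv.summable_iff convEquiv (f := fun z : ℤ × ℤ => ‖A z.1 * B z.2‖)).2 hN
    simpa only [Function.comp_def, convEquiv_apply] using h3

theorem mulHS' (A B : ℤ → ℂ) (x y : ℂ) (hA : Summable fun n => ‖A n‖)
    (hB : Summable fun n => ‖B n‖) (hx : HasSum A x) (hy : HasSum B y) :
    (Summable fun n : ℤ => ‖∑' m, A m * B (n - m)‖) ∧
      HasSum (fun n : ℤ => ∑' m, A m * B (n - m)) (x * y) := by
  obtain ⟨h1, h2⟩ := mulHS A B x y hA hB hx hy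
  have hin : ∀ n : ℤ, Summable fun m => ‖A m * B (n - m)‖ := fun n => h2.prod_factor n
  constructor
  · exact Summable.of_nonneg_of_le (fun n => norm_nonneg _)
      (fun n => norm_tsum_le_tsum_norm (hin n)) h2.prod
  · exact h1.prod_fiberwise fun n => (hin n).of_norm.hasSum

theorem IsL.mul {f g : ℂ → ℂ} (hf : IsL f) (hg : IsL g) : IsL fun s => f s * g s := by
  obtain ⟨a, ha⟩ := hf
  obtain ⟨b, hb⟩ := hg
  refine ⟨fun n => ∑' m, a m * b (n - m), fun s hs => ?_⟩
  obtain ⟨ha1, ha2⟩ := ha s hs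
  obtain ⟨hb1, hb2⟩ := hb s hs
  have h1 := mulHS' _ _ _ _ ha1 hb1 ha2 hb2
  have h2 : ∀ n : ℤ, ∑' m, (a m * s ^ m) * (b (n - m) * s ^ (n - m)) =
      (∑' m, a m * b (n - m)) * s ^ n := by
    intro n
    rw [← tsum_mul_right]
    refine tsum_congr fun m => ?_
    have : s ^ n = s ^ m * s ^ (n - m) := by
      rw [← zpow_add₀ hs]
      congr 1
      ring
    rw [this]
    ring
  simp only [h2] at h1
  exact h1

theorem isL_prod {ι : Type*} (S : Finset ι) (f : ι → ℂ → ℂ) (h : ∀ i ∈ S, IsL (f i)) :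
    IsL fun s => ∏ i ∈ S, f i s := by
  classical
  induction S using Finset.induction_on with
  | empty => simpa using isL_const 1
  | insert i S hi ih =>
    have h1 := (h i (mem_insert_self _ _)).mul (ih fun j hj => h j (mem_insert_of_mem hj))
    refine h1.congr fun s _ => ?_
    rw [prod_insert hi]

end Pool.Agent.Lib.Primc
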