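import Pool.Agent.Lib.Primc.Defs

/-! # Summability of quadratic exponents -/

namespace Pool.Agent.Lib.Primc

open Finset Filter Topology

theorem summable_abs_int {r : ℝ} (h0 : 0 < r) (h1 : r < 1) :
    Summable (fun m : ℤ => r ^ |m|) := by
  apply Summable.of_nat_of_neg
  · have := summable_geometric_of_lt_one h0.le h1
    refine this.congr ?_
    intro n
    simp
  · have := summable_geometric_of_lt_one h0.le h1
    refine this.congr ?_
    intro n
    simp

theorem summable_quad_real {r : ℝ} (h0 : 0 < r) (h1 : r < 1) (A B C : ℤ) (hA : 1 ≤ A) :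
    Summable (fun m : ℤ => r ^ (A * m ^ 2 + B * m + C)) := by
  have hs := (summable_abs_int h0 h1).mul_left (r ^ (C - (|B| + 1) ^ 2))
  refine Summable.of_nonneg_of_le (fun m => (zpow_pos h0 _).le) ?_ hs
  intro m
  rw [← zpow_add₀ h0.ne']
  apply zpow_le_zpow_right_of_le_one₀ h0 h1.le
  have h2 : B * m ≥ -(|B| * |m|) := by
    rw [← abs_mul]; exact neg_abs_le _
  have h3 : A * m ^ 2 ≥ m ^ 2 := by nlinarith [sq_nonneg m]
  have h4 : m ^ 2 = |m| ^ 2 := (sq_abs m).symm
  have h5 : 0 ≤ |m| := abs_nonneg m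
  have h6 : 0 ≤ |B| := abs_nonneg B
  nlinarith [sq_nonneg (|m| - (|B| + 1)), mul_nonneg h5 h6]

/-- absolute summability of `q^(A m^2 + B m + C)` -/
theorem summable_quad {q : ℂ} (hq0 : q ≠ 0) (hq1 : ‖q‖ < 1) (A B C : ℤ) (hA : 1 ≤ A) :
    Summable (fun m : ℤ => ‖q ^ (A * m ^ 2 + B * m + C)‖) := by
  have := summable_quad_real (norm_pos_iff.mpr hq0) hq1 A B C hA
  refine this.congr ?_
  intro m
  rw [norm_zpow]

end Pool.Agent.Lib.Primc
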