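import Pool.Agent.Lib.Primc.NNsum
import Pool.Agent.Lib.Primc.Gauss
import Pool.Agent.Lib.Primc.Quad

/-! # Limit of the one-walker functions -/

namespace Pool.Agent.Lib.Primc

open Finset Filter Topology

theorem HH_eq_tsum {q : ℂ} (hq : q ≠ 0) (g : ℤ → ℂ) (t : ℕ) : ∀ (e v : ℤ),
    HH q g t e v = ∑' y : ℤ, g y * q ^ (-(e * y)) * gb q t (v - y) := by
  induction t with
  | zero =>
    intro e v
    rw [HH_zero, tsum_eq_single v]
    · simp [gb_zero]
    · intro y hy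
      rw [gb_zero, if_neg (by intro h; exact hy (by linarith)), mul_zero]
  | succ t ih =>
    intro e v
    have hsum : ∀ (e v : ℤ), Summable (fun y : ℤ => g y * q ^ (-(e * y)) * gb q t (v - y)) := by
      intro e v
      apply summable_of_ne_finset_zero (s := Finset.Icc (v - t) v)
      intro y hy
      rw [Finset.mem_Icc, not_and_or, not_le, not_le] at hy
      rcases hy with hy | hy
      · rw [gb_gt q t _ (by linarith), mul_zero]
      · rw [gb_neg q t _ (by linarith), mul_zero]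
    rw [HH_succ, ih e v, ih (e - 1) (v - 1), ← tsum_mul_left, ← (hsum e v).tsum_add
      ((hsum (e - 1) (v - 1)).mul_left _)]
    apply tsum_congr
    intro y
    rw [gb_succ]
    have h1 : q ^ ((t : ℤ) + 1 - v) * q ^ (-((e - 1) * y))
        = q ^ (-(e * y)) * q ^ ((t : ℤ) + 1 - (v - y)) := by
      rw [← zpow_add₀ hq, ← zpow_add₀ hq]; congr 1; ring
    have h2 : v - 1 - y = v - y - 1 := by ring
    rw [h2]
    calc _ = g y * q ^ (-(e * y)) * gb q t (v - y)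
          + g y * (q ^ ((t : ℤ) + 1 - v) * q ^ (-((e - 1) * y))) * gb q t (v - y - 1) := by ring
      _ = _ := by rw [h1]; ring

/-- first progression -/
noncomputable def F1 (q : ℂ) (K N : ℕ) (b e y : ℤ) : ℂ :=
  if (2 * (N : ℤ)) ∣ y - b then q ^ (((K : ℤ) + 1) * expo N b y - e * y) else 0

/-- second progression -/
noncomputable def F2 (q : ℂ) (K N : ℕ) (b e y : ℤ) : ℂ :=
  if (2 * (N : ℤ)) ∣ y + b + 1 then q ^ (((K : ℤ) + 1) * expo N b y - e * y) else 0

theorem gfun_eq_F {q : ℂ} (hq : q ≠ 0) (K N : ℕ) (b e y : ℤ) :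
    gfun q K N b y * q ^ (-(e * y)) = F1 q K N b e y - F2 q K N b e y := by
  unfold gfun F1 F2
  by_cases h1 : (2 * (N : ℤ)) ∣ y - b
  · have h2 : ¬ (2 * (N : ℤ)) ∣ y + b + 1 := fun h => not_both h1 h
    rw [if_pos h1, if_pos h1, if_neg h2, ← zpow_add₀ hq, sub_zero]
    congr 1
  · rw [if_neg h1, if_neg h1]
    by_cases h2 : (2 * (N : ℤ)) ∣ y + b + 1
    · rw [if_pos h2, if_pos h2, neg_mul, ← zpow_add₀ hq, zero_sub]
      congr 2
    · rw [if_neg h2, if_neg h2]; simp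

theorem F1_prog {q : ℂ} (K : ℕ) {N : ℕ} (hN : 1 ≤ N) (b e m : ℤ) :
    F1 q K N b e (b + 2 * N * m)
      = q ^ ((((K : ℤ) + 1) * (2 * N)) * m ^ 2 + (((K : ℤ) + 1) * (2 * b + 1) - e * (2 * N)) * m
        + (-(e * b))) := by
  unfold F1
  rw [if_pos (by
    have : b + 2 * (N : ℤ) * m - b = 2 * N * m := by ring
    rw [this]; exact Dvd.intro _ rfl)]
  have h1 : expo N b (b + 2 * N * m) = m * (2 * b + 1 + 2 * N * m) := by
    unfold expo
    have : (b + 2 * (N : ℤ) * m - b) * (b + 2 * N * m + b + 1)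
        = 2 * N * (m * (2 * b + 1 + 2 * N * m)) := by ring
    rw [this, Int.mul_ediv_cancel_left _ (by positivity)]
  rw [h1]
  congr 1; ring

theorem F2_prog {q : ℂ} (K : ℕ) {N : ℕ} (hN : 1 ≤ N) (b e m : ℤ) :
    F2 q K N b e (-b - 1 + 2 * N * m)
      = q ^ ((((K : ℤ) + 1) * (2 * N)) * m ^ 2 + (-(((K : ℤ) + 1) * (2 * b + 1)) - e * (2 * N)) * m
        + e * (b + 1)) := by
  unfold F2
  rw [if_pos (by
    have : -b - 1 + 2 * (N : ℤ) * m + b + 1 = 2 * N * m := by ring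
    rw [this]; exact Dvd.intro _ rfl)]
  have h1 : expo N b (-b - 1 + 2 * N * m) = m * (2 * N * m - 2 * b - 1) := by
    unfold expo
    have : (-b - 1 + 2 * (N : ℤ) * m - b) * (-b - 1 + 2 * N * m + b + 1)
        = 2 * N * (m * (2 * N * m - 2 * b - 1)) := by ring
    rw [this, Int.mul_ediv_cancel_left _ (by positivity)]
  rw [h1]
  congr 1; ring

theorem prog_inj {N : ℕ} (hN : 1 ≤ N) (c : ℤ) : Function.Injective (fun m : ℤ => c + 2 * N * m) := by
  intro m m' h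
  have h1 : 2 * (N : ℤ) * m = 2 * N * m' := by
    have : c + 2 * (N : ℤ) * m = c + 2 * N * m' := h
    linarith
  exact mul_left_cancel₀ (by positivity) h1

theorem F1_off {q : ℂ} (K : ℕ) {N : ℕ} (b e y : ℤ)
    (hy : y ∉ Set.range (fun m : ℤ => b + 2 * N * m)) : F1 q K N b e y = 0 := by
  unfold F1
  rw [if_neg]
  rintro ⟨m, hm⟩
  exact hy ⟨m, by simp only; linarith⟩

theorem F2_off {q : ℂ} (K : ℕ) {N : ℕ} (b e y : ℤ)
    (hy : y ∉ Set.range (fun m : ℤ => -b - 1 + 2 * N * m)) : F2 q K N b e y = 0 := by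
  unfold F2
  rw [if_neg]
  rintro ⟨m, hm⟩
  exact hy ⟨m, by simp only; linarith⟩

theorem hA_pos (K : ℕ) {N : ℕ} (hN : 1 ≤ N) : (1 : ℤ) ≤ ((K : ℤ) + 1) * (2 * N) := by
  have h1 : (1 : ℤ) ≤ (K : ℤ) + 1 := by omega
  have h2 : (1 : ℤ) ≤ 2 * (N : ℤ) := by omega
  nlinarith

theorem F1_summable {q : ℂ} (hq0 : q ≠ 0) (hq1 : ‖q‖ < 1) (K : ℕ) {N : ℕ} (hN : 1 ≤ N)
    (b e : ℤ) : Summable (fun y : ℤ => ‖F1 q K N b e y‖) := by
  rw [← (prog_inj hN b).summable_iff]
  · refine (summable_quad hq0 hq1 (((K : ℤ) + 1) * (2 * N))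
      (((K : ℤ) + 1) * (2 * b + 1) - e * (2 * N)) (-(e * b)) (hA_pos K hN)).congr ?_
    intro m
    simp only [Function.comp]
    rw [F1_prog K hN]
  · intro y hy
    rw [F1_off K b e y hy, norm_zero]

theorem F2_summable {q : ℂ} (hq0 : q ≠ 0) (hq1 : ‖q‖ < 1) (K : ℕ) {N : ℕ} (hN : 1 ≤ N)
    (b e : ℤ) : Summable (fun y : ℤ => ‖F2 q K N b e y‖) := by
  rw [← (prog_inj hN (-b - 1)).summable_iff]
  · refine (summable_quad hq0 hq1 (((K : ℤ) + 1) * (2 * N))
      (-(((K : ℤ) + 1) * (2 * b + 1)) - e * (2 * N)) (e * (b + 1)) (hA_pos K hN)).congr ?_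
    intro m
    simp only [Function.comp]
    rw [F2_prog K hN]
  · intro y hy
    rw [F2_off K b e y hy, norm_zero]

theorem g_summable {q : ℂ} (hq0 : q ≠ 0) (hq1 : ‖q‖ < 1) (K : ℕ) {N : ℕ} (hN : 1 ≤ N)
    (b e : ℤ) : Summable (fun y : ℤ => ‖gfun q K N b y * q ^ (-(e * y))‖) := by
  refine Summable.of_nonneg_of_le (fun _ => norm_nonneg _) ?_
    ((F1_summable hq0 hq1 K hN b e).add (F2_summable hq0 hq1 K hN b e))
  intro y
  rw [gfun_eq_F hq0]
  exact norm_sub_le _ _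

/-- the full sum of the source function -/
noncomputable def ThS (q : ℂ) (K N : ℕ) (b e : ℤ) : ℂ := ∑' y : ℤ, gfun q K N b y * q ^ (-(e * y))

theorem ThS_eq {q : ℂ} (hq0 : q ≠ 0) (hq1 : ‖q‖ < 1) (K : ℕ) {N : ℕ} (hN : 1 ≤ N) (b e : ℤ) :
    ThS q K N b e = ∑' m : ℤ,
      (q ^ ((((K : ℤ) + 1) * (2 * N)) * m ^ 2 + (((K : ℤ) + 1) * (2 * b + 1) - e * (2 * N)) * m
        + (-(e * b)))
      - q ^ ((((K : ℤ) + 1) * (2 * N)) * m ^ 2 + (-(((K : ℤ) + 1) * (2 * b + 1)) - e * (2 * N)) * m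
        + e * (b + 1))) := by
  unfold ThS
  have h1 : (fun y : ℤ => gfun q K N b y * q ^ (-(e * y)))
      = fun y => F1 q K N b e y - F2 q K N b e y := by
    funext y; exact gfun_eq_F hq0 K N b e y
  rw [h1, ((F1_summable hq0 hq1 K hN b e).of_norm).tsum_sub ((F2_summable hq0 hq1 K hN b e).of_norm),
    ((summable_quad hq0 hq1 _ _ _ (hA_pos K hN)).of_norm).tsum_sub
      ((summable_quad hq0 hq1 _ _ _ (hA_pos K hN)).of_norm)]
  congr 1
  · rw [← (prog_inj hN b).tsum_eq (f := F1 q K N b e)]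
    · apply tsum_congr
      intro m
      rw [F1_prog K hN]
    · intro y hy
      by_contra hcon
      exact hy (F1_off K b e y hcon)
  · rw [← (prog_inj hN (-b - 1)).tsum_eq (f := F2 q K N b e)]
    · apply tsum_congr
      intro m
      rw [F2_prog K hN]
    · intro y hy
      by_contra hcon
      exact hy (F2_off K b e y hcon)

/-- relation with the odd theta functions -/
theorem ThS_eq_oddTh {s : ℂ} (hs0 : s ≠ 0) (hs1 : ‖s‖ < 1) (K : ℕ) {N : ℕ} (hN : 1 ≤ N) (b e : ℤ) :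
    ThS (s ^ 2) K N b e = s ^ e * oddTh (s ^ (4 * N)) K e (s ^ (2 * b + 1)) := by
  have hq0 : s ^ 2 ≠ 0 := pow_ne_zero _ hs0
  have hq1 : ‖s ^ 2‖ < 1 := by
    rw [norm_pow]; exact pow_lt_one₀ (norm_nonneg _) hs1 (by norm_num)
  rw [ThS_eq hq0 hq1 K hN b e]
  unfold oddTh
  rw [← tsum_mul_left]
  apply tsum_congr
  intro m
  have hp : (s ^ (4 * N) : ℂ) = s ^ ((4 * N : ℕ) : ℤ) := (zpow_natCast s (4 * N)).symm
  have hq : (s ^ 2 : ℂ) = s ^ (2 : ℤ) := by rw [← zpow_natCast]; rfl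
  rw [hp, hq]
  simp only [← zpow_mul]
  rw [mul_sub, mul_sub, ← zpow_add₀ hs0, ← zpow_add₀ hs0, ← zpow_add₀ hs0, ← zpow_add₀ hs0]
  congr 2
  · push_cast; ring
  · push_cast; ring

/-- limit of the one-walker functions along times `2T+1` -/
theorem HH_tendsto {q : ℂ} (hq0 : q ≠ 0) (hq1 : ‖q‖ < 1) (K : ℕ) {N : ℕ} (hN : 1 ≤ N)
    (b e c : ℤ) :
    Tendsto (fun T : ℕ => HH q (gfun q K N b) (2 * T + 1) e (c + T)) atTop
      (𝓝 (ThS q K N b e / qinf q)) := by
  have hrw : ∀ T : ℕ, HH q (gfun q K N b) (2 * T + 1) e (c + T)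
      = ∑' y : ℤ, gfun q K N b y * q ^ (-(e * y)) * gb q (2 * T + 1) (c + T - y) :=
    fun T => HH_eq_tsum hq0 _ _ _ _
  simp only [hrw]
  have hlim : ThS q K N b e / qinf q
      = ∑' y : ℤ, gfun q K N b y * q ^ (-(e * y)) * (1 / qinf q) := by
    rw [tsum_mul_right, ThS, mul_one_div]
  rw [hlim]
  obtain ⟨B, hB0, hB⟩ := gb_bounded hq1
  apply tendsto_tsum_of_dominated_convergence
    (bound := fun y => ‖gfun q K N b y * q ^ (-(e * y))‖ * B)
  · exact (g_summable hq0 hq1 K hN b e).mul_right B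
  · intro y
    apply Tendsto.const_mul
    apply gb_tendsto hq1
    · rw [tendsto_atTop]
      intro x
      filter_upwards [Filter.eventually_ge_atTop ((x - c + y).toNat)] with T hT
      omega
    · rw [tendsto_atTop]
      intro x
      filter_upwards [Filter.eventually_ge_atTop ((x + c - y).toNat)] with T hT
      push_cast
      omega
  · filter_upwards with T
    intro y
    rw [norm_mul]
    exact mul_le_mul_of_nonneg_left (hB _ _) (norm_nonneg _)

end Pool.Agent.Lib.Primc
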