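import Pool.Agent.Lib.Primc.Step

/-! # The generating functions of the walkers and the determinant formula -/

namespace Pool.Agent.Lib.Primc

open Finset Matrix

open Classical in
/-- generating function of the families of walkers ending at `u` at time `t` -/
noncomputable def NN (q : ℂ) {K : ℕ} (n : ℕ) (a : Fin K → ℤ) :
    ℕ → Finset (Fin K) → (Fin K → ℤ) → ℂ
  | 0, _, u => if u = a then 1 else 0
  | t + 1, ε', u' => if Valid n (t + 1) u' then
      ∑ s : Finset (Fin K), q ^ ((t + 1) * (ε' \ s).card) *
        NN q n a t (cnt n t (back u' s) s) (back u' s) else 0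

theorem NN_invalid (q : ℂ) {K n : ℕ} {a : Fin K → ℤ} (ha : Valid n 0 a) (t : ℕ)
    (ε : Finset (Fin K)) (u : Fin K → ℤ) (h : ¬ Valid n t u) : NN q n a t ε u = 0 := by
  cases t with
  | zero =>
    rw [NN, if_neg]
    intro hu
    rw [hu] at h
    exact h ha
  | succ t => rw [NN, if_neg h]

/-- shifted starting positions -/
def bpos {K : ℕ} (a : Fin K → ℤ) : Fin K → ℤ := fun j => a j + j

theorem strictMono_of_valid {K n t : ℕ} {u : Fin K → ℤ} (h : Valid n t u) :
    StrictMono (fun j : Fin K => u j + (j : ℤ)) := by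
  intro i j hij
  have h1 := h.mono hij.le
  have h2 : ((i : ℕ) : ℤ) < ((j : ℕ) : ℤ) := by exact_mod_cast hij
  simp only
  linarith

theorem DD_zero {q : ℂ} (hq : q ≠ 0) {K : ℕ} (n : ℕ) (a : Fin K → ℤ) (ha : Valid n 0 a)
    (ε : Finset (Fin K)) (u : Fin K → ℤ) (hu : Valid n 0 u) :
    (∏ j : Fin K, q ^ (((j : ℤ) + 1) * bpos a j)) * DD q (n + K) (bpos a) 0 ε u
      = if u = a then 1 else 0 := by
  have hrange : ∀ (w : Fin K → ℤ), Valid n 0 w → ∀ j, 0 ≤ w j + (j : ℤ) ∧
      w j + (j : ℤ) < ((n + K : ℕ) : ℤ) := by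
    intro w hw j
    have h1 := hw.2 j
    have h2 := j.2
    push_cast at h1 ⊢
    constructor <;> omega
  have hM : (Matrix.of fun j : Fin K => rowv q (n + K) (bpos a) 0 j (decide (j ∈ ε)) (u j + j))
      = Matrix.of fun j i : Fin K => (q ^ (-(((j : ℤ) + 1) * (u j + j)))) *
        (if u j + (j : ℤ) = a i + (i : ℤ) then (1 : ℂ) else 0) := by
    ext j i
    simp only [Matrix.of_apply]
    have h1 := gfun_init q K (n + K) (bpos a i) (u j + j) (hrange a ha i).1 (hrange a ha i).2
      (hrange u hu j).1 (hrange u hu j).2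
    have h2 : rowv q (n + K) (bpos a) 0 j (decide (j ∈ ε)) (u j + j) i
        = gfun q K (n + K) (bpos a i) (u j + j) * q ^ (-(((j : ℤ) + 1) * (u j + j))) := by
      unfold rowv
      by_cases hj : j ∈ ε
      · simp only [hj, decide_true, if_true]
        rw [HH_zero, mul_left_comm, ← zpow_add₀ hq]
        congr 2; push_cast; ring
      · simp only [hj, decide_false, Bool.false_eq_true, if_false]
        rw [HH_zero]
    rw [h2, h1, mul_comm]
    rfl
  have hdet := Matrix.det_mul_column (fun j : Fin K => q ^ (-(((j : ℤ) + 1) * (u j + j))))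
    (Matrix.of fun j i : Fin K => (if u j + (j : ℤ) = a i + (i : ℤ) then (1 : ℂ) else 0))
  simp only [Matrix.of_apply] at hdet
  unfold DD
  rw [hM, hdet]
  by_cases hua : u = a
  · rw [if_pos hua, hua]
    have h1 : (Matrix.of fun j i : Fin K => (if a j + (j : ℤ) = a i + (i : ℤ) then (1 : ℂ) else 0))
        = 1 := by
      ext j i
      simp only [Matrix.of_apply, Matrix.one_apply]
      by_cases hji : j = i
      · rw [if_pos hji, if_pos (by rw [hji])]
      · rw [if_neg hji, if_neg]
        intro h
        exact hji ((strictMono_of_valid ha).injective h)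
    rw [h1, Matrix.det_one, mul_one, ← Finset.prod_mul_distrib]
    apply Finset.prod_eq_one
    intro j _
    rw [← zpow_add₀ hq]
    have : ((j : ℤ) + 1) * bpos a j + -(((j : ℤ) + 1) * (a j + j)) = 0 := by
      unfold bpos; ring
    rw [this, zpow_zero]
  · rw [if_neg hua]
    have hex : ∃ j : Fin K, ∀ i : Fin K, u j + (j : ℤ) ≠ a i + (i : ℤ) := by
      by_contra hcon
      push Not at hcon
      apply hua
      have hsub : Finset.univ.image (fun j : Fin K => u j + (j : ℤ))
          ⊆ Finset.univ.image (fun j : Fin K => a j + (j : ℤ)) := by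
        intro x hx
        rw [Finset.mem_image] at hx ⊢
        obtain ⟨j, _, hj⟩ := hx
        obtain ⟨i, hi⟩ := hcon j
        exact ⟨i, Finset.mem_univ _, by rw [← hi]; exact hj⟩
      have hcard : (Finset.univ.image (fun j : Fin K => a j + (j : ℤ))).card
          ≤ (Finset.univ.image (fun j : Fin K => u j + (j : ℤ))).card := by
        rw [Finset.card_image_of_injective _ (strictMono_of_valid ha).injective,
          Finset.card_image_of_injective _ (strictMono_of_valid hu).injective]
      have heq := Finset.eq_of_subset_of_card_le hsub hcard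
      have hr : Set.range (fun j : Fin K => u j + (j : ℤ))
          = Set.range (fun j : Fin K => a j + (j : ℤ)) := by
        have := congrArg (fun s : Finset ℤ => (s : Set ℤ)) heq
        simpa using this
      have hfun := (StrictMono.range_inj (strictMono_of_valid hu) (strictMono_of_valid ha)).mp hr
      funext j
      have := congrFun hfun j
      linarith
    obtain ⟨j, hj⟩ := hex
    have h0 : (Matrix.of fun j i : Fin K =>
        (if u j + (j : ℤ) = a i + (i : ℤ) then (1 : ℂ) else 0)).det = 0 := by
      apply Matrix.det_eq_zero_of_row_eq_zero j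
      intro i
      simp only [Matrix.of_apply]
      rw [if_neg (hj i)]
    rw [h0, mul_zero, mul_zero]

/-- the determinant formula -/
theorem NN_eq {q : ℂ} (hq : q ≠ 0) {K n : ℕ} (hn : 1 ≤ n) (a : Fin K → ℤ) (ha : Valid n 0 a)
    (t : ℕ) : ∀ (ε : Finset (Fin K)) (u : Fin K → ℤ), Valid n t u →
    (∀ j ∈ ε, 2 * u j + 1 < 2 * n + (t : ℤ)) →
    NN q n a t ε u
      = (∏ j : Fin K, q ^ (((j : ℤ) + 1) * bpos a j)) * DD q (n + K) (bpos a) t ε u := by
  classical
  induction t with
  | zero =>
    intro ε u hu _
    rw [DD_zero hq n a ha ε u hu, NN]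
  | succ t ih =>
    intro ε u hu hε
    rw [NN, if_pos hu, DD_step n (bpos a) hq hn t u hu ε hε, Finset.mul_sum]
    apply Finset.sum_congr rfl
    intro s _
    by_cases hval : Valid n t (back u s)
    · rw [if_pos hval, ih _ _ hval]
      · ring
      · intro j hj
        exact (Finset.mem_filter.mp hj).2
    · rw [if_neg hval, NN_invalid q ha t _ _ hval]
      ring

end Pool.Agent.Lib.Primc
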