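import Pool.Agent.Lib.Primc.Fam

/-! # `NN` is the generating function of the families -/

namespace Pool.Agent.Lib.Primc

open Finset

theorem posn_zero' {K : ℕ} (a : Fin K → ℤ) (σ : ℕ → Finset (Fin K)) : posn a σ 0 = a := by
  funext j; simp [posn]

theorem posn_succ' {K : ℕ} (a : Fin K → ℤ) (σ : ℕ → Finset (Fin K)) (t : ℕ) (j : Fin K) :
    posn a σ (t + 1) j = posn a σ t j + (if j ∈ σ t then 1 else 0) := by
  unfold posn
  rw [Finset.sum_range_succ, add_assoc]

theorem posn_congr {K : ℕ} (a : Fin K → ℤ) (σ τ : ℕ → Finset (Fin K)) (t : ℕ)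
    (h : ∀ t' < t, σ t' = τ t') : posn a σ t = posn a τ t := by
  funext j
  unfold posn
  congr 1
  apply Finset.sum_congr rfl
  intro t' ht'
  rw [h t' (Finset.mem_range.mp ht')]

theorem wt_succ {K : ℕ} (n : ℕ) (a : Fin K → ℤ) (σ : ℕ → Finset (Fin K)) (T : ℕ) :
    wt n a σ (T + 1) = wt n a σ T + T * (corners n a σ T).card := by
  cases T with
  | zero => simp [wt]
  | succ T =>
    unfold wt
    rw [Finset.sum_Ico_succ_top (by omega)]

theorem corners_congr {K : ℕ} (n : ℕ) (a : Fin K → ℤ) (σ τ : ℕ → Finset (Fin K)) (t : ℕ)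
    (h : ∀ t' ≤ t, σ t' = τ t') : corners n a σ t = corners n a τ t := by
  unfold corners
  rw [h t le_rfl, h (t - 1) (Nat.sub_le _ _), posn_congr a σ τ t (fun t' ht' => h t' ht'.le)]

theorem wt_congr {K : ℕ} (n : ℕ) (a : Fin K → ℤ) (σ τ : ℕ → Finset (Fin K)) (T : ℕ)
    (h : ∀ t' < T, σ t' = τ t') : wt n a σ T = wt n a τ T := by
  unfold wt
  apply Finset.sum_congr rfl
  intro t ht
  rw [corners_congr n a σ τ t (fun t' ht' => h t' (lt_of_le_of_lt ht' (Finset.mem_Ico.mp ht).2))]

theorem ext_snoc_lt {K T : ℕ} (σ : Fin T → Finset (Fin K)) (s : Finset (Fin K)) (t : ℕ)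
    (ht : t < T) : ext (Fin.snoc (α := fun _ => Finset (Fin K)) σ s) t = ext σ t := by
  unfold ext
  rw [dif_pos (by omega : t < T + 1), dif_pos ht]
  have : (⟨t, by omega⟩ : Fin (T + 1)) = Fin.castSucc ⟨t, ht⟩ := rfl
  rw [this, Fin.snoc_castSucc]

theorem ext_snoc_last {K T : ℕ} (σ : Fin T → Finset (Fin K)) (s : Finset (Fin K)) :
    ext (Fin.snoc (α := fun _ => Finset (Fin K)) σ s) T = s := by
  unfold ext
  rw [dif_pos (by omega : T < T + 1)]
  have : (⟨T, by omega⟩ : Fin (T + 1)) = Fin.last T := rfl
  rw [this, Fin.snoc_last]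

theorem good_succ {K : ℕ} (n : ℕ) (a : Fin K → ℤ) (σ : ℕ → Finset (Fin K)) (T : ℕ)
    (u' : Fin K → ℤ) :
    Good n a σ (T + 1) u' ↔ Valid n (T + 1) u' ∧ Good n a σ T (back u' (σ T)) := by
  have key : posn a σ (T + 1) = u' ↔ posn a σ T = back u' (σ T) := by
    constructor
    · intro h
      funext j
      have := congrFun h j
      rw [posn_succ'] at this
      unfold back
      linarith
    · intro h
      funext j
      have := congrFun h j
      rw [posn_succ', this]
      unfold back
      ring
  unfold Good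
  constructor
  · rintro ⟨h1, h2⟩
    refine ⟨?_, fun t ht => h1 t (by omega), key.mp h2⟩
    rw [← h2]
    exact h1 (T + 1) le_rfl
  · rintro ⟨h1, h2, h3⟩
    have h4 := key.mpr h3
    refine ⟨?_, h4⟩
    intro t ht
    rcases Nat.lt_or_ge t (T + 1) with h | h
    · exact h2 t (by omega)
    · have : t = T + 1 := by omega
      rw [this, h4]; exact h1

theorem good_congr {K : ℕ} (n : ℕ) (a : Fin K → ℤ) (σ τ : ℕ → Finset (Fin K)) (T : ℕ)
    (u : Fin K → ℤ) (h : ∀ t' < T, σ t' = τ t') : Good n a σ T u ↔ Good n a τ T u := by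
  unfold Good
  have : ∀ t ≤ T, posn a σ t = posn a τ t := fun t ht =>
    posn_congr a σ τ t (fun t' ht' => h t' (lt_of_lt_of_le ht' ht))
  rw [this T le_rfl]
  constructor
  · rintro ⟨h1, h2⟩
    exact ⟨fun t ht => by rw [← this t ht]; exact h1 t ht, h2⟩
  · rintro ⟨h1, h2⟩
    exact ⟨fun t ht => by rw [this t ht]; exact h1 t ht, h2⟩

open Classical in
theorem NN_sum (q : ℂ) {K : ℕ} (n : ℕ) (a : Fin K → ℤ) (ha : Valid n 0 a) (T : ℕ) :
    ∀ (ε : Finset (Fin K)) (u : Fin K → ℤ),
    NN q n a T ε u = ∑ σ : Fin T → Finset (Fin K),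
      if Good n a (ext σ) T u then
        q ^ (wt n a (ext σ) T) * q ^ (T * (ε.filter (fun j => j ∉ ext σ (T - 1))).card) else 0 := by
  induction T with
  | zero =>
    intro ε u
    rw [NN]
    have h1 : ∀ σ : Fin 0 → Finset (Fin K), Good n a (ext σ) 0 u ↔ u = a := by
      intro σ
      unfold Good
      rw [posn_zero']
      constructor
      · rintro ⟨_, h⟩; exact h.symm
      · intro h
        refine ⟨?_, h.symm⟩
        intro t ht
        have : t = 0 := by omega
        rw [this, posn_zero']; exact ha
    have h2 : ∀ σ : Fin 0 → Finset (Fin K), (if Good n a (ext σ) 0 u then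
        q ^ (wt n a (ext σ) 0) * q ^ (0 * (ε.filter (fun j => j ∉ ext σ (0 - 1))).card) else 0)
        = if u = a then (1 : ℂ) else 0 := by
      intro σ
      by_cases h : u = a
      · rw [if_pos ((h1 σ).mpr h), if_pos h]
        simp [wt]
      · rw [if_neg (fun h' => h ((h1 σ).mp h')), if_neg h]
    rw [Finset.sum_congr rfl (fun σ _ => h2 σ), Finset.sum_const, Finset.card_univ]
    simp
  | succ T ih =>
    intro ε' u'
    rw [NN]
    have hR : (∑ σ : Fin (T + 1) → Finset (Fin K),
        if Good n a (ext σ) (T + 1) u' then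
          q ^ (wt n a (ext σ) (T + 1)) *
            q ^ ((T + 1) * (ε'.filter (fun j => j ∉ ext σ (T + 1 - 1))).card) else 0)
        = ∑ s : Finset (Fin K), ∑ σ : Fin T → Finset (Fin K),
          (if Valid n (T + 1) u' then q ^ ((T + 1) * (ε' \ s).card) *
            (if Good n a (ext σ) T (back u' s) then
              q ^ (wt n a (ext σ) T) *
                q ^ (T * ((cnt n T (back u' s) s).filter (fun j => j ∉ ext σ (T - 1))).card)
              else 0) else 0) := by
      rw [← Fintype.sum_equiv (Fin.snocEquiv (fun _ => Finset (Fin K)))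
        (fun x : Finset (Fin K) × (Fin T → Finset (Fin K)) =>
          if Good n a (ext (Fin.snoc (α := fun _ => Finset (Fin K)) x.2 x.1)) (T + 1) u' then
          q ^ (wt n a (ext (Fin.snoc (α := fun _ => Finset (Fin K)) x.2 x.1)) (T + 1)) *
            q ^ ((T + 1) * (ε'.filter (fun j =>
              j ∉ ext (Fin.snoc (α := fun _ => Finset (Fin K)) x.2 x.1) (T + 1 - 1))).card) else 0)
        _ (fun x => rfl), Fintype.sum_prod_type]
      apply Finset.sum_congr rfl
      intro s _
      apply Finset.sum_congr rfl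
      intro σ _
      simp only
      have hlast := ext_snoc_last σ s
      have hlt := fun t ht => ext_snoc_lt σ s t ht
      set τ := ext (Fin.snoc (α := fun _ => Finset (Fin K)) σ s) with hτ
      have hg : Good n a τ (T + 1) u' ↔ Valid n (T + 1) u' ∧ Good n a (ext σ) T (back u' s) := by
        rw [good_succ, hlast, good_congr n a τ (ext σ) T (back u' s) hlt]
      by_cases hv : Valid n (T + 1) u'
      · rw [if_pos hv]
        by_cases hG : Good n a (ext σ) T (back u' s)
        · rw [if_pos (hg.mpr ⟨hv, hG⟩), if_pos hG, wt_succ, wt_congr n a τ (ext σ) T hlt]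
          have h1 : T + 1 - 1 = T := rfl
          rw [h1, hlast]
          have h2 : ε'.filter (fun j => j ∉ s) = ε' \ s := by
            ext j; simp
          rw [h2]
          have h3 : T * (corners n a τ T).card
              = T * ((cnt n T (back u' s) s).filter (fun j => j ∉ ext σ (T - 1))).card := by
            rcases Nat.eq_zero_or_pos T with h0 | h0
            · rw [Nat.mul_eq_zero.mpr (Or.inl h0), Nat.mul_eq_zero.mpr (Or.inl h0)]
            · congr 2
              unfold corners cnt
              rw [hlast, hlt (T - 1) (by omega)]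
              have h4 : posn a τ T = back u' s := by
                rw [posn_congr a τ (ext σ) T hlt]; exact hG.2
              rw [h4, Finset.filter_filter]
              apply Finset.filter_congr
              intro j _
              exact and_comm
          rw [h3, pow_add]
          ring
        · rw [if_neg hG, if_neg (fun h => hG (hg.mp h).2), mul_zero]
      · rw [if_neg hv, if_neg (fun h => hv (hg.mp h).1)]
    rw [hR]
    by_cases hv : Valid n (T + 1) u'
    · rw [if_pos hv]
      apply Finset.sum_congr rfl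
      intro s _
      rw [ih (cnt n T (back u' s) s) (back u' s), Finset.mul_sum]
      apply Finset.sum_congr rfl
      intro σ _
      rw [if_pos hv]
    · rw [if_neg hv]
      symm
      apply Finset.sum_eq_zero
      intro s _
      apply Finset.sum_eq_zero
      intro σ _
      rw [if_neg hv]

open Classical in
/-- the generating function of the families ending at `u` -/
theorem NN_empty (q : ℂ) {K : ℕ} (n : ℕ) (a : Fin K → ℤ) (ha : Valid n 0 a) (T : ℕ)
    (u : Fin K → ℤ) :
    NN q n a T ∅ u = ∑ σ ∈ (Finset.univ : Finset (Fin T → Finset (Fin K))).filter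
      (fun σ => Good n a (ext σ) T u), q ^ (wt n a (ext σ) T) := by
  rw [NN_sum q n a ha T ∅ u, Finset.sum_filter]
  apply Finset.sum_congr rfl
  intro σ _
  by_cases h : Good n a (ext σ) T u
  · rw [if_pos h, if_pos h]; simp
  · rw [if_neg h, if_neg h]

end Pool.Agent.Lib.Primc
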