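import Pool.Agent.Lib.Primc.Series

/-! # The case n = 1 -/

namespace Pool.Agent.Lib.Primc

open Finset Filter Topology

/-- initial segments -/
def seg (K f : ℕ) : Finset (Fin K) := Finset.univ.filter (fun j => (j : ℕ) < f)

theorem seg_card (K f : ℕ) (hf : f ≤ K) : (seg K f).card = f := by
  unfold seg
  rw [Fin.card_filter_val_lt]
  omega

theorem lower_eq_seg {K : ℕ} (s : Finset (Fin K))
    (hs : ∀ i j : Fin K, (i : ℕ) + 1 = j → j ∈ s → i ∈ s) : s = seg K s.card := by
  have key : ∀ d : ℕ, ∀ i j : Fin K, (i : ℕ) + d = j → j ∈ s → i ∈ s := by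
    intro d
    induction d with
    | zero =>
      intro i j hij hj
      have : i = j := Fin.ext (by simpa using hij)
      rw [this]; exact hj
    | succ d ih =>
      intro i j hij hj
      have hlt : (i : ℕ) + d < K := by have := j.2; omega
      exact ih i ⟨(i : ℕ) + d, hlt⟩ rfl (hs ⟨(i : ℕ) + d, hlt⟩ j (by simp; omega) hj)
  have hlow : ∀ i j : Fin K, (i : ℕ) ≤ j → j ∈ s → i ∈ s := fun i j hij hj =>
    key (j - i) i j (by omega) hj
  -- every element of s has value < card
  apply Finset.eq_of_subset_of_card_le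
  · intro j hj
    unfold seg
    rw [Finset.mem_filter]
    refine ⟨Finset.mem_univ _, ?_⟩
    by_contra hcon
    push Not at hcon
    have hsub : seg K ((j : ℕ) + 1) ⊆ s := by
      intro i hi
      unfold seg at hi
      rw [Finset.mem_filter] at hi
      exact hlow i j (by omega) hj
    have h1 := Finset.card_le_card hsub
    rw [seg_card K _ (by have := j.2; omega)] at h1
    omega
  · have hle : s.card ≤ K := by
      have := Finset.card_le_univ s
      simpa using this
    rw [seg_card K _ hle]

theorem NN_one_step (q : ℂ) {K : ℕ} (a : Fin K → ℤ) (ha : Valid 1 0 a) (T : ℕ) :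
    NN q 1 a (2 * (T + 1) + 1) ∅ (fun _ => ((1 : ℕ) : ℤ) + ((T + 1 : ℕ) : ℤ))
      = (∑ f ∈ Finset.range (K + 1), (q ^ (2 * (T + 1))) ^ f) *
        NN q 1 a (2 * T + 1) ∅ (fun _ => ((1 : ℕ) : ℤ) + ((T : ℕ) : ℤ)) := by
  classical
  set top : Fin K → ℤ := fun _ => ((1 : ℕ) : ℤ) + ((T + 1 : ℕ) : ℤ) with htop
  set top' : Fin K → ℤ := fun _ => ((1 : ℕ) : ℤ) + ((T : ℕ) : ℤ) with htop'
  have hV : Valid 1 (2 * (T + 1) + 1) top := valid_top 1 le_rfl (T + 1)
  rw [NN, if_pos hV]
  have hterm : ∀ s : Finset (Fin K),
      q ^ ((2 * (T + 1) + 1) * (∅ \ s : Finset (Fin K)).card) *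
        NN q 1 a (2 * (T + 1)) (cnt 1 (2 * (T + 1)) (back top s) s) (back top s)
      = if (∀ i j : Fin K, (i : ℕ) + 1 = j → j ∈ s → i ∈ s) then
          (q ^ (2 * (T + 1))) ^ s.card * NN q 1 a (2 * T + 1) ∅ top' else 0 := by
    intro s
    have h0 : (∅ \ s : Finset (Fin K)).card = 0 := by simp
    rw [h0, mul_zero, pow_zero, one_mul]
    by_cases hs : (∀ i j : Fin K, (i : ℕ) + 1 = j → j ∈ s → i ∈ s)
    · rw [if_pos hs]
      have hVb : Valid 1 (2 * (T + 1)) (back top s) := by
        refine ⟨?_, ?_⟩
        · intro i j hij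
          unfold back
          by_cases hj : j ∈ s
          · rw [if_pos hj, if_pos (hs i j hij hj)]
          · rw [if_neg hj]
            split_ifs <;> simp [htop]
        · intro j
          unfold back
          simp only [htop]
          push_cast
          split_ifs <;> constructor <;> omega
      have hcnt : cnt 1 (2 * (T + 1)) (back top s) s = s := by
        unfold cnt
        apply Finset.filter_true_of_mem
        intro j hj
        unfold back
        rw [if_pos hj]
        simp only [htop]
        push_cast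
        omega
      rw [hcnt]
      have e1 : 2 * (T + 1) = (2 * T + 1) + 1 := by ring
      rw [e1] at hVb ⊢
      rw [NN, if_pos hVb]
      rw [Finset.sum_eq_single sᶜ]
      · have hbb : back (back top s) sᶜ = top' := by
          funext j
          unfold back
          by_cases hj : j ∈ s
          · rw [if_pos hj, if_neg (by simp [hj])]
            simp [htop, htop', add_comm]
          · rw [if_neg hj, if_pos (by simp [hj])]
            simp [htop, htop', add_comm]
        have hc2 : cnt 1 (2 * T + 1) (back (back top s) sᶜ) sᶜ = ∅ := by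
          rw [hbb]
          unfold cnt
          apply Finset.filter_false_of_mem
          intro j _
          simp only [htop']
          push_cast
          omega
        have hc3 : s \ sᶜ = s := by
          ext j; simp
        rw [hc2, hbb, hc3, pow_mul]
      · intro s' _ hs'
        have : ¬ Valid 1 (2 * T + 1) (back (back top s) s') := by
          intro hcon
          apply hs'
          ext j
          have h1 := hcon.2 j
          rw [Finset.mem_compl]
          unfold back at h1
          simp only [htop] at h1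
          push_cast at h1
          by_cases hj : j ∈ s
          · by_cases hj' : j ∈ s'
            · rw [if_pos hj, if_pos hj'] at h1; omega
            · simp [hj, hj']
          · by_cases hj' : j ∈ s'
            · simp [hj, hj']
            · rw [if_neg hj, if_neg hj'] at h1; omega
        rw [NN_invalid q ha _ _ _ this, mul_zero]
      · intro h; exact absurd (Finset.mem_univ _) h
    · rw [if_neg hs]
      apply NN_invalid q ha
      intro hcon
      apply hs
      intro i j hij hj
      by_contra hi
      have h1 := hcon.1 i j hij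
      unfold back at h1
      rw [if_pos hj, if_neg hi] at h1
      simp only [htop] at h1
      omega
  rw [Finset.sum_congr rfl (fun s _ => hterm s), Finset.sum_ite, Finset.sum_const_zero, add_zero,
    Finset.sum_mul]
  symm
  apply Finset.sum_nbij' (fun f => seg K f) (fun s => s.card)
  · intro f hf
    rw [Finset.mem_filter]
    refine ⟨Finset.mem_univ _, ?_⟩
    intro i j hij hj
    unfold seg at hj ⊢
    rw [Finset.mem_filter] at hj ⊢
    exact ⟨Finset.mem_univ _, by omega⟩
  · intro s _
    rw [Finset.mem_range]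
    have := Finset.card_le_univ s
    rw [Fintype.card_fin] at this
    omega
  · intro f hf
    rw [Finset.mem_range] at hf
    exact seg_card K f (by omega)
  · intro s hs
    exact (lower_eq_seg s (Finset.mem_filter.mp hs).2).symm
  · intro f hf
    rw [Finset.mem_range] at hf
    rw [seg_card K f (by omega)]

theorem NN_one_base (q : ℂ) {K : ℕ} :
    NN q 1 (fun _ : Fin K => (0 : ℤ)) 1 ∅ (fun _ => ((1 : ℕ) : ℤ) + ((0 : ℕ) : ℤ)) = 1 := by
  classical
  rw [NN, if_pos (valid_top 1 le_rfl 0)]
  rw [Finset.sum_eq_single Finset.univ]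
  · rw [NN, if_pos]
    · simp
    · funext j; simp [back]
  · intro s _ hs
    rw [NN, if_neg]
    · simp
    · intro h
      apply hs
      ext j
      have := congrFun h j
      unfold back at this
      simp only [Finset.mem_univ, iff_true]
      by_contra hj
      rw [if_neg hj] at this
      norm_num at this
  · intro h; exact absurd (Finset.mem_univ _) h

theorem valid_zero (K : ℕ) (n : ℕ) : Valid n 0 (fun _ : Fin K => (0 : ℤ)) := by
  refine ⟨fun _ _ _ => le_rfl, fun _ => ?_⟩
  simp

theorem NN_one (q : ℂ) {K : ℕ} (T : ℕ) :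
    NN q 1 (fun _ : Fin K => (0 : ℤ)) (2 * T + 1) ∅ (fun _ => ((1 : ℕ) : ℤ) + (T : ℤ))
      = ∏ t ∈ Finset.range T, ∑ f ∈ Finset.range (K + 1), (q ^ (2 * (t + 1))) ^ f := by
  induction T with
  | zero => exact NN_one_base q
  | succ T ih =>
    rw [NN_one_step q _ (valid_zero K 1) T, ih, Finset.prod_range_succ, mul_comm]

theorem ZZ_one {q : ℂ} (hq0 : q ≠ 0) (hq1 : ‖q‖ < 1) (K : ℕ) :
    ZZ q 1 (fun _ : Fin K => (0 : ℤ)) = qinf (q ^ (2 * (1 + K))) / qinf (q ^ 2) := by
  have h1 := NN_tendsto hq0 hq1 (n := 1) le_rfl (fun _ : Fin K => (0 : ℤ)) (valid_zero K 1)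
  have hq2 : ‖q ^ 2‖ < 1 := by
    rw [norm_pow]; exact pow_lt_one₀ (norm_nonneg _) hq1 (by norm_num)
  have hqK : ‖q ^ (2 * (1 + K))‖ < 1 := by
    rw [norm_pow]; exact pow_lt_one₀ (norm_nonneg _) hq1 (by omega)
  have h2 : Tendsto (fun T : ℕ => pq (q ^ (2 * (1 + K))) T / pq (q ^ 2) T) atTop
      (𝓝 (qinf (q ^ (2 * (1 + K))) / qinf (q ^ 2))) :=
    (tendsto_pq hqK).div (tendsto_pq hq2) (qinf_ne_zero hq2)
  refine tendsto_nhds_unique h1 (h2.congr ?_)
  intro T
  rw [NN_one]
  unfold pq
  rw [← Finset.prod_div_distrib]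
  apply Finset.prod_congr rfl
  intro t _
  have hne : (1 : ℂ) - q ^ (2 * (t + 1)) ≠ 0 := by
    have := one_sub_pow_ne_zero hq2 t
    rwa [← pow_mul] at this
  rw [← pow_mul, ← pow_mul, div_eq_iff hne]
  have := geom_sum_mul (q ^ (2 * (t + 1))) (K + 1)
  have h3 : (∑ f ∈ Finset.range (K + 1), (q ^ (2 * (t + 1))) ^ f) * (1 - q ^ (2 * (t + 1)))
      = 1 - (q ^ (2 * (t + 1))) ^ (K + 1) := by linear_combination -this
  rw [h3, ← pow_mul]
  congr 2
  ring

end Pool.Agent.Lib.Primc
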