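import Pool.Agent.Lib.Primc.Lim

/-! # The generating series as a theta determinant -/

namespace Pool.Agent.Lib.Primc

open Finset Filter Topology

/-- the limit value -/
noncomputable def ZZ (q : ℂ) {K : ℕ} (n : ℕ) (a : Fin K → ℤ) : ℂ :=
  (∏ j : Fin K, q ^ (((j : ℤ) + 1) * bpos a j)) *
    Matrix.det (Matrix.of fun j i : Fin K => ThS q K (n + K) (bpos a i) ((j : ℤ) + 1) / qinf q)

theorem valid_top {K : ℕ} (n : ℕ) (hn : 1 ≤ n) (T : ℕ) :
    Valid (K := K) n (2 * T + 1) (fun _ => (n : ℤ) + T) := by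
  refine ⟨fun _ _ _ => le_rfl, fun _ => ?_⟩
  push_cast
  constructor <;> omega

theorem NN_tendsto {q : ℂ} (hq0 : q ≠ 0) (hq1 : ‖q‖ < 1) {K n : ℕ} (hn : 1 ≤ n)
    (a : Fin K → ℤ) (ha : Valid n 0 a) :
    Tendsto (fun T : ℕ => NN q n a (2 * T + 1) ∅ (fun _ => (n : ℤ) + T)) atTop
      (𝓝 (ZZ q n a)) := by
  have hrw : ∀ T : ℕ, NN q n a (2 * T + 1) ∅ (fun _ => (n : ℤ) + T)
      = (∏ j : Fin K, q ^ (((j : ℤ) + 1) * bpos a j)) *
        Matrix.det (Matrix.of fun j i : Fin K =>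
          HH q (gfun q K (n + K) (bpos a i)) (2 * T + 1) ((j : ℤ) + 1) ((n : ℤ) + j + T)) := by
    intro T
    rw [NN_eq hq0 hn a ha (2 * T + 1) ∅ _ (valid_top n hn T) (by simp)]
    congr 1
    unfold DD
    congr 1
    ext j i
    simp only [Matrix.of_apply, rowv, Finset.notMem_empty, decide_false, Bool.false_eq_true,
      if_false]
    congr 1
    ring
  simp only [hrw]
  unfold ZZ
  apply Tendsto.const_mul
  simp only [Matrix.det_apply', Matrix.of_apply]
  apply tendsto_finsetSum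
  intro σ _
  apply Tendsto.const_mul
  apply tendsto_finsetProd
  intro i _
  exact HH_tendsto hq0 hq1 K (by omega) (bpos a i) (((σ i : Fin K) : ℤ) + 1)
    ((n : ℤ) + ((σ i : Fin K) : ℤ))

open Classical in
/-- number of good families of weight `N` up to time `2T+1` -/
noncomputable def famCard {K : ℕ} (n : ℕ) (a : Fin K → ℤ) (T N : ℕ) : ℕ :=
  ((Finset.univ : Finset (Fin (2 * T + 1) → Finset (Fin K))).filter (fun σ =>
    Good n a (ext σ) (2 * T + 1) (fun _ => (n : ℤ) + T) ∧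
      wt n a (ext σ) (2 * T + 1) = N)).card

theorem NN_hasSum (q : ℂ) {K : ℕ} (n : ℕ) (a : Fin K → ℤ) (ha : Valid n 0 a) (T : ℕ) :
    HasSum (fun N : ℕ => (famCard n a T N : ℂ) * q ^ N)
      (NN q n a (2 * T + 1) ∅ (fun _ => (n : ℤ) + T)) := by
  classical
  rw [NN_empty q n a ha]
  have h1 : ∀ σ ∈ (Finset.univ : Finset (Fin (2 * T + 1) → Finset (Fin K))).filter
      (fun σ => Good n a (ext σ) (2 * T + 1) (fun _ => (n : ℤ) + T)),
      HasSum (fun N : ℕ => if N = wt n a (ext σ) (2 * T + 1) then q ^ (wt n a (ext σ) (2 * T + 1))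
        else 0) (q ^ (wt n a (ext σ) (2 * T + 1))) :=
    fun σ _ => hasSum_ite_eq _ _
  have h2 := hasSum_sum h1
  convert h2 using 2
  rename_i N
  rw [Finset.sum_ite, Finset.sum_const_zero, add_zero, Finset.filter_filter]
  rw [Finset.sum_congr rfl (g := fun _ => q ^ N)]
  · rw [Finset.sum_const, nsmul_eq_mul]
    congr 2
    unfold famCard
    congr 1
    apply Finset.filter_congr
    intro σ _
    constructor
    · rintro ⟨h, h'⟩; exact ⟨h, h'.symm⟩
    · rintro ⟨h, h'⟩; exact ⟨h, h'.symm⟩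
  · intro σ hσ
    rw [← (Finset.mem_filter.mp hσ).2.2]

/-- identification of the coefficients -/
theorem hasSum_of_card {q : ℂ} (hq0 : q ≠ 0) (hq1 : ‖q‖ < 1) {K n : ℕ} (hn : 1 ≤ n)
    (a : Fin K → ℤ) (ha : Valid n 0 a) (cN : ℕ → ℕ)
    (hc : ∀ N, ∀ᶠ T in atTop, famCard n a T N = cN N) :
    HasSum (fun N : ℕ => (cN N : ℂ) * q ^ N) (ZZ q n a) := by
  obtain ⟨r, hr1, hr2⟩ := exists_between hq1
  have hr0 : 0 < r := lt_of_le_of_lt (norm_nonneg q) hr1
  have hrc0 : (r : ℂ) ≠ 0 := by exact_mod_cast hr0.ne'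
  have hrc1 : ‖(r : ℂ)‖ < 1 := by
    rw [Complex.norm_real, Real.norm_of_nonneg hr0.le]; exact hr2
  have hb := (NN_tendsto hrc0 hrc1 hn a ha).norm.bddAbove_range
  obtain ⟨B, hB⟩ := hb
  have hB' : ∀ T : ℕ, ‖NN (r : ℂ) n a (2 * T + 1) ∅ (fun _ => (n : ℤ) + T)‖ ≤ B :=
    fun T => hB ⟨T, rfl⟩
  have hbound : ∀ T N, (famCard n a T N : ℝ) * r ^ N ≤ B := by
    intro T N
    have h1 : HasSum (fun N : ℕ => (famCard n a T N : ℝ) * r ^ N)
        (NN (r : ℂ) n a (2 * T + 1) ∅ (fun _ => (n : ℤ) + T)).re := by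
      have := Complex.hasSum_re (NN_hasSum (r : ℂ) n a ha T)
      have h3 : (fun N : ℕ => ((famCard n a T N : ℂ) * (r : ℂ) ^ N).re)
          = fun N : ℕ => (famCard n a T N : ℝ) * r ^ N := by
        funext N
        have : ((famCard n a T N : ℂ) * (r : ℂ) ^ N) = (((famCard n a T N : ℝ) * r ^ N : ℝ) : ℂ) := by
          push_cast; ring
        rw [this, Complex.ofReal_re]
      rw [h3] at this
      exact this
    have h2 : (famCard n a T N : ℝ) * r ^ N
        ≤ (NN (r : ℂ) n a (2 * T + 1) ∅ (fun _ => (n : ℤ) + T)).re := by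
      apply le_hasSum h1 N
      intro j _
      positivity
    exact le_trans h2 (le_trans (Complex.re_le_norm _) (hB' T))
  have hgeo : Summable (fun N : ℕ => B * (‖q‖ / r) ^ N) := by
    apply Summable.mul_left
    apply summable_geometric_of_lt_one (by positivity)
    rw [div_lt_one hr0]; exact hr1
  have hterm : ∀ T N, ‖(famCard n a T N : ℂ) * q ^ N‖ ≤ B * (‖q‖ / r) ^ N := by
    intro T N
    rw [norm_mul, Complex.norm_natCast, norm_pow, div_pow]
    have h1 := hbound T N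
    have h2 : (0 : ℝ) < r ^ N := by positivity
    have h3 : (0 : ℝ) ≤ ‖q‖ ^ N := by positivity
    calc (famCard n a T N : ℝ) * ‖q‖ ^ N
        = ((famCard n a T N : ℝ) * r ^ N) * (‖q‖ ^ N / r ^ N) := by
          field_simp
      _ ≤ B * (‖q‖ ^ N / r ^ N) := mul_le_mul_of_nonneg_right h1 (by positivity)
  have hlim : Tendsto (fun T => ∑' N, (famCard n a T N : ℂ) * q ^ N) atTop
      (𝓝 (∑' N, (cN N : ℂ) * q ^ N)) := by
    apply tendsto_tsum_of_dominated_convergence hgeo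
    · intro N
      apply tendsto_const_nhds.congr'
      filter_upwards [hc N] with T hT
      rw [hT]
    · filter_upwards with T
      exact hterm T
  have hlim2 : Tendsto (fun T => ∑' N, (famCard n a T N : ℂ) * q ^ N) atTop (𝓝 (ZZ q n a)) := by
    refine (NN_tendsto hq0 hq1 hn a ha).congr ?_
    intro T
    exact (NN_hasSum q n a ha T).tsum_eq.symm
  have heq := tendsto_nhds_unique hlim hlim2
  rw [← heq]
  apply Summable.hasSum
  apply Summable.of_norm_bounded hgeo
  intro N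
  obtain ⟨T, hT⟩ := (hc N).exists
  rw [← hT]
  exact hterm T N

end Pool.Agent.Lib.Primc
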