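import Pool.Agent.Lib.Primc.Det

/-! # The determinant formula: recursion in time -/

namespace Pool.Agent.Lib.Primc

open Finset Matrix

section

variable {q : ℂ} {K : ℕ} (n : ℕ) (b : Fin K → ℤ)

/-- right step part -/
noncomputable def rpart (q : ℂ) (n t : ℕ) (b u' : Fin K → ℤ) (j : Fin K) : Fin K → ℂ :=
  if 2 * u' j = 2 * n + t + 1 then rowv q (n + K) b t j false (u' j + j - 1)
  else rowv q (n + K) b t j true (u' j + j - 1)

/-- left step part -/
noncomputable def lpart (q : ℂ) (n t : ℕ) (b u' : Fin K → ℤ) (ε' : Finset (Fin K)) (j : Fin K) :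
    Fin K → ℂ :=
  if 2 * u' j = 2 * n + t + 1 then 0
  else (if j ∈ ε' then q ^ ((t : ℤ) + 1) else 1) • rowv q (n + K) b t j false (u' j + j)

theorem DD_eq_parts (hq : q ≠ 0) (hn : 1 ≤ n) (t : ℕ) (u' : Fin K → ℤ) (hv : Valid n (t + 1) u')
    (ε' : Finset (Fin K)) (hε : ∀ j ∈ ε', 2 * u' j + 1 < 2 * n + ((t + 1 : ℕ) : ℤ)) :
    DD q (n + K) b (t + 1) ε' u'
      = Matrix.det (Matrix.of ((rpart q n t b u') + (lpart q n t b u' ε'))) := by
  unfold DD
  apply det_unitri _ _ (fun j => if 2 * u' j = 2 * n + t + 1 then q ^ (u' j + j) else 0)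
  · intro j hj k
    rw [Matrix.of_apply, Matrix.of_apply, Matrix.of_apply, ← smul_eq_mul, ← Pi.smul_apply,
      ← Pi.add_apply]
    refine congrFun ?_ k
    simp only [Pi.add_apply]
    by_cases hB : 2 * u' j = 2 * n + t + 1
    · rw [if_pos hB]
      have hnot : j ∉ ε' := by
        intro h
        have := hε j h
        push_cast at this
        linarith
      have hB' : 2 * u' ⟨(j : ℕ) + 1, hj⟩ = 2 * n + t + 1 := by
        have h1 := hv.1 j ⟨(j : ℕ) + 1, hj⟩ rfl
        have h2 := (hv.2 ⟨(j : ℕ) + 1, hj⟩).2
        push_cast at h2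
        linarith
      have hu : u' ⟨(j : ℕ) + 1, hj⟩ = u' j := by linarith
      simp only [rpart, lpart, if_pos hB, if_pos hB', add_zero, hnot, decide_false]
      rw [rowv_false_succ' hq, hu]
      congr 3
      push_cast; ring
    · rw [if_neg hB]
      simp only [rpart, lpart, if_neg hB, zero_smul, add_zero]
      by_cases hj' : j ∈ ε'
      · simp only [hj', decide_true, if_true]
        rw [rowv_true_succ hq]
      · simp only [hj', decide_false, if_false, one_smul]
        rw [rowv_false_succ]
  · intro j hj k
    rw [Matrix.of_apply, Matrix.of_apply]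
    refine congrFun ?_ k
    simp only [Pi.add_apply]
    by_cases hB : 2 * u' j = 2 * n + t + 1
    · have hnot : j ∉ ε' := by
        intro h
        have := hε j h
        push_cast at this
        linarith
      simp only [rpart, lpart, if_pos hB, add_zero, hnot, decide_false]
      rw [rowv_false_succ' hq]
      have hz : rowv q (n + K) b t ((j : ℕ) + 1) false (u' j + j) = 0 := by
        funext i
        simp only [rowv, Bool.false_eq_true, if_false, Pi.zero_apply]
        have hjK : (((j : ℕ) + 1 : ℕ) : ℤ) = K := by exact_mod_cast hj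
        rw [hjK]
        apply HH_right hq K (by omega)
        have : (j : ℤ) = K - 1 := by push_cast at hjK; linarith
        rw [this]
        push_cast
        linarith
      rw [hz, smul_zero, add_zero]
    · simp only [rpart, lpart, if_neg hB]
      by_cases hj' : j ∈ ε'
      · simp only [hj', decide_true, if_true]
        rw [rowv_true_succ hq]
      · simp only [hj', decide_false, if_false, one_smul]
        rw [rowv_false_succ]

/-- the case where a walker at the right wall made a left step -/
theorem parts_zero (t : ℕ) (u' : Fin K → ℤ) (ε' s : Finset (Fin K)) (j : Fin K)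
    (hB : 2 * u' j = 2 * n + t + 1) (hs : j ∉ s) :
    Matrix.det (Matrix.of (s.piecewise (rpart q n t b u') (lpart q n t b u' ε'))) = 0 := by
  apply Matrix.det_eq_zero_of_row_eq_zero j
  intro i
  simp only [Matrix.of_apply, Finset.piecewise, if_neg hs, lpart, if_pos hB, Pi.zero_apply]

theorem parts_eq (t : ℕ) (u' : Fin K → ℤ) (hv : Valid n (t + 1) u') (ε' s : Finset (Fin K))
    (hs : ∀ j, 2 * u' j = 2 * n + t + 1 → j ∈ s) :
    Matrix.det (Matrix.of (s.piecewise (rpart q n t b u') (lpart q n t b u' ε')))
      = q ^ ((t + 1) * (ε' \ s).card) * DD q (n + K) b t (cnt n t (back u' s) s) (back u' s) := by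
  have hrow : (s.piecewise (rpart q n t b u') (lpart q n t b u' ε'))
      = fun j => (if j ∈ ε' \ s then q ^ (t + 1) else 1) •
        rowv q (n + K) b t j (decide (j ∈ cnt n t (back u' s) s)) (back u' s j + j) := by
    funext j
    by_cases hjs : j ∈ s
    · have h1 : j ∉ ε' \ s := by simp [hjs]
      rw [Finset.piecewise_eq_of_mem _ _ _ hjs, if_neg h1, one_smul]
      have hb : back u' s j = u' j - 1 := by simp [back, hjs]
      rw [hb]
      have e1 : u' j - 1 + (j : ℤ) = u' j + j - 1 := by ring
      rw [e1]
      unfold rpart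
      by_cases hB : 2 * u' j = 2 * n + t + 1
      · have h2 : j ∉ cnt n t (back u' s) s := by
          simp only [cnt, Finset.mem_filter, hb, not_and, not_lt]
          intro _
          linarith
        rw [if_pos hB]
        simp only [h2, decide_false]
      · have h2 : j ∈ cnt n t (back u' s) s := by
          simp only [cnt, Finset.mem_filter, hb]
          refine ⟨hjs, ?_⟩
          have := (hv.2 j).2
          push_cast at this
          have h3 : 2 * u' j < 2 * n + t + 1 := lt_of_le_of_ne (by linarith) hB
          linarith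
        rw [if_neg hB]
        simp only [h2, decide_true]
    · rw [Finset.piecewise_eq_of_notMem _ _ _ hjs]
      have hb : back u' s j = u' j := by simp [back, hjs]
      have hB : ¬ 2 * u' j = 2 * n + t + 1 := fun h => hjs (hs j h)
      have h2 : j ∉ cnt n t (back u' s) s := by simp [cnt, hjs]
      unfold lpart
      rw [if_neg hB, hb]
      simp only [h2, decide_false]
      by_cases hj' : j ∈ ε'
      · have h3 : j ∈ ε' \ s := by simp [hj', hjs]
        rw [if_pos hj', if_pos h3]
        congr 1
      · have h3 : j ∉ ε' \ s := by simp [hj']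
        rw [if_neg hj', if_neg h3]
  rw [hrow]
  have := (Matrix.detRowAlternating : (Fin K → ℂ) [⋀^Fin K]→ₗ[ℂ] ℂ).toMultilinearMap.map_smul_univ
    (fun j => (if j ∈ ε' \ s then q ^ (t + 1) else (1 : ℂ)))
    (fun j => rowv q (n + K) b t j (decide (j ∈ cnt n t (back u' s) s)) (back u' s j + j))
  have h4 : (∏ j, (if j ∈ ε' \ s then q ^ (t + 1) else (1 : ℂ))) = q ^ ((t + 1) * (ε' \ s).card) := by
    rw [Finset.prod_ite_mem, Finset.univ_inter, Finset.prod_const, ← pow_mul]
  rw [h4, smul_eq_mul] at this
  exact this

/-- invalid predecessors do not contribute -/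
theorem DD_invalid (hq : q ≠ 0) (hn : 1 ≤ n) (t : ℕ) (u' : Fin K → ℤ) (hv : Valid n (t + 1) u')
    (s : Finset (Fin K)) (hs : ∀ j, 2 * u' j = 2 * n + t + 1 → j ∈ s)
    (hinv : ¬ Valid n t (back u' s)) :
    DD q (n + K) b t (cnt n t (back u' s) s) (back u' s) = 0 := by
  have hmem : ∀ j ∈ s, (j ∈ cnt n t (back u' s) s ↔ ¬ 2 * u' j = 2 * n + t + 1) := by
    intro j hj
    have hb : back u' s j = u' j - 1 := by simp [back, hj]
    simp only [cnt, Finset.mem_filter, hb, hj, true_and]
    have := (hv.2 j).2
    push_cast at this
    constructor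
    · intro h h'; linarith
    · intro h
      have h3 : 2 * u' j < 2 * n + t + 1 := lt_of_le_of_ne (by linarith) h
      linarith
  by_cases hmono : ∀ i j : Fin K, (i : ℕ) + 1 = j → back u' s i ≤ back u' s j
  · -- wall violation
    have hw : ∃ j, ¬ ((t : ℤ) ≤ 2 * back u' s j ∧ 2 * back u' s j ≤ 2 * n + t) := by
      by_contra hcon
      push Not at hcon
      exact hinv ⟨hmono, hcon⟩
    obtain ⟨j, hj⟩ := hw
    have hle : back u' s j ≤ u' j := by
      unfold back; split_ifs <;> linarith
    have hge : u' j - 1 ≤ back u' s j := by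
      unfold back; split_ifs <;> linarith
    have h1 := (hv.2 j)
    push_cast at h1
    have hup : 2 * back u' s j ≤ 2 * n + t := by
      by_contra hcon
      push Not at hcon
      have h2 : 2 * u' j = 2 * n + t + 1 := by omega
      have h3 := hs j h2
      have hb : back u' s j = u' j - 1 := by simp [back, h3]
      omega
    have hlow : 2 * back u' s j < t := by
      by_contra hcon
      push Not at hcon
      exact hj ⟨hcon, hup⟩
    have hK : 0 < K := lt_of_le_of_lt (Nat.zero_le _) j.2
    -- monotone
    have hmono' : Monotone (back u' s) := by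
      have hV : Monotone (back u' s) := by
        have key : ∀ d : ℕ, ∀ i j : Fin K, (i : ℕ) + d = j → back u' s i ≤ back u' s j := by
          intro d
          induction d with
          | zero =>
            intro i j hij
            have : i = j := Fin.ext (by simpa using hij)
            rw [this]
          | succ d ih =>
            intro i j hij
            have hlt : (i : ℕ) + d < K := by have := j.2; omega
            exact le_trans (ih i ⟨(i : ℕ) + d, hlt⟩ rfl)
              (hmono ⟨(i : ℕ) + d, hlt⟩ j (by simp; omega))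
        intro i j hij
        have : (i : ℕ) ≤ j := hij
        exact key (j - i) i j (by omega)
      exact hV
    set z : Fin K := ⟨0, hK⟩ with hz
    have h0 : back u' s z ≤ back u' s j := hmono' (by rw [hz]; exact Nat.zero_le _)
    have hz1 := hv.2 z
    push_cast at hz1
    have hz2 : z ∈ s := by
      by_contra hcon
      have : back u' s z = u' z := by simp [back, hcon]
      omega
    have hbz : back u' s z = u' z - 1 := by simp [back, hz2]
    have hz3 : 2 * (u' z - 1) = (t : ℤ) - 1 := by omega
    have hz4 : z ∈ cnt n t (back u' s) s := by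
      rw [hmem z hz2]; omega
    apply Matrix.det_eq_zero_of_row_eq_zero z
    intro i
    simp only [Matrix.of_apply, hz4, decide_true, rowv, if_true]
    have : ((z : ℕ) : ℤ) = 0 := by simp [hz]
    rw [this, add_zero, hbz, HH_left hq K (n + K) (b i) t (u' z - 1) hz3, mul_zero]
  · push Not at hmono
    obtain ⟨i, j, hij, hlt⟩ := hmono
    have hu := hv.1 i j hij
    have hi : i ∉ s := by
      intro h
      have h1 : back u' s i = u' i - 1 := by simp [back, h]
      have h2 : u' j - 1 ≤ back u' s j := by unfold back; split_ifs <;> linarith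
      linarith
    have hj : j ∈ s := by
      by_contra h
      have h1 : back u' s j = u' j := by simp [back, h]
      have h2 : back u' s i ≤ u' i := by unfold back; split_ifs <;> linarith
      linarith
    have hbi : back u' s i = u' i := by simp [back, hi]
    have hbj : back u' s j = u' j - 1 := by simp [back, hj]
    have huu : u' i = u' j := by omega
    have hjc : j ∈ cnt n t (back u' s) s := by
      rw [hmem j hj]
      intro h
      exact hi (hs i (by rw [huu]; exact h))
    have hic : i ∉ cnt n t (back u' s) s := by simp [cnt, hi]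
    have hne : i ≠ j := by intro h; rw [h] at hij; omega
    have hvv : back u' s i + (i : ℤ) = back u' s j + (j : ℤ) := by
      rw [hbi, hbj, huu]
      have : ((i : ℕ) : ℤ) + 1 = ((j : ℕ) : ℤ) := by exact_mod_cast hij
      linarith
    unfold DD
    set A : Matrix (Fin K) (Fin K) ℂ := Matrix.of fun j =>
      rowv q (n + K) b t j (decide (j ∈ cnt n t (back u' s) s)) (back u' s j + j) with hA
    have hrow : ∀ k, A j k = q ^ ((t : ℤ) - (back u' s j + (j : ℤ))) * A i k := by
      intro k
      simp only [hA, Matrix.of_apply]
      simp only [hjc, hic, decide_true, decide_false]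
      rw [hvv, ← hij, rowv_true_eq]
      simp
    have h6 : A = A.updateRow j (q ^ ((t : ℤ) - (back u' s j + (j : ℤ))) • A i) := by
      ext k l
      by_cases hk : k = j
      · rw [hk, Matrix.updateRow_self, Pi.smul_apply, smul_eq_mul]; exact hrow l
      · rw [Matrix.updateRow_ne hk]
    rw [h6, Matrix.det_updateRow_smul]
    have h7 : (A.updateRow j (A i)).det = 0 := by
      apply Matrix.det_zero_of_row_eq hne
      rw [Matrix.updateRow_self, Matrix.updateRow_ne hne]
    rw [h7, mul_zero]

open Classical in
/-- one time step of the determinant formula -/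
theorem DD_step (hq : q ≠ 0) (hn : 1 ≤ n) (t : ℕ) (u' : Fin K → ℤ) (hv : Valid n (t + 1) u')
    (ε' : Finset (Fin K)) (hε : ∀ j ∈ ε', 2 * u' j + 1 < 2 * n + ((t + 1 : ℕ) : ℤ)) :
    DD q (n + K) b (t + 1) ε' u'
      = ∑ s : Finset (Fin K), q ^ ((t + 1) * (ε' \ s).card) *
          (if Valid n t (back u' s) then
            DD q (n + K) b t (cnt n t (back u' s) s) (back u' s) else 0) := by
  rw [DD_eq_parts n b hq hn t u' hv ε' hε]
  have h1 : Matrix.det (Matrix.of ((rpart q n t b u') + (lpart q n t b u' ε')))
      = ∑ s : Finset (Fin K),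
        Matrix.det (Matrix.of (s.piecewise (rpart q n t b u') (lpart q n t b u' ε'))) :=
    (Matrix.detRowAlternating : (Fin K → ℂ) [⋀^Fin K]→ₗ[ℂ] ℂ).toMultilinearMap.map_add_univ
      (rpart q n t b u') (lpart q n t b u' ε')
  rw [h1]
  apply Finset.sum_congr rfl
  intro s _
  by_cases hs : ∀ j, 2 * u' j = 2 * n + t + 1 → j ∈ s
  · rw [parts_eq n b t u' hv ε' s hs]
    by_cases hval : Valid n t (back u' s)
    · rw [if_pos hval]
    · rw [if_neg hval, DD_invalid n b hq hn t u' hv s hs hval]
  · push Not at hs
    obtain ⟨j, hj1, hj2⟩ := hs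
    rw [parts_zero n b t u' ε' s j hj1 hj2]
    have hval : ¬ Valid n t (back u' s) := by
      intro h
      have h1 := (h.2 j).2
      have hb : back u' s j = u' j := by simp [back, hj2]
      rw [hb] at h1
      linarith
    rw [if_neg hval, mul_zero]

end

end Pool.Agent.Lib.Primc
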