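import Pool.Agent.Lib.Primc.Defs
import Pool.Agent.Lib.Primc.Laurent

/-! # The modified theta function: product of two entire functions, functional equations -/

namespace Pool.Agent.Lib.Primc

open Finset Filter Topology

theorem isL_of_nat (c : ℕ → ℂ) (h : ∀ s : ℂ, Summable fun n : ℕ => ‖c n * s ^ n‖) :
    IsL fun s => ∑' n, c n * s ^ n := by
  have hinj : Function.Injective (Nat.cast : ℕ → ℤ) := Nat.cast_injective
  refine ⟨Function.extend (Nat.cast : ℕ → ℤ) c 0, fun s hs => ?_⟩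
  have h1 : (fun n : ℤ => Function.extend (Nat.cast : ℕ → ℤ) c 0 n * s ^ n) =
      Function.extend (Nat.cast : ℕ → ℤ) (fun n => c n * s ^ n) 0 := by
    funext n
    by_cases h : ∃ m : ℕ, (m : ℤ) = n
    · obtain ⟨m, rfl⟩ := h
      rw [hinj.extend_apply, hinj.extend_apply, zpow_natCast]
    · rw [Function.extend_apply' _ _ _ h, Function.extend_apply' _ _ _ h]
      simp
  constructor
  · have h3 : (fun n : ℤ => ‖Function.extend (Nat.cast : ℕ → ℤ) c 0 n * s ^ n‖) =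
      Function.extend (Nat.cast : ℕ → ℤ) (fun n => ‖c n * s ^ n‖) 0 := by
      funext n
      have := congrFun h1 n
      rw [this]
      by_cases h : ∃ m : ℕ, (m : ℤ) = n
      · obtain ⟨m, rfl⟩ := h
        rw [hinj.extend_apply, hinj.extend_apply]
      · rw [Function.extend_apply' _ _ _ h, Function.extend_apply' _ _ _ h]
        simp
    rw [h3]
    exact ((hasSum_extend_zero hinj).2 (h s).hasSum).summable
  · rw [h1]
    exact (hasSum_extend_zero hinj).2 (h s).of_norm.hasSum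

/-- Taylor coefficients of the infinite product of `1 - p^r z` -/
noncomputable def ec (p : ℂ) : ℕ → ℂ
  | 0 => 1
  | n + 1 => -p ^ n / (1 - p ^ (n + 1)) * ec p n

theorem norm_one_sub_pow (p : ℂ) (hp : ‖p‖ < 1) (n : ℕ) : 1 - ‖p‖ ≤ ‖1 - p ^ (n + 1)‖ := by
  have h1 : ‖p ^ (n + 1)‖ ≤ ‖p‖ := by
    rw [norm_pow]
    exact pow_le_of_le_one (norm_nonneg _) hp.le (Nat.succ_ne_zero n)
  have h2 : ‖(1 : ℂ)‖ - ‖p ^ (n + 1)‖ ≤ ‖1 - p ^ (n + 1)‖ := norm_sub_norm_le _ _
  rw [norm_one] at h2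
  linarith

theorem one_sub_pow_ne (p : ℂ) (hp : ‖p‖ < 1) (n : ℕ) : (1 : ℂ) - p ^ (n + 1) ≠ 0 := by
  have := norm_one_sub_pow p hp n
  intro h
  rw [h, norm_zero] at this
  linarith

theorem ec_rec (p : ℂ) (hp : ‖p‖ < 1) (n : ℕ) :
    ec p (n + 1) * p ^ (n + 1) - ec p n * p ^ n = ec p (n + 1) := by
  have h := one_sub_pow_ne p hp n
  have h2 : ec p (n + 1) * (1 - p ^ (n + 1)) = -p ^ n * ec p n := by
    rw [ec]
    field_simp
  linear_combination -h2

theorem ec_summable (p : ℂ) (hp : ‖p‖ < 1) (z : ℂ) : Summable fun n : ℕ => ‖ec p n * z ^ n‖ := by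
  have hp' : 0 < 1 - ‖p‖ := by linarith
  refine summable_of_ratio_norm_eventually_le (r := 1 / 2) (by norm_num) ?_
  have h1 : Tendsto (fun n : ℕ => ‖p‖ ^ n * (‖z‖ / (1 - ‖p‖))) atTop (𝓝 (0 * (‖z‖ / (1 - ‖p‖)))) :=
    (tendsto_pow_atTop_nhds_zero_of_lt_one (norm_nonneg _) hp).mul_const _
  rw [zero_mul] at h1
  filter_upwards [h1.eventually (ge_mem_nhds (show (0 : ℝ) < 1 / 2 by norm_num))] with n hn
  rw [norm_norm, norm_norm]
  have h2 : ‖ec p (n + 1) * z ^ (n + 1)‖ =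
      (‖p‖ ^ n * (‖z‖ / ‖1 - p ^ (n + 1)‖)) * ‖ec p n * z ^ n‖ := by
    rw [ec]
    simp only [norm_mul, norm_div, norm_neg, norm_pow]
    ring
  rw [h2]
  refine mul_le_mul_of_nonneg_right (le_trans ?_ hn) (norm_nonneg _)
  refine mul_le_mul_of_nonneg_left ?_ (by positivity)
  exact div_le_div_of_nonneg_left (norm_nonneg _) hp' (norm_one_sub_pow p hp n)

/-- the entire function `∏ (1 - p^r z)` as a power series -/
noncomputable def EE (p z : ℂ) : ℂ := ∑' n, ec p n * z ^ n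

theorem EE_eq (p : ℂ) (hp : ‖p‖ < 1) (z : ℂ) : EE p z = (1 - z) * EE p (p * z) := by
  have s1 := (ec_summable p hp z).of_norm
  have s2 := (ec_summable p hp (p * z)).of_norm
  have s1' := (summable_nat_add_iff 1).2 s1
  have s2' := (summable_nat_add_iff 1).2 s2
  have e1 : EE p z = 1 + ∑' n, ec p (n + 1) * z ^ (n + 1) := by
    unfold EE
    rw [s1.tsum_eq_zero_add]
    simp [ec]
  have e2 : EE p (p * z) = 1 + ∑' n, ec p (n + 1) * (p * z) ^ (n + 1) := by
    unfold EE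
    rw [s2.tsum_eq_zero_add]
    simp [ec]
  have e3 : z * EE p (p * z) = ∑' n, z * (ec p n * (p * z) ^ n) := by
    unfold EE
    rw [tsum_mul_left]
  have e4 : (1 - z) * EE p (p * z) = 1 + (∑' n, ec p (n + 1) * (p * z) ^ (n + 1) -
      ∑' n, z * (ec p n * (p * z) ^ n)) := by
    rw [sub_mul, one_mul, e3, e2]
    ring
  rw [e4, e1, ← s2'.tsum_sub (s2.mul_left z)]
  congr 1
  refine tsum_congr fun n => ?_
  have := ec_rec p hp n
  calc ec p (n + 1) * z ^ (n + 1)
      = (ec p (n + 1) * p ^ (n + 1) - ec p n * p ^ n) * z ^ (n + 1) := by rw [this]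
    _ = _ := by ring

theorem EE_zero (p : ℂ) : EE p 0 = 1 := by
  unfold EE
  rw [tsum_eq_single 0]
  · simp [ec]
  · intro n hn
    simp [hn]

theorem EE_tendsto (p : ℂ) (hp : ‖p‖ < 1) (z : ℂ) :
    Tendsto (fun N : ℕ => EE p (p ^ N * z)) atTop (𝓝 1) := by
  have hs : Summable fun n : ℕ => ‖ec p (n + 1) * z ^ (n + 1)‖ :=
    (summable_nat_add_iff 1).2 (ec_summable p hp z)
  set C := ∑' n : ℕ, ‖ec p (n + 1) * z ^ (n + 1)‖ with hC
  have hbound : ∀ N : ℕ, ‖EE p (p ^ N * z) - 1‖ ≤ ‖p‖ ^ N * C := by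
    intro N
    have s1 := ec_summable p hp (p ^ N * z)
    have s1' := (summable_nat_add_iff 1).2 s1
    have e1 : EE p (p ^ N * z) - 1 = ∑' n, ec p (n + 1) * (p ^ N * z) ^ (n + 1) := by
      unfold EE
      rw [s1.of_norm.tsum_eq_zero_add]
      simp [ec]
    rw [e1]
    refine (norm_tsum_le_tsum_norm s1').trans ?_
    rw [hC, ← tsum_mul_left]
    refine s1'.tsum_le_tsum (fun n => ?_) (hs.mul_left _)
    have : ‖ec p (n + 1) * (p ^ N * z) ^ (n + 1)‖ =
        (‖p‖ ^ N) ^ (n + 1) * ‖ec p (n + 1) * z ^ (n + 1)‖ := by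
      simp only [norm_mul, norm_pow]
      ring
    rw [this]
    refine mul_le_mul_of_nonneg_right ?_ (norm_nonneg _)
    exact pow_le_of_le_one (by positivity) (pow_le_one₀ (norm_nonneg _) hp.le) (Nat.succ_ne_zero n)
  rw [tendsto_iff_norm_sub_tendsto_zero]
  refine squeeze_zero (fun N => norm_nonneg _) hbound ?_
  have := (tendsto_pow_atTop_nhds_zero_of_lt_one (norm_nonneg _) hp).mul_const C
  rwa [zero_mul] at this

theorem EE_partial (p : ℂ) (hp : ‖p‖ < 1) (z : ℂ) (N : ℕ) :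
    (∏ r ∈ range N, (1 - p ^ r * z)) * EE p (p ^ N * z) = EE p z := by
  induction N with
  | zero => simp
  | succ N ih =>
    rw [prod_range_succ, mul_assoc]
    have : (1 - p ^ N * z) * EE p (p ^ (N + 1) * z) = EE p (p ^ N * z) := by
      rw [EE_eq p hp (p ^ N * z)]
      congr 2
      ring
    rw [this, ih]

theorem mult_one_sub (p : ℂ) (hp : ‖p‖ < 1) (z : ℂ) : Multipliable fun r : ℕ => (1 - p ^ r * z) := by
  have : Summable fun r : ℕ => ‖-(p ^ r * z)‖ := by
    simp only [norm_neg, norm_mul, norm_pow]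
    exact (summable_geometric_of_lt_one (norm_nonneg _) hp).mul_right _
  have := multipliable_one_add_of_summable this
  simpa only [← sub_eq_add_neg] using this

theorem EE_tprod (p : ℂ) (hp : ‖p‖ < 1) (z : ℂ) : ∏' r : ℕ, (1 - p ^ r * z) = EE p z := by
  have h1 := (mult_one_sub p hp z).hasProd.tendsto_prod_nat
  have h2 := h1.mul (EE_tendsto p hp z)
  simp only [EE_partial p hp z, mul_one] at h2
  exact tendsto_nhds_unique h2 tendsto_const_nhds

theorem th_eq (p : ℂ) (hp : ‖p‖ < 1) (z : ℂ) : th p z = EE p z * EE p (p / z) := by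
  unfold th
  have h1 := mult_one_sub p hp z
  have h2 := mult_one_sub p hp (p / z)
  rw [← EE_tprod p hp z, ← EE_tprod p hp (p / z), ← h1.tprod_mul h2]
  refine tprod_congr fun r => ?_
  congr 2
  ring

theorem isL_EE (p : ℂ) (hp : ‖p‖ < 1) : IsL (EE p) := isL_of_nat _ (ec_summable p hp)

theorem isL_th (p : ℂ) (hp0 : p ≠ 0) (hp : ‖p‖ < 1) : IsL (th p) := by
  have h1 := isL_EE p hp
  have h2 : IsL fun s => EE p (p * s⁻¹) := (h1.scale hp0).inv
  refine (h1.mul h2).congr fun s _ => ?_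
  rw [th_eq p hp, div_eq_mul_inv]

theorem th_mul_p (p : ℂ) (hp0 : p ≠ 0) (hp : ‖p‖ < 1) {z : ℂ} (hz : z ≠ 0) :
    th p (p * z) = -z⁻¹ * th p z := by
  rw [th_eq p hp, th_eq p hp, EE_eq p hp z]
  have h1 : p / (p * z) = 1 / z := by
    field_simp
  rw [h1, EE_eq p hp (1 / z)]
  have h2 : p * (1 / z) = p / z := by ring
  rw [h2]
  field_simp
  ring

theorem th_inv (p : ℂ) (hp : ‖p‖ < 1) {z : ℂ} (hz : z ≠ 0) :
    th p z⁻¹ = -z⁻¹ * th p z := by
  rw [th_eq p hp, th_eq p hp, EE_eq p hp z, EE_eq p hp z⁻¹]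
  have h1 : p / z⁻¹ = p * z := by
    field_simp
  have h2 : p * z⁻¹ = p / z := by ring
  rw [h1, h2]
  field_simp
  ring

end Pool.Agent.Lib.Primc
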