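import Pool.Agent.Lib.Primc.ThetaL

/-! # Odd theta functions of degree `2(K+1)` are combinations of `oddTh p K 1, ..., oddTh p K K` -/

namespace Pool.Agent.Lib.Primc

open Finset Filter Topology

theorem oddTh_neg (p : ℂ) (K : ℕ) (j : ℤ) (s : ℂ) : oddTh p K (-j) s = -oddTh p K j s := by
  unfold oddTh
  rw [← (Equiv.neg ℤ).tsum_eq, ← tsum_neg]
  refine tsum_congr fun m => ?_
  simp only [Equiv.neg_apply]
  rw [show ((K : ℤ) + 1) * (-m) ^ 2 - -j * -m = ((K : ℤ) + 1) * m ^ 2 - j * m by ring,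
    show 2 * ((K : ℤ) + 1) * -m - -j = -(2 * ((K : ℤ) + 1) * m - j) by ring, neg_neg]
  ring

theorem oddTh_add (p : ℂ) (hp0 : p ≠ 0) (K : ℕ) (j : ℤ) (s : ℂ) :
    oddTh p K (j + 2 * ((K : ℤ) + 1)) s = p ^ (-((K : ℤ) + 1) - j) * oddTh p K j s := by
  unfold oddTh
  rw [← (Equiv.addRight (1 : ℤ)).tsum_eq, ← tsum_mul_left]
  refine tsum_congr fun m => ?_
  simp only [Equiv.coe_addRight]
  rw [show ((K : ℤ) + 1) * (m + 1) ^ 2 - (j + 2 * ((K : ℤ) + 1)) * (m + 1) =
      (-((K : ℤ) + 1) - j) + (((K : ℤ) + 1) * m ^ 2 - j * m) by ring,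
    show 2 * ((K : ℤ) + 1) * (m + 1) - (j + 2 * ((K : ℤ) + 1)) = 2 * ((K : ℤ) + 1) * m - j by ring,
    zpow_add₀ hp0]
  ring

/-- the punctured plane -/
abbrev PP : Type := {s : ℂ // s ≠ 0}

/-- the span of the basic odd theta functions -/
noncomputable def VK (p : ℂ) (K : ℕ) : Submodule ℂ (PP → ℂ) :=
  Submodule.span ℂ (Set.range fun (j : Fin K) (s : PP) => oddTh p K ((j : ℕ) + 1 : ℤ) s.1)

theorem oddTh_mem_of_pos (p : ℂ) (K : ℕ) (r : ℕ) (h1 : 1 ≤ r) (h2 : r ≤ K) :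
    (fun s : PP => oddTh p K (r : ℤ) s.1) ∈ VK p K := by
  refine Submodule.subset_span ⟨⟨r - 1, by omega⟩, ?_⟩
  funext s
  simp only
  congr 1
  push_cast [Nat.cast_sub h1]
  ring

theorem oddTh_mem (p : ℂ) (hp0 : p ≠ 0) (K : ℕ) (r : ℕ) (hr : r < 2 * (K + 1)) :
    (fun s : PP => oddTh p K (-(r : ℤ)) s.1) ∈ VK p K := by
  rcases Nat.eq_zero_or_pos r with h0 | h0
  · subst h0
    have : (fun s : PP => oddTh p K (-((0 : ℕ) : ℤ)) s.1) = 0 := by
      funext s
      have h1 := oddTh_neg p K 0 s.1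
      simp only [neg_zero] at h1
      simp only [Nat.cast_zero, neg_zero, Pi.zero_apply]
      linear_combination (1 / 2 : ℂ) * h1
    rw [this]
    exact Submodule.zero_mem _
  rcases Nat.lt_or_ge K r with h1 | h1
  · rcases Nat.lt_or_ge (K + 1) r with h2 | h2
    · -- r in (h, 2h)
      have h3 : (fun s : PP => oddTh p K (-(r : ℤ)) s.1) = (p ^ (-((K : ℤ) + 1) + r))⁻¹ •
          fun s : PP => oddTh p K ((2 * (K + 1) - r : ℕ) : ℤ) s.1 := by
        funext s
        have h4 := oddTh_add p hp0 K (-(r : ℤ)) s.1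
        rw [sub_neg_eq_add] at h4
        have h5 : -(r : ℤ) + 2 * ((K : ℤ) + 1) = ((2 * (K + 1) - r : ℕ) : ℤ) := by
          push_cast [Nat.cast_sub hr.le]
          ring
        rw [h5] at h4
        simp only [Pi.smul_apply, smul_eq_mul]
        rw [h4, ← mul_assoc, inv_mul_cancel₀ (zpow_ne_zero _ hp0), one_mul]
      rw [h3]
      exact Submodule.smul_mem _ _ (oddTh_mem_of_pos p K _ (by omega) (by omega))
    · -- r = h
      have hrK : r = K + 1 := by omega
      have : (fun s : PP => oddTh p K (-(r : ℤ)) s.1) = 0 := by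
        funext s
        have h4 := oddTh_add p hp0 K (-(r : ℤ)) s.1
        rw [hrK] at h4
        rw [show -((K + 1 : ℕ) : ℤ) + 2 * ((K : ℤ) + 1) = ((K + 1 : ℕ) : ℤ) by push_cast; ring,
          show -((K : ℤ) + 1) - -((K + 1 : ℕ) : ℤ) = 0 by push_cast; ring, zpow_zero, one_mul,
          oddTh_neg] at h4
        simp only [Pi.zero_apply]
        rw [hrK, oddTh_neg]
        linear_combination (-1 / 2 : ℂ) * h4
      rw [this]
      exact Submodule.zero_mem _
  · have h3 : (fun s : PP => oddTh p K (-(r : ℤ)) s.1) =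
        (-1 : ℂ) • fun s : PP => oddTh p K (r : ℤ) s.1 := by
      funext s
      simp only [Pi.smul_apply, smul_eq_mul]
      rw [oddTh_neg]
      ring
    rw [h3]
    exact Submodule.smul_mem _ _ (oddTh_mem_of_pos p K r h0 h1)

/-- coefficient recursion in closed form -/
theorem coeff_closed (p : ℂ) (hp0 : p ≠ 0) (h : ℤ) (a : ℤ → ℂ)
    (ha : ∀ n, a (n + 2 * h) = p ^ (n + h) * a n) (r m : ℤ) :
    a (r + 2 * h * m) = p ^ (h * m ^ 2 + r * m) * a r := by
  induction m using Int.induction_on with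
  | zero => simp
  | succ m ih =>
    rw [show r + 2 * h * ((m : ℤ) + 1) = (r + 2 * h * m) + 2 * h by ring, ha, ih, ← mul_assoc,
      ← zpow_add₀ hp0]
    congr 2
    ring
  | pred m ih =>
    have h1 := ha (r + 2 * h * (-(m : ℤ) - 1))
    rw [show r + 2 * h * (-(m : ℤ) - 1) + 2 * h = r + 2 * h * -(m : ℤ) by ring, ih] at h1
    have h2 : p ^ (r + 2 * h * (-(m : ℤ) - 1) + h) ≠ 0 := zpow_ne_zero _ hp0
    apply mul_left_cancel₀ h2
    rw [← h1, ← mul_assoc, ← zpow_add₀ hp0]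
    congr 2
    ring

theorem span_lemma (p : ℂ) (hp0 : p ≠ 0) (K : ℕ) (f : ℂ → ℂ) (hf : IsL f)
    (h1 : ∀ s : ℂ, s ≠ 0 →
      f (p * s) = p ^ (-((K : ℤ) + 1)) * s ^ (-(2 * ((K : ℤ) + 1))) * f s)
    (h2 : ∀ s : ℂ, s ≠ 0 → f s⁻¹ = -f s) : (fun s : PP => f s.1) ∈ VK p K := by
  obtain ⟨a, ha⟩ := hf
  set h : ℤ := (K : ℤ) + 1 with hh
  -- recursion
  have hA : LS (fun s => f (p * s)) fun n => a n * p ^ n := by
    intro s hs
    have h3 : ∀ n : ℤ, a n * p ^ n * s ^ n = a n * (p * s) ^ n := fun n => by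
      rw [mul_zpow, mul_assoc]
    simp only [h3]
    exact ha _ (mul_ne_zero hp0 hs)
  have hB : LS (fun s => f (p * s)) fun n => p ^ (-h) * a (n + 2 * h) := by
    intro s hs
    have h3 : ∀ n : ℤ, p ^ (-h) * a (n + 2 * h) * s ^ n =
        p ^ (-h) * s ^ (-(2 * h)) * (a (n + 2 * h) * s ^ (n + 2 * h)) := fun n => by
      have : s ^ n = s ^ (-(2 * h)) * s ^ (n + 2 * h) := by
        rw [← zpow_add₀ hs]
        congr 1
        ring
      rw [this]
      ring
    simp only [h3, h1 s hs]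
    obtain ⟨h4, h5⟩ := ha s hs
    constructor
    · have h6 := ((Equiv.addRight (2 * h)).summable_iff
        (f := fun n : ℤ => ‖a n * s ^ n‖)).2 h4
      have h7 := h6.mul_left ‖p ^ (-h) * s ^ (-(2 * h))‖
      refine h7.congr fun n => ?_
      simp only [Function.comp_apply, Equiv.coe_addRight]
      rw [← norm_mul]
    · have h6 := ((Equiv.addRight (2 * h)).hasSum_iff
        (f := fun n : ℤ => a n * s ^ n)).2 h5
      exact h6.mul_left _
  have hrec : ∀ n, a (n + 2 * h) = p ^ (n + h) * a n := by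
    intro n
    have h3 := congrFun (hA.unique hB) n
    have h4 : p ^ (-h) ≠ 0 := zpow_ne_zero _ hp0
    apply mul_left_cancel₀ h4
    rw [← mul_assoc, ← zpow_add₀ hp0, ← h3]
    rw [mul_comm]
    congr 2
    ring
  have hcl := coeff_closed p hp0 h a hrec
  -- f as half the odd sum
  have hodd : ∀ s : ℂ, s ≠ 0 → HasSum (fun n : ℤ => a n * (s ^ n - s ^ (-n))) (2 * f s) := by
    intro s hs
    have h3 := (ha s hs).2
    have h4 := (ha s⁻¹ (inv_ne_zero hs)).2
    rw [h2 s hs] at h4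
    have h5 := h3.sub h4
    rw [sub_neg_eq_add, ← two_mul] at h5
    refine h5.congr_fun fun n => ?_
    rw [inv_zpow']
    ring
  -- decomposition into residue classes
  have hn0 : NeZero (2 * (K + 1)) := ⟨by omega⟩
  have hdec : ∀ s : PP, 2 * f s.1 = ∑ r : Fin (2 * (K + 1)),
      a ((r : ℕ) : ℤ) * oddTh p K (-((r : ℕ) : ℤ)) s.1 := by
    intro s
    have h3 := hodd s.1 s.2
    have h4 := ((Int.divModEquiv (2 * (K + 1))).symm.hasSum_iff
      (f := fun n : ℤ => a n * (s.1 ^ n - s.1 ^ (-n)))).2 h3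
    have h5 := ((Equiv.prodComm (Fin (2 * (K + 1))) ℤ).hasSum_iff).2 h4
    have hterm : ∀ (r : Fin (2 * (K + 1))) (m : ℤ),
        (((fun n : ℤ => a n * (s.1 ^ n - s.1 ^ (-n))) ∘ (Int.divModEquiv (2 * (K + 1))).symm) ∘
          (Equiv.prodComm (Fin (2 * (K + 1))) ℤ)) (r, m) =
        a ((r : ℕ) : ℤ) * (p ^ (h * m ^ 2 - -((r : ℕ) : ℤ) * m) *
          (s.1 ^ (2 * h * m - -((r : ℕ) : ℤ)) - s.1 ^ (-(2 * h * m - -((r : ℕ) : ℤ))))) := by
      intro r m
      simp only [Function.comp_apply, Equiv.prodComm_apply, Prod.swap_prod_mk,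
        Int.divModEquiv_symm_apply]
      rw [show m * ((2 * (K + 1) : ℕ) : ℤ) + ((r : ℕ) : ℤ) = ((r : ℕ) : ℤ) + 2 * h * m by
          rw [hh]
          push_cast
          ring, hcl,
        show h * m ^ 2 - -((r : ℕ) : ℤ) * m = h * m ^ 2 + ((r : ℕ) : ℤ) * m by ring,
        show 2 * h * m - -((r : ℕ) : ℤ) = ((r : ℕ) : ℤ) + 2 * h * m by ring]
      ring
    have hfib : ∀ r : Fin (2 * (K + 1)), HasSum (fun m : ℤ =>
        (((fun n : ℤ => a n * (s.1 ^ n - s.1 ^ (-n))) ∘ (Int.divModEquiv (2 * (K + 1))).symm) ∘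
          (Equiv.prodComm (Fin (2 * (K + 1))) ℤ)) (r, m))
        (a ((r : ℕ) : ℤ) * oddTh p K (-((r : ℕ) : ℤ)) s.1) := by
      intro r
      have h6 := (h5.summable.prod_factor r).hasSum
      have h7 : ∑' m : ℤ, (((fun n : ℤ => a n * (s.1 ^ n - s.1 ^ (-n))) ∘
          (Int.divModEquiv (2 * (K + 1))).symm) ∘
          (Equiv.prodComm (Fin (2 * (K + 1))) ℤ)) (r, m) =
          a ((r : ℕ) : ℤ) * oddTh p K (-((r : ℕ) : ℤ)) s.1 := by
        unfold oddTh
        rw [← tsum_mul_left]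
        exact tsum_congr fun m => hterm r m
      rw [h7] at h6
      exact h6
    have h8 := h5.prod_fiberwise hfib
    exact h8.unique (hasSum_fintype _)
  have hmem : (fun s : PP => f s.1) = (1 / 2 : ℂ) • ∑ r : Fin (2 * (K + 1)),
      a ((r : ℕ) : ℤ) • fun s : PP => oddTh p K (-((r : ℕ) : ℤ)) s.1 := by
    funext s
    simp only [Pi.smul_apply, Finset.sum_apply, smul_eq_mul]
    rw [← hdec s]
    ring
  rw [hmem]
  refine Submodule.smul_mem _ _ (Submodule.sum_mem _ fun r _ => Submodule.smul_mem _ _ ?_)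
  exact oddTh_mem p hp0 K r r.2

end Pool.Agent.Lib.Primc
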